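import Mathlib
import Pool.Agent.Work.MP_8efaaa_nt.R.Defs
import Pool.Agent.Work.MP_8efaaa_nt.R.DCtx
import Pool.Agent.Work.MP_8efaaa_nt.N5.Defs

/-!
# Definitions of the block K6 (fixed file)

Congruent numbers `a = 6 (mod 8)`: `K = ℚ(√-a)`, the same functions `fz`, `fk`, `fv` as in the block R, now at the pair
`M = ⟨4 s, 1⟩ + 8 c⁻¹`, `w = s / 8`.
-/

set_option autoImplicit false

namespace Pool.Agent.Work.MP_8efaaa_nt.K6

open NumberField Pool.Agent.Work.CM Pool.Agent.Work.MP_8efaaa_nt.R Pool.Agent.Work.MP_8efaaa_nt.N5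
open scoped Pointwise nonZeroDivisors

noncomputable section

/-- `K` is generated by a square root `s` of `-a`, `a` squarefree and `6` modulo `8` -/
structure B6 (K : Type*) [Field K] [NumberField K] (a : ℕ) (s : K) : Prop where
  dim : Module.finrank ℚ K = 2
  sq : s ^ 2 = -(a : K)
  sf : Squarefree a
  mod : a % 8 = 6

section ideals

variable {K : Type*} [Field K] [NumberField K] [Algebra K ℂ]

/-- the lattice spanned by `2 ^ j s / 2` and `1` -/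
def La6 (s : K) (j : ℕ) : Submodule ℤ ℂ :=
  Submodule.span ℤ {(2 : ℂ) ^ j * (algebraMap K ℂ s / 2), 1}

/-- the lattice `⟨4 s, 1⟩ + 8 c⁻¹` -/
def M6 (s : K) (c : Ideal (𝓞 K)) : Submodule ℤ ℂ := La6 s 3 ⊔ (8 : ℂ) • iv c

/-- the point `s / 8` -/
def w6 (s : K) : ℂ := algebraMap K ℂ s / 8

/-- the lattice spanned by `2 ^ k s / 8` and `1` -/
def Lk6 (s : K) (k : ℕ) : Submodule ℤ ℂ := Submodule.span ℤ {(2 : ℂ) ^ k * w6 s, 1}

/-- the functions of the ideal `c` -/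
def zc (s : K) (c : Ideal (𝓞 K)) : ℂ := fz (M6 s c) (w6 s)

def kc (s : K) (c : Ideal (𝓞 K)) : ℂ := fk (M6 s c) (w6 s)

def vc (s : K) (c : Ideal (𝓞 K)) : ℂ := fv (M6 s c) (w6 s)

def uc (s : K) (c : Ideal (𝓞 K)) : ℂ := fu (M6 s c) (w6 s)

end ideals

/-- the ramified ideal of norm `d`, `d ∣ a` -/
def r6 {K : Type*} [Field K] [NumberField K] (S : 𝓞 K) (d : ℕ) : Ideal (𝓞 K) :=
  Ideal.span {(d : 𝓞 K), S}

/-- `F` contains the values of the functions, a root of unity of order `8` and the real square roots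
of the divisors of `a` -/
structure C6 (K F : Type*) [Field K] [NumberField K] [Algebra K ℂ] [Field F] [Algebra F ℂ]
    (a : ℕ) (s : K) (ζ : F) (w : ℕ → F) (z k v : Ideal (𝓞 K) → F) : Prop where
  z8 : ζ ^ 4 = -1
  hz : ∀ c, OddI c → algebraMap F ℂ (z c) = zc s c
  hk : ∀ c, OddI c → algebraMap F ℂ (k c) = kc s c
  hv : ∀ c, OddI c → algebraMap F ℂ (v c) = vc s c
  fin : ∃ T : Finset F, ∀ c, OddI c → z c ∈ T ∧ k c ∈ T ∧ v c ∈ T
  hw : ∀ d, d ∣ a → w d ^ 2 = (d : F)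
  hwr : ∀ d, d ∣ a → (starRingEnd ℂ) (algebraMap F ℂ (w d)) = algebraMap F ℂ (w d)

/-- `σ` multiplies the argument of `z`, `k`, `v` by the ideal `b`, and acts on `ζ` and on the square
roots of the divisors `d` of `a` prime to the norm of `b` as this norm says -/
structure MA6 {K F : Type*} [Field K] [NumberField K] [Field F] (a : ℕ) (ζ : F) (w : ℕ → F)
    (z k v : Ideal (𝓞 K) → F) (σ : F → F) (b : Ideal (𝓞 K)) : Prop where
  act : DAct z k v σ b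
  z8 : σ ζ = ζ ^ Ideal.absNorm b
  sq : ∀ d, d ∣ a → Nat.Coprime d (Ideal.absNorm b) →
    σ (w d) = (jacobiSym d (Ideal.absNorm b) : ℤ) * w d

/-- `(m) ∏ L = (δ) b` with `m = x (mod 8)`, `δ = x + 8 y s`, and the primes of the list are prime to
`N` -/
def Mov6 {K : Type*} [Field K] [NumberField K] (a : ℕ) (s : K) (N : ℕ) (b : Ideal (𝓞 K)) : Prop :=
  ∃ (L : List (Ideal (𝓞 K))) (m x y : ℤ) (δ : 𝓞 K), Odd m ∧ Odd x ∧ m % 8 = x % 8 ∧
    algebraMap (𝓞 K) K δ = x + 8 * y * s ∧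
    (∀ q ∈ L, q.IsPrime ∧ (Ideal.absNorm q).Prime ∧ ¬ Ideal.absNorm q ∣ N) ∧
    Ideal.span {(m : 𝓞 K)} * L.prod = Ideal.span {δ} * b ∧
    Ideal.absNorm L.prod % 8 = Ideal.absNorm b % 8 ∧
    ∀ d : ℕ, d ∣ a → Nat.Coprime d (Ideal.absNorm b) →
      jacobiSym d (Ideal.absNorm L.prod) = jacobiSym d (Ideal.absNorm b)

/-- `V` is a valuation of `F` that belongs to the prime ideal `L` -/
structure VL {F Γ : Type*} [Field F] [NumberField F] [LinearOrderedCommGroupWithZero Γ]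
    (V : Valuation F Γ) (L : Ideal (𝓞 F)) : Prop where
  prime : L.IsPrime
  int : ∀ x : 𝓞 F, V (algebraMap (𝓞 F) F x) ≤ 1
  lt : ∀ x : 𝓞 F, V (algebraMap (𝓞 F) F x) < 1 ↔ x ∈ L

/-- The Galois data over `ℚ`: functions `z`, `k`, `v` of the odd ideals. -/
structure UD6 (K F : Type*) [Field K] [NumberField K] [Field F] [NumberField F] [Algebra K F]
    (a : ℕ) (s : K) (S : 𝓞 K) (τ : 𝓞 K ≃+* 𝓞 K) (ζ : F) (w : ℕ → F) (z k v : Ideal (𝓞 K) → F)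
    (κ : F ≃ₐ[ℚ] F) : Prop where
  z8 : ζ ^ 4 = -1
  ne : ∀ c, OddI c → z c ≠ 0 ∧ k c ≠ 0 ∧ v c ≠ 0
  zk : ∀ c, OddI c → z c ^ 2 = 1 + k c ^ 2
  vz : ∀ c, OddI c → (v c * z c) ^ 2 = 2 * k c
  hw : ∀ d, d ∣ a → w d ^ 2 = (d : F)
  /-- all automorphisms act by ideals prime to `2 a` -/
  act : ∀ σ : F ≃ₐ[K] F, ∃ b : Ideal (𝓞 K), OddI b ∧ Nat.Coprime (Ideal.absNorm b) a ∧
    MA6 a ζ w z k v σ b
  /-- all odd ideals act -/
  mov : ∀ b : Ideal (𝓞 K), OddI b → ∃ σ : F ≃ₐ[K] F, MA6 a ζ w z k v σ b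
  /-- translations -/
  tr1 : ∀ (x y : ℤ) (δ : 𝓞 K), Odd x → algebraMap (𝓞 K) K δ = x + 4 * y * s → ∀ c, OddI c →
    z (Ideal.span {δ} * c) = (e8 x : ℤ) * z c ∧ k (Ideal.span {δ} * c) = k c ∧
      v (Ideal.span {δ} * c) = v c
  trh : ∀ (x y : ℤ) (δ : 𝓞 K), Odd x → Odd y → algebraMap (𝓞 K) K δ = x + 2 * y * s →
    ∀ c, OddI c → v (Ideal.span {δ} * c) = -v c ∧
      2 / z (Ideal.span {δ} * c) ^ 2 - 1 = -(2 / z c ^ 2 - 1)
  trq : ∀ (x y : ℤ) (δ : 𝓞 K), Odd x → Odd y → algebraMap (𝓞 K) K δ = x + y * s →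
    ∀ c, OddI c → v (Ideal.span {δ} * c) ^ 2 * v c ^ 2 = -1 ∧
      (2 / z (Ideal.span {δ} * c) ^ 2 - 1) * v c = (2 / z c ^ 2 - 1) * v (Ideal.span {δ} * c)
  /-- the Fricke involution -/
  fr1 : ∀ c, OddI c → v (r6 S (a / 2) * c) * (1 + v c ^ 2) = 2 / z c ^ 2 - 1
  fr2 : ∀ c, OddI c → (2 / z (r6 S (a / 2) * c) ^ 2 - 1) * (1 + v c ^ 2) = 2 * v c
  /-- complex conjugation -/
  cs : κ (algebraMap K F s) = -algebraMap K F s
  cz : κ ζ = ζ ^ 7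
  cw : ∀ d, d ∣ a → κ (w d) = w d
  cc : ∀ c, OddI c → κ (z c) = z (cj τ c) ∧ κ (k c) = k (cj τ c) ∧ κ (v c) = v (cj τ c)
  /-- the values are units outside of `2` -/
  unit : ∀ (L : Ideal (𝓞 F)) (Γ : Type) [LinearOrderedCommGroupWithZero Γ] (V : Valuation F Γ),
    VL V L → (2 : 𝓞 F) ∉ L → ∀ c, OddI c →
    V (z c) = 1 ∧ V (2 - z c ^ 2) = 1 ∧ V (k c) = 1 ∧ V (v c) = 1
  /-- the congruence of Kronecker, also at the ramified primes -/
  kron : ∀ (l : ℕ) (L : Ideal (𝓞 F)) (Γ : Type) [LinearOrderedCommGroupWithZero Γ]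
    (V : Valuation F Γ), VL V L → l.Prime → l ≠ 2 →
    Ideal.absNorm (L.comap (algebraMap (𝓞 K) (𝓞 F))) = l → ∀ c, OddI c →
    V (z (L.comap (algebraMap (𝓞 K) (𝓞 F)) * c) - z c ^ l) < 1 ∧
    V (k (L.comap (algebraMap (𝓞 K) (𝓞 F)) * c) - k c ^ l) < 1 ∧
    V (v (L.comap (algebraMap (𝓞 K) (𝓞 F)) * c) - v c ^ l) < 1

end

end Pool.Agent.Work.MP_8efaaa_nt.K6
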