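import Mathlib
import Pool.Agent.Work.MP_8efaaa_nt.K6.Defs
import Pool.Agent.Work.MP_8efaaa_nt.R6.RInt6

/-!
# K6/ARg (S-M): the ring of integers

Models: `R/CRing.lean`, `R/DQuad.lean`, `R6/RInt6.lean` (its structure `Q6` is for all `a % 8 = 6`; prove `∃ S, algebraMap S = s ∧ Q6 K a S` as there in
`exists_Q6`), `N5/CDat.lean` (`norm_cj`). For `exists_tau6`: the nontrivial automorphism of `K` over `ℚ` (`K = ℚ(s)`), e.g. from an
`AlgEquiv` and `NumberField.RingOfIntegers.mapRingEquiv`, or directly; see how `N5` (EMain, Fin8) or `N7/ICj` obtain it. -/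

set_option autoImplicit false

namespace Pool.Agent.Work.MP_8efaaa_nt.K6

open NumberField Pool.Agent.Work.MP_8efaaa_nt.R Pool.Agent.Work.MP_8efaaa_nt.N5

variable {K : Type*} [Field K] [NumberField K] {a : ℕ} {s : K} {S : 𝓞 K}

private theorem hpos6 (hb : B6 K a s) : 0 < a := Nat.pos_of_ne_zero hb.sf.ne_zero

private theorem pow_inj6 {b c : Ideal (𝓞 K)} {n : ℕ} (hn : n ≠ 0) (h : b ^ n = c ^ n) : b = c := by
  have h1 : b ∣ c := (UniqueFactorizationMonoid.pow_dvd_pow_iff_dvd hn).1 h.dvd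
  have h2 : c ∣ b := (UniqueFactorizationMonoid.pow_dvd_pow_iff_dvd hn).1 h.symm.dvd
  exact associated_iff_eq.1 (associated_of_dvd_dvd h1 h2)

private theorem absNorm_map6 (e : 𝓞 K ≃+* 𝓞 K) (I : Ideal (𝓞 K)) :
    Ideal.absNorm (I.map (e : 𝓞 K →+* 𝓞 K)) = Ideal.absNorm I := by
  rw [Ideal.absNorm_apply, Submodule.cardQuot_apply, Ideal.absNorm_apply, Submodule.cardQuot_apply]
  exact (Nat.card_congr (Ideal.quotientEquiv I _ e rfl).toEquiv).symm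

theorem q6 (hb : B6 K a s) (hS : algebraMap (𝓞 K) K S = s) : R6.Q6 K a S := by
  refine ⟨hb.dim, ?_, hb.sf, hb.mod⟩
  apply RingOfIntegers.ext
  have h := hb.sq
  show algebraMap (𝓞 K) K (S * S) = algebraMap (𝓞 K) K (-(a : 𝓞 K))
  rw [map_mul, map_neg, map_natCast, hS, ← pow_two]
  exact h

theorem exists_S6 (hb : B6 K a s) : ∃ S : 𝓞 K, algebraMap (𝓞 K) K S = s ∧ S ^ 2 = -(a : 𝓞 K) ∧
    ∀ x : 𝓞 K, ∃ p q : ℤ, x = p + q * S := by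
  obtain ⟨S, h1, h2⟩ := Pool.Agent.Work.MP_787500_nt.Quad.exists_int_s hb.sq
  exact ⟨S, h1, h2, (q6 hb h1).coords⟩

theorem coords6 (hb : B6 K a s) (x : 𝓞 K) : ∃ p q : ℤ, algebraMap (𝓞 K) K x = p + q * s := by
  obtain ⟨S, h1, -, h3⟩ := exists_S6 hb
  obtain ⟨p, q, rfl⟩ := h3 x
  exact ⟨p, q, by rw [map_add, map_mul, map_intCast, map_intCast, h1]⟩

private theorem lin6 {δ : 𝓞 K} {x y : ℤ}
    (hδ : algebraMap (𝓞 K) K δ = x + y * s) (hS : algebraMap (𝓞 K) K S = s) :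
    δ = (x : 𝓞 K) + (y : 𝓞 K) * S := by
  apply RingOfIntegers.ext
  show algebraMap (𝓞 K) K δ = algebraMap (𝓞 K) K ((x : 𝓞 K) + (y : 𝓞 K) * S)
  rw [hδ, map_add, map_mul, map_intCast, map_intCast, hS]

theorem norm_lin6 (hb : B6 K a s) {δ : 𝓞 K} {x y : ℤ} (hδ : algebraMap (𝓞 K) K δ = x + y * s) :
    (Ideal.absNorm (Ideal.span {δ}) : ℤ) = x ^ 2 + a * y ^ 2 := by
  obtain ⟨S, h1, -, -⟩ := exists_S6 hb
  rw [lin6 hδ h1]
  exact (q6 hb h1).norm_gen x y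

theorem oddI_span6 (hb : B6 K a s) {δ : 𝓞 K} {x y : ℤ} (hδ : algebraMap (𝓞 K) K δ = x + y * s) :
    OddI (Ideal.span {δ}) ↔ Odd x := by
  obtain ⟨S, h1, -, -⟩ := exists_S6 hb
  rw [lin6 hδ h1]
  exact (q6 hb h1).oddI_span x y

theorem exists_tau6 (hb : B6 K a s) (hS : algebraMap (𝓞 K) K S = s) :
    ∃ τ : 𝓞 K ≃+* 𝓞 K, τ S = -S := by
  obtain ⟨σK, hσK⟩ := Pool.Agent.Work.MP_787500_nt.Quad.exists_conj hb.dim hb.sq (hpos6 hb)
  refine ⟨RingOfIntegers.mapRingEquiv σK, ?_⟩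
  apply RingOfIntegers.ext
  show σK (algebraMap (𝓞 K) K S) = algebraMap (𝓞 K) K (-S)
  rw [hS, map_neg, hS, hσK]

private theorem mul_cj6 (hb : B6 K a s) (hS : algebraMap (𝓞 K) K S = s) {τ : 𝓞 K ≃+* 𝓞 K}
    (hτ : τ S = -S) (c : Ideal (𝓞 K)) : c * c.map (τ : 𝓞 K →+* 𝓞 K) =
      Ideal.span {((Ideal.absNorm c : ℕ) : 𝓞 K)} := by
  have hQ := q6 hb hS
  by_cases hc : c = ⊥
  · subst hc
    rw [Ideal.absNorm_bot, Ideal.bot_mul]
    simp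
  classical
  obtain ⟨n, hn, α, hα⟩ : ∃ n : ℕ, n ≠ 0 ∧ ∃ α : 𝓞 K, c ^ n = Ideal.span {α} := by
    refine ⟨Fintype.card (ClassGroup (𝓞 K)), Fintype.card_ne_zero, ?_⟩
    have h2 : (ClassGroup.mk0 ⟨c, mem_nonZeroDivisors_iff_ne_zero.2 hc⟩) ^
        Fintype.card (ClassGroup (𝓞 K)) = 1 := pow_card_eq_one
    rw [← map_pow, ClassGroup.mk0_eq_one_iff] at h2
    obtain ⟨α, hα⟩ := h2
    exact ⟨α, hα⟩
  obtain ⟨x, y, hxy⟩ := hQ.coords α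
  have hN : ((Ideal.absNorm c : ℕ) : 𝓞 K) ^ n = α * τ α := by
    have h3 : ((Ideal.absNorm c ^ n : ℕ) : ℤ) = x ^ 2 + a * y ^ 2 := by
      rw [← map_pow, hα, hxy]
      exact hQ.norm_gen x y
    have h4 : ((Ideal.absNorm c : ℕ) : 𝓞 K) ^ n = ((x ^ 2 + a * y ^ 2 : ℤ) : 𝓞 K) := by
      rw [← h3]
      push_cast
      rfl
    rw [h4, hxy, map_add, map_mul, map_intCast, map_intCast, hτ]
    push_cast
    linear_combination (y : 𝓞 K) ^ 2 * hQ.sq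
  apply pow_inj6 hn
  rw [mul_pow, ← Ideal.map_pow, hα, Ideal.map_span, Set.image_singleton,
    Ideal.span_singleton_mul_span_singleton, Ideal.span_singleton_pow, hN]
  rfl

theorem norm_cj6 (hb : B6 K a s) (hS : algebraMap (𝓞 K) K S = s) {τ : 𝓞 K ≃+* 𝓞 K}
    (hτ : τ S = -S) (c : Ideal (𝓞 K)) : Ideal.absNorm (cj τ c) = Ideal.absNorm c ∧
      c * cj τ c = Ideal.span {((Ideal.absNorm c : ℕ) : 𝓞 K)} ∧ cj τ (cj τ c) = c := by
  have hinv : ∀ t : 𝓞 K, τ (τ t) = t := by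
    intro t
    obtain ⟨x, y, rfl⟩ := (q6 hb hS).coords t
    simp only [map_add, map_mul, map_intCast, hτ, map_neg, neg_neg]
  refine ⟨absNorm_map6 τ c, mul_cj6 hb hS hτ c, ?_⟩
  unfold cj
  rw [Ideal.map_map]
  have h4 : (τ : 𝓞 K →+* 𝓞 K).comp (τ : 𝓞 K →+* 𝓞 K) = RingHom.id (𝓞 K) := by
    ext1 t
    exact hinv t
  rw [h4, Ideal.map_id]

theorem cj_mul6 {τ : 𝓞 K ≃+* 𝓞 K} (b c : Ideal (𝓞 K)) : cj τ (b * c) = cj τ b * cj τ c := by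
  unfold cj
  rw [Ideal.map_mul]

end Pool.Agent.Work.MP_8efaaa_nt.K6
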