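import Mathlib
import Pool.Agent.Work.MP_8efaaa_nt.K6.ARg

/-!
# K6/ARm (S-M): the ramified ideals `r6 S d = (d, S)`, `d ∣ a`

PROOF. `r6 S d * r6 S d = (d ^ 2, d S, a) = (d) (d, S, a / d)` and `gcd(d, a / d) = 1` (`a` squarefree): `= (d)`. Norms: `absNorm (span {(d : 𝓞 K)}) = d ^ 2`.
An element `p + q S` of `r6 S d`: `p` is divisible by `d` (products of `S` by `S` give `-a`). `r6_mul`: `(d e, d S, e S, S ^ 2)`, `gcd(d, e) = 1`. A prime ideal
that contains `l` contains `S ^ 2 = -a`, so `S`; `r6 S l` is prime because its norm is the prime `l`, hence maximal. Models: `R/RInt.lean` (P2), `N5/NMi.lean`,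
`N5/DIn.lean`, `N7/DIn.lean`. -/

set_option autoImplicit false

namespace Pool.Agent.Work.MP_8efaaa_nt.K6

open NumberField Pool.Agent.Work.MP_8efaaa_nt.R Pool.Agent.Work.MP_8efaaa_nt.N5

variable {K : Type*} [Field K] [NumberField K] {a : ℕ} {s : K} {S : 𝓞 K}

theorem mem_r6 (hb : B6 K a s) (hS : algebraMap (𝓞 K) K S = s) {d : ℕ} (hd : d ∣ a) (p q : ℤ) :
    (p : 𝓞 K) + (q : 𝓞 K) * S ∈ r6 S d ↔ (d : ℤ) ∣ p := by
  have h := q6 hb hS
  constructor
  · intro hx
    unfold r6 at hx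
    rw [Ideal.mem_span_pair] at hx
    obtain ⟨u, v, huv⟩ := hx
    obtain ⟨u1, u2, rfl⟩ := h.coords u
    obtain ⟨v1, v2, rfl⟩ := h.coords v
    have e1 : (p : 𝓞 K) + (q : 𝓞 K) * S =
        ((u1 * d - v2 * a : ℤ) : 𝓞 K) + ((u2 * d + v1 : ℤ) : 𝓞 K) * S := by
      rw [← huv]
      push_cast
      linear_combination (v2 : 𝓞 K) * h.sq
    have e2 := (h.unique _ _ _ _ e1).1
    rw [e2]
    have e3 : (d : ℤ) ∣ (a : ℤ) := Int.natCast_dvd_natCast.2 hd
    exact dvd_sub (dvd_mul_left _ _) (e3.mul_left _)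
  · rintro ⟨k, rfl⟩
    unfold r6
    rw [Ideal.mem_span_pair]
    refine ⟨k, q, ?_⟩
    push_cast
    ring

theorem r6_sq (hb : B6 K a s) (hS : algebraMap (𝓞 K) K S = s) {d : ℕ} (hd : d ∣ a) :
    r6 S d * r6 S d = Ideal.span {(d : 𝓞 K)} := by
  have h := q6 hb hS
  obtain ⟨e, he⟩ := hd
  have hco : Nat.Coprime d e := by
    have h1 := hb.sf
    rw [he] at h1
    exact Nat.coprime_of_squarefree_mul h1
  have hbez : (d : ℤ) * Nat.gcdA d e + e * Nat.gcdB d e = 1 := by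
    have h1 := Nat.gcd_eq_gcd_ab d e
    rw [hco] at h1
    push_cast at h1
    linarith
  have hsq : S * S = -((d : 𝓞 K) * e) := by
    rw [h.sq, he]
    push_cast
    ring
  unfold r6
  rw [Ideal.span_pair_mul_span_pair]
  apply le_antisymm
  · rw [Ideal.span_le]
    rintro x (rfl | rfl | rfl | rfl)
    · rw [SetLike.mem_coe, Ideal.mem_span_singleton]
      exact dvd_mul_right _ _
    · rw [SetLike.mem_coe, Ideal.mem_span_singleton]
      exact dvd_mul_right _ _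
    · rw [SetLike.mem_coe, Ideal.mem_span_singleton]
      exact dvd_mul_left _ _
    · rw [SetLike.mem_coe, Ideal.mem_span_singleton, hsq]
      exact ((dvd_mul_right _ _).neg_right)
  · rw [Ideal.span_singleton_le_iff_mem]
    have a1 : (d : 𝓞 K) * d ∈ Ideal.span {(d : 𝓞 K) * d, (d : 𝓞 K) * S, S * d, S * S} :=
      Ideal.subset_span (by simp)
    have a2 : S * S ∈ Ideal.span {(d : 𝓞 K) * d, (d : 𝓞 K) * S, S * d, S * S} :=
      Ideal.subset_span (by simp)
    have a3 := Ideal.sub_mem _ (Ideal.mul_mem_left _ (Nat.gcdA d e : 𝓞 K) a1)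
      (Ideal.mul_mem_left _ (Nat.gcdB d e : 𝓞 K) a2)
    have a4 : (d : 𝓞 K) * Nat.gcdA d e + e * Nat.gcdB d e = 1 := by
      exact_mod_cast congrArg (Int.cast (R := 𝓞 K)) hbez
    have a5 : (Nat.gcdA d e : 𝓞 K) * ((d : 𝓞 K) * d) - (Nat.gcdB d e : 𝓞 K) * (S * S) = d := by
      linear_combination (d : 𝓞 K) * a4 - (Nat.gcdB d e : 𝓞 K) * hsq
    rw [a5] at a3
    exact a3

theorem norm_r6 (hb : B6 K a s) (hS : algebraMap (𝓞 K) K S = s) {d : ℕ} (hd : d ∣ a) :
    Ideal.absNorm (r6 S d) = d := by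
  have h := q6 hb hS
  have h1 := congrArg Ideal.absNorm (r6_sq hb hS hd)
  rw [map_mul] at h1
  have h2 := h.norm_gen (d : ℤ) 0
  have e : (((d : ℤ) : 𝓞 K) + ((0 : ℤ) : 𝓞 K) * S) = (d : 𝓞 K) := by push_cast; ring
  rw [e, ← h1] at h2
  have h3 : Ideal.absNorm (r6 S d) * Ideal.absNorm (r6 S d) = d * d := by
    have h4 : ((Ideal.absNorm (r6 S d) * Ideal.absNorm (r6 S d) : ℕ) : ℤ) = ((d * d : ℕ) : ℤ) := by
      rw [h2]
      push_cast
      ring
    exact_mod_cast h4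
  exact Nat.mul_self_inj.1 h3

theorem r6_mul (hb : B6 K a s) (hS : algebraMap (𝓞 K) K S = s) {d e : ℕ} (hde : d * e ∣ a) :
    r6 S (d * e) = r6 S d * r6 S e := by
  have h := q6 hb hS
  have hco : Nat.Coprime d e := Nat.coprime_of_squarefree_mul (hb.sf.squarefree_of_dvd hde)
  have hbez : (d : ℤ) * Nat.gcdA d e + e * Nat.gcdB d e = 1 := by
    have h1 := Nat.gcd_eq_gcd_ab d e
    rw [hco] at h1
    push_cast at h1
    linarith
  unfold r6
  rw [Ideal.span_pair_mul_span_pair]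
  apply le_antisymm
  · rw [Ideal.span_le]
    rintro x (rfl | rfl)
    · rw [Nat.cast_mul]
      exact Ideal.subset_span (by simp)
    · have a1 : (d : 𝓞 K) * x ∈ Ideal.span {(d : 𝓞 K) * e, (d : 𝓞 K) * x, x * e, x * x} :=
        Ideal.subset_span (by simp)
      have a2 : x * e ∈ Ideal.span {(d : 𝓞 K) * e, (d : 𝓞 K) * x, x * e, x * x} :=
        Ideal.subset_span (by simp)
      have a3 := Ideal.add_mem _ (Ideal.mul_mem_left _ (Nat.gcdA d e : 𝓞 K) a1)
        (Ideal.mul_mem_left _ (Nat.gcdB d e : 𝓞 K) a2)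
      have a4 : (d : 𝓞 K) * Nat.gcdA d e + e * Nat.gcdB d e = 1 := by
        exact_mod_cast congrArg (Int.cast (R := 𝓞 K)) hbez
      have a5 : (Nat.gcdA d e : 𝓞 K) * ((d : 𝓞 K) * x) + (Nat.gcdB d e : 𝓞 K) * (x * e) = x := by
        linear_combination x * a4
      rw [a5] at a3
      exact a3
  · rw [Ideal.span_le]
    have b1 : (((d * e : ℕ)) : 𝓞 K) ∈ Ideal.span {(((d * e : ℕ)) : 𝓞 K), S} :=
      Ideal.subset_span (by simp)
    have b2 : S ∈ Ideal.span {(((d * e : ℕ)) : 𝓞 K), S} := Ideal.subset_span (by simp)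
    rintro x (rfl | rfl | rfl | rfl)
    · rw [Nat.cast_mul] at b1
      rw [SetLike.mem_coe, Nat.cast_mul]
      exact b1
    · exact Ideal.mul_mem_left _ _ b2
    · exact Ideal.mul_mem_right _ _ b2
    · exact Ideal.mul_mem_right _ _ b2

theorem r6_all (hb : B6 K a s) (hS : algebraMap (𝓞 K) K S = s) : r6 S a = Ideal.span {S} := by
  have h := q6 hb hS
  unfold r6
  apply le_antisymm
  · rw [Ideal.span_le]
    rintro x (rfl | rfl)
    · rw [SetLike.mem_coe, Ideal.mem_span_singleton]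
      exact ⟨-S, by linear_combination h.sq⟩
    · exact Ideal.mem_span_singleton_self _
  · rw [Ideal.span_singleton_le_iff_mem]
    exact Ideal.subset_span (by simp)

theorem r6_prime (hb : B6 K a s) (hS : algebraMap (𝓞 K) K S = s) {l : ℕ} (hl : l.Prime)
    (hla : l ∣ a) : (r6 S l).IsPrime := by
  apply Ideal.isPrime_of_irreducible_absNorm
  rw [norm_r6 hb hS hla]
  exact hl

theorem r6_unique (hb : B6 K a s) (hS : algebraMap (𝓞 K) K S = s) {l : ℕ} (hl : l.Prime)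
    (hla : l ∣ a) {q : Ideal (𝓞 K)} (hq : q.IsPrime) (hlq : (l : 𝓞 K) ∈ q) : q = r6 S l := by
  have h := q6 hb hS
  have hS2 : S * S ∈ q := by
    obtain ⟨e, he⟩ := hla
    have h1 : S * S = (-(e : 𝓞 K)) * l := by
      rw [h.sq, he]
      push_cast
      ring
    rw [h1]
    exact Ideal.mul_mem_left _ _ hlq
  have hSq : S ∈ q := by
    rcases hq.mem_or_mem hS2 with h1 | h1 <;> exact h1
  have hle : r6 S l ≤ q := by
    unfold r6
    rw [Ideal.span_le]
    rintro x (rfl | rfl)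
    · exact hlq
    · exact hSq
  have hne : r6 S l ≠ ⊥ := by
    intro h0
    have h1 := norm_r6 hb hS hla
    rw [h0, Ideal.absNorm_bot] at h1
    exact hl.ne_zero h1.symm
  have hmax : (r6 S l).IsMaximal := (r6_prime hb hS hl hla).isMaximal hne
  exact (hmax.eq_of_le hq.ne_top hle).symm

theorem cj_r6 (hb : B6 K a s) (hS : algebraMap (𝓞 K) K S = s) {τ : 𝓞 K ≃+* 𝓞 K}
    (hτ : τ S = -S) (d : ℕ) : cj τ (r6 S d) = r6 S d := by
  unfold cj r6
  rw [Ideal.map_span, Set.image_pair]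
  have e1 : ((τ : 𝓞 K →+* 𝓞 K) (d : 𝓞 K)) = (d : 𝓞 K) := map_natCast _ _
  have e2 : ((τ : 𝓞 K →+* 𝓞 K) S) = -S := hτ
  rw [e1, e2]
  apply le_antisymm
  · rw [Ideal.span_le]
    rintro x (rfl | rfl)
    · exact Ideal.subset_span (by simp)
    · exact Ideal.neg_mem_iff _ |>.2 (Ideal.subset_span (by simp))
  · rw [Ideal.span_le]
    rintro x (rfl | rfl)
    · exact Ideal.subset_span (by simp)
    · have h1 : -x ∈ Ideal.span {(d : 𝓞 K), -x} := Ideal.subset_span (by simp)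
      exact (Ideal.neg_mem_iff _).1 h1

end Pool.Agent.Work.MP_8efaaa_nt.K6
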