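import Mathlib
import Pool.Agent.Work.MP_8efaaa_nt.R.DVal
import Pool.Agent.Work.MP_8efaaa_nt.K6.Defs

/-!
# K6/CVl (M): two valuations of the same prime ideal

`V` is a valuation of `F` that belongs to the prime `L` (`VL`). For `x : F` there are `n d : 𝓞 F` with `x = n / d` and `n ∉ L` or `d ∉ L` (`F` is the fraction
field of the Dedekind domain `𝓞 F`: for `L ≠ ⊥` the localization at `L` is a valuation ring, e.g. `IsLocalization.AtPrime` with
`IsLocalization.AtPrime.isDiscreteValuationRing_of_dedekind_domain`, or use the valuation `HeightOneSpectrum.valuation`; for `L = ⊥` any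
representation with `d ≠ 0`). So `V x ≤ 1 ↔ d ∉ L` for such a representation etc.; the comparison follows. -/

set_option autoImplicit false

namespace Pool.Agent.Work.MP_8efaaa_nt.K6

open NumberField Pool.Agent.Work.MP_8efaaa_nt.R

variable {F : Type*} [Field F] [NumberField F] {L : Ideal (𝓞 F)}

theorem exists_frac (hL : L.IsPrime) (x : F) (hx : x ≠ 0) : ∃ n d : 𝓞 F, d ≠ 0 ∧
    x * algebraMap (𝓞 F) F d = algebraMap (𝓞 F) F n ∧ (n ∉ L ∨ d ∉ L) := by
  obtain ⟨n0, d0, hd0, hq⟩ := IsFractionRing.div_surjective (A := 𝓞 F) x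
  have hd : d0 ≠ 0 := nonZeroDivisors.ne_zero hd0
  have hd' : algebraMap (𝓞 F) F d0 ≠ 0 := by
    simpa using hd
  have hx0 : x * algebraMap (𝓞 F) F d0 = algebraMap (𝓞 F) F n0 := by
    rw [← hq, div_mul_cancel₀ _ hd']
  set I : Ideal (𝓞 F) := Ideal.span {n0, d0} with hI
  have hnI : n0 ∈ I := Ideal.subset_span (by simp)
  have hdI : d0 ∈ I := Ideal.subset_span (by simp)
  have hI0 : I ≠ 0 := by
    intro h
    rw [h] at hdI
    exact hd (by simpa using hdI)
  have hlt : I * L < I := by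
    refine lt_of_le_of_ne Ideal.mul_le_left fun h => hL.ne_top ?_
    have h1 : I * L = I * 1 := by rw [h, mul_one]
    have h2 := mul_left_cancel₀ hI0 h1
    rw [h2, Ideal.one_eq_top]
  obtain ⟨c, hcI, hcL⟩ := SetLike.exists_of_lt hlt
  have hc0 : c ≠ 0 := fun h => hcL (h ▸ Ideal.zero_mem _)
  obtain ⟨J, hJ⟩ : I ∣ Ideal.span {c} := by
    rw [Ideal.dvd_iff_le, Ideal.span_singleton_le_iff_mem]
    exact hcI
  have hJL : ¬ J ≤ L := by
    intro h
    apply hcL
    have h1 : c ∈ Ideal.span {c} := Ideal.mem_span_singleton_self c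
    rw [hJ] at h1
    exact Ideal.mul_mono_right h h1
  obtain ⟨j, hjJ, hjL⟩ := SetLike.not_le_iff_exists.1 hJL
  have hm : ∀ y ∈ I, ∃ z, j * y = c * z := by
    intro y hy
    have h1 : y * j ∈ I * J := Ideal.mul_mem_mul hy hjJ
    rw [← hJ, Ideal.mem_span_singleton] at h1
    obtain ⟨z, hz⟩ := h1
    exact ⟨z, by rw [mul_comm, hz]⟩
  obtain ⟨n, hn⟩ := hm n0 hnI
  obtain ⟨d, hdd⟩ := hm d0 hdI
  have hj0 : j ≠ 0 := fun h => hjL (h ▸ Ideal.zero_mem _)
  refine ⟨n, d, ?_, ?_, ?_⟩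
  · rintro rfl
    rw [mul_zero] at hdd
    exact mul_ne_zero hj0 hd hdd
  · have hc' : algebraMap (𝓞 F) F c ≠ 0 := by simpa using hc0
    apply mul_left_cancel₀ hc'
    calc algebraMap (𝓞 F) F c * (x * algebraMap (𝓞 F) F d)
        = x * algebraMap (𝓞 F) F (c * d) := by rw [map_mul]; ring
      _ = x * algebraMap (𝓞 F) F (j * d0) := by rw [hdd]
      _ = algebraMap (𝓞 F) F j * (x * algebraMap (𝓞 F) F d0) := by rw [map_mul]; ring
      _ = algebraMap (𝓞 F) F (j * n0) := by rw [hx0, map_mul]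
      _ = algebraMap (𝓞 F) F c * algebraMap (𝓞 F) F n := by rw [hn, map_mul]
  · by_contra hcon
    push Not at hcon
    obtain ⟨h1, h2⟩ := hcon
    -- j I ≤ c L
    have h3 : ∀ y ∈ I, ∃ z ∈ L, j * y = c * z := by
      intro y hy
      rw [hI, Ideal.mem_span_pair] at hy
      obtain ⟨a, b, rfl⟩ := hy
      refine ⟨a * n + b * d, L.add_mem (L.mul_mem_left _ h1) (L.mul_mem_left _ h2), ?_⟩
      calc j * (a * n0 + b * d0) = a * (j * n0) + b * (j * d0) := by ring
        _ = a * (c * n) + b * (c * d) := by rw [hn, hdd]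
        _ = c * (a * n + b * d) := by ring
    obtain ⟨z, hz, hjz⟩ := h3 c hcI
    apply hjL
    have h4 : c * j = c * z := by rw [← hjz, mul_comm]
    rw [mul_left_cancel₀ hc0 h4]
    exact hz

private theorem vl_aux {Γ : Type*} [LinearOrderedCommGroupWithZero Γ] {V : Valuation F Γ}
    (h : VL V L) {x : F} {n d : 𝓞 F} (_hd : d ≠ 0)
    (hxd : x * algebraMap (𝓞 F) F d = algebraMap (𝓞 F) F n) (hor : n ∉ L ∨ d ∉ L) :
    (V x ≤ 1 ↔ d ∉ L) ∧ (V x < 1 ↔ d ∉ L ∧ n ∈ L) := by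
  have hm : V x * V (algebraMap (𝓞 F) F d) = V (algebraMap (𝓞 F) F n) := by
    rw [← map_mul, hxd]
  have hone : ∀ y : 𝓞 F, y ∉ L → V (algebraMap (𝓞 F) F y) = 1 := fun y hy =>
    le_antisymm (h.int y) (not_lt.1 fun hh => hy ((h.lt y).1 hh))
  by_cases hdL : d ∈ L
  · have hnL : n ∉ L := hor.resolve_right (not_not.2 hdL)
    rw [hone n hnL] at hm
    have hlt := (h.lt d).2 hdL
    have hx1 : ¬ V x ≤ 1 := by
      intro hx
      have : V x * V (algebraMap (𝓞 F) F d) < 1 := by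
        calc V x * V (algebraMap (𝓞 F) F d) ≤ 1 * V (algebraMap (𝓞 F) F d) :=
              mul_le_mul_left hx _
          _ = V (algebraMap (𝓞 F) F d) := one_mul _
          _ < 1 := hlt
      rw [hm] at this
      exact lt_irrefl _ this
    exact ⟨⟨fun hx => absurd hx hx1, fun hh => absurd hdL hh⟩,
      ⟨fun hx => absurd hx.le hx1, fun hh => absurd hdL hh.1⟩⟩
  · rw [hone d hdL, mul_one] at hm
    rw [hm]
    exact ⟨⟨fun _ => hdL, fun _ => h.int n⟩, ⟨fun hh => ⟨hdL, (h.lt n).1 hh⟩, fun hh => (h.lt n).2 hh.2⟩⟩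

theorem vl_comp {Γ Γ' : Type*} [LinearOrderedCommGroupWithZero Γ]
    [LinearOrderedCommGroupWithZero Γ'] {V : Valuation F Γ} {V' : Valuation F Γ'} (h : VL V L)
    (h' : VL V' L) (x : F) : (V x ≤ 1 ↔ V' x ≤ 1) ∧ (V x < 1 ↔ V' x < 1) := by
  rcases eq_or_ne x 0 with rfl | hx
  · simp
  obtain ⟨n, d, hd, hxd, hor⟩ := exists_frac h.prime x hx
  obtain ⟨h1, h2⟩ := vl_aux h hd hxd hor
  obtain ⟨h3, h4⟩ := vl_aux h' hd hxd hor
  exact ⟨h1.trans h3.symm, h2.trans h4.symm⟩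

end Pool.Agent.Work.MP_8efaaa_nt.K6
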