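import Mathlib
import Pool.Agent.Work.MP_8efaaa_nt.N5.DFix
import Pool.Agent.Work.MP_8efaaa_nt.N5.EIo
import Pool.Agent.Work.MP_8efaaa_nt.K6.ARm

/-!
# K6/DAc (M): the action of the inertia element on the values

Model `N5/EIo.lean`, `N5/DFix.lean`. `ι κ` fixes `s`, so it is the image of a `K`-automorphism of `F`; by `act` it acts as an ideal `b` prime to `2 a`. `ι = (ι κ) κ⁻¹`, and
`κ⁻¹ = κ` on the values up to ... : from `cc`, `κ (z c) = z (cj τ c)`, so `ι (z (cj τ c)) = ι (κ (z c)) = z (b * c)`; with `cj τ c` for `c` this is the claim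
(`norm_cj6`: `cj τ (cj τ c) = c`, and `OddI (cj τ c)`). `ι ζ = ζ` (`inert_zeta`), `κ ζ = ζ ^ 7`: `ζ ^ 7 = ι κ ζ = ζ ^ absNorm b`, so `absNorm b = 7 (mod 8)`. `ι (w d) = w d` if
`l ∤ d` (`inert_sq`), and `ι (w d) = - w d` if `l ∣ d`: `w (d) w (a / d) = ± w a = ± ζ ^ 2 s` up to sign: `(w d w (a / d)) ^ 2 = a = (ζ ^ 2 s) ^ 2`, `ι` fixes `ζ` and `w (a / d)`
(`l ∤ a / d`, `a` squarefree) and changes the sign of `s`. -/

set_option autoImplicit false

namespace Pool.Agent.Work.MP_8efaaa_nt.K6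

open NumberField Pool.Agent.Work.MP_8efaaa_nt.R Pool.Agent.Work.MP_8efaaa_nt.N5

private theorem norm_mod8 {F : Type*} [Field F] [CharZero F] {ζ : F} (hz : ζ ^ 4 = -1) {n : ℕ}
    (ho : n % 2 = 1) (hbz : ζ ^ 7 = ζ ^ (n % 8)) : n % 8 = 7 := by
  have hζ0 : ζ ≠ 0 := by
    rintro rfl
    rw [zero_pow (by norm_num)] at hz
    norm_num at hz
  have hr : n % 8 = 1 ∨ n % 8 = 3 ∨ n % 8 = 5 ∨ n % 8 = 7 := by omega
  have hne : ζ ^ 2 ≠ 1 ∧ ζ ^ 2 ≠ -1 := by
    constructor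
    · intro hc
      have : ζ ^ 4 = 1 := by
        calc ζ ^ 4 = (ζ ^ 2) ^ 2 := by ring
          _ = 1 := by rw [hc, one_pow]
      rw [this] at hz
      norm_num at hz
    · intro hc
      have : ζ ^ 4 = 1 := by
        calc ζ ^ 4 = (ζ ^ 2) ^ 2 := by ring
          _ = 1 := by rw [hc]; ring
      rw [this] at hz
      norm_num at hz
  rcases hr with hr | hr | hr | hr
  · exfalso
    rw [hr] at hbz
    have h5 : ζ * (ζ ^ 2 + 1) = 0 := by linear_combination ζ ^ 3 * hz - hbz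
    rcases mul_eq_zero.mp h5 with h6 | h6
    · exact hζ0 h6
    · exact hne.2 (by linear_combination h6)
  · exfalso
    rw [hr] at hbz
    have h5 : 2 * ζ ^ 3 = 0 := by linear_combination ζ ^ 3 * hz - hbz
    rcases mul_eq_zero.mp h5 with h6 | h6
    · norm_num at h6
    · exact hζ0 (pow_eq_zero_iff (by norm_num) |>.mp h6)
  · exfalso
    rw [hr] at hbz
    have h5 : ζ * (ζ ^ 2 - 1) = 0 := by linear_combination ζ ^ 3 * hz - ζ * hz - hbz
    rcases mul_eq_zero.mp h5 with h6 | h6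
    · exact hζ0 h6
    · exact hne.1 (by linear_combination h6)
  · exact hr

private theorem notMem_of_not_dvd {F : Type*} [Field F] [NumberField F] {L : Ideal (𝓞 F)}
    (hL : L.IsPrime) {l d : ℕ} (hl : l.Prime) (hlL : (l : 𝓞 F) ∈ L) (hld : ¬ l ∣ d) :
    ((d : ℤ) : 𝓞 F) ∉ L := by
  intro hc
  have hcop : Nat.Coprime l d := hl.coprime_iff_not_dvd.2 hld
  have h1 := Nat.gcd_eq_gcd_ab l d
  rw [hcop] at h1
  have h2 : (1 : 𝓞 F) = (l : 𝓞 F) * ((Nat.gcdA l d : ℤ) : 𝓞 F) +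
      ((d : ℤ) : 𝓞 F) * ((Nat.gcdB l d : ℤ) : 𝓞 F) := by
    have := congrArg (fun x : ℤ => (x : 𝓞 F)) h1
    push_cast at this ⊢
    exact this
  have h3 : (1 : 𝓞 F) ∈ L := by
    rw [h2]
    exact L.add_mem (L.mul_mem_right _ hlL) (L.mul_mem_right _ hc)
  exact hL.ne_top ((Ideal.eq_top_iff_one L).2 h3)

private theorem jac_of_mul {F : Type*} [Field F] [CharZero F] {x : F} (hx : x ≠ 0) {j e : ℤ}
    (h : (e : F) * x = (j : F) * x) : j = e := by
  have h1 : (e : F) = (j : F) := mul_right_cancel₀ hx h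
  exact_mod_cast h1.symm

theorem inert_act6 {K : Type*} {F : Type*} [Field K] [NumberField K] [Field F] [NumberField F]
    [Algebra K F] {a : ℕ} {s : K} (hb : B6 K a s) {S : 𝓞 K} (hS : algebraMap (𝓞 K) K S = s)
    {τ : 𝓞 K ≃+* 𝓞 K} (hτ : τ S = -S) {ζ : F} {w : ℕ → F} {z k v : Ideal (𝓞 K) → F}
    {κ : F ≃ₐ[ℚ] F} (h : UD6 K F a s S τ ζ w z k v κ) {l : ℕ} (hl : l.Prime) (hl2 : l ≠ 2)
    (hla : l ∣ a) {L : Ideal (𝓞 F)} (hlL : (l : 𝓞 F) ∈ L) {ι : F ≃ₐ[ℚ] F} (hin : Inert ι L)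
    (hι : ι (algebraMap K F s) = -algebraMap K F s) :
    ∃ b : Ideal (𝓞 K), Ideal.absNorm b % 8 = 7 ∧ Nat.Coprime (Ideal.absNorm b) a ∧
      (∀ d, d ∣ a → ¬ l ∣ d → jacobiSym d (Ideal.absNorm b) = 1) ∧
      (∀ d, d ∣ a → l ∣ d → jacobiSym d (Ideal.absNorm b) = -1) ∧
      ∀ c, OddI c → ι (z c) = z (b * cj τ c) ∧ ι (k c) = k (b * cj τ c) ∧
        ι (v c) = v (b * cj τ c) := by
  have hz := h.z8
  have h2 : ι ζ = ζ := inert_zeta hin hz
  have hfix : ∀ x : K, ι (κ (algebraMap K F x)) = algebraMap K F x := by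
    have hint : ∀ y : 𝓞 K, ι (κ (algebraMap K F (algebraMap (𝓞 K) K y))) =
        algebraMap K F (algebraMap (𝓞 K) K y) := by
      intro y
      obtain ⟨m, n, hmn⟩ := coords6 hb y
      have e1 : algebraMap K F ((m : K) + n * s) = (m : F) + n * algebraMap K F s := by
        rw [map_add, map_mul, map_intCast, map_intCast]
      rw [hmn, e1, map_add, map_mul, h.cs, map_intCast, map_intCast, map_add, map_mul, map_neg, hι,
        map_intCast, map_intCast, neg_neg]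
    intro x
    obtain ⟨y, t, -, hyt⟩ := IsFractionRing.div_surjective (A := 𝓞 K) x
    rw [← hyt, map_div₀, map_div₀, map_div₀, hint, hint]
  let σ : F ≃ₐ[K] F := AlgEquiv.ofRingEquiv (f := (κ.trans ι).toRingEquiv) hfix
  have hσ : ∀ x, σ x = ι (κ x) := fun x => rfl
  obtain ⟨b, hbo, hbc, hbA⟩ := h.act σ
  have h8 : Ideal.absNorm b % 8 = 7 := by
    have hbz := hbA.z8
    rw [hσ, h.cz, map_pow, h2, pow_mod_zeta hz (Ideal.absNorm b)] at hbz
    exact norm_mod8 hz (Nat.odd_iff.1 hbo) hbz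
  have ha0 : a ≠ 0 := hb.sf.ne_zero
  have hw0 : ∀ d, d ∣ a → w d ≠ 0 := by
    intro d hd h0
    have h3 := h.hw d hd
    rw [h0, zero_pow two_ne_zero] at h3
    have hd0 : d ≠ 0 := by
      rintro rfl
      exact ha0 (zero_dvd_iff.1 hd)
    exact (Nat.cast_ne_zero.mpr hd0) h3.symm
  have hcop : ∀ d, d ∣ a → Nat.Coprime d (Ideal.absNorm b) := fun d hd =>
    (Nat.Coprime.coprime_dvd_right hd hbc).symm
  have hs' : (algebraMap K F s) ^ 2 = -(a : F) := by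
    rw [← map_pow, hb.sq, map_neg, map_natCast]
  have hcj : ∀ c, OddI c → OddI (cj τ c) := by
    intro c hc
    have := (norm_cj6 hb hS hτ c).1
    unfold OddI at hc ⊢
    rw [this]
    exact hc
  refine ⟨b, h8, hbc, fun d hd hld => ?_, fun d hd hld => ?_, fun c hc => ?_⟩
  · have h4 := hbA.sq d hd (hcop d hd)
    have h5 : ι (w d) = w d := inert_sq hin (n := (d : ℤ)) (by rw [h.hw d hd]; push_cast; rfl)
      (notMem_of_not_dvd hin.prime hl hlL hld)
    rw [hσ, h.cw d hd, h5] at h4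
    exact jac_of_mul (hw0 d hd) (e := 1) (by push_cast; rw [one_mul]; exact h4)
  · have h4 := hbA.sq d hd (hcop d hd)
    have h5 : ι (w d) = -w d := inert_w hin hz hb.sf hs' (h.hw d hd) hd hl hld hlL hι
    rw [hσ, h.cw d hd, h5] at h4
    exact jac_of_mul (hw0 d hd) (e := -1) (by push_cast; rw [neg_one_mul]; exact h4)
  · have e1 := h.cc (cj τ c) (hcj c hc)
    rw [(norm_cj6 hb hS hτ c).2.2] at e1
    have e2 := hbA.act (cj τ c) (hcj c hc)
    rw [hσ, hσ, hσ, e1.1, e1.2.1, e1.2.2] at e2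
    exact e2

end Pool.Agent.Work.MP_8efaaa_nt.K6
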