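import Mathlib
import Pool.Agent.Work.MP_8efaaa_nt.N5.DIn
import Pool.Agent.Work.MP_8efaaa_nt.K6.ARm

/-!
# K6/DIn (M): an element of the inertia group at a ramified prime

Copy of `N5/DIn.lean` (its statement with `Base5`); here additionally the prime `L` is prescribed: every prime ideal `L` of `𝓞 F` that contains the odd prime `l ∣ a`
has an element `ι` of its inertia group with `ι s = -s`. -/

set_option autoImplicit false

namespace Pool.Agent.Work.MP_8efaaa_nt.K6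

open NumberField Pool.Agent.Work.MP_8efaaa_nt.R Pool.Agent.Work.MP_8efaaa_nt.N5

private theorem din_sq6 {K : Type*} [Field K] [NumberField K] {a : ℕ} {S : 𝓞 K}
    (hqs : S * S = -(a : 𝓞 K)) (hqf : Squarefree a) {l : ℕ} (_hl : l.Prime) (hla : l ∣ a)
    {P : Ideal (𝓞 K)} (hP : P.IsPrime) (hlP : (l : 𝓞 K) ∈ P) :
    Ideal.map (algebraMap ℤ (𝓞 K)) (Ideal.span {(l : ℤ)}) ≤ P ^ 2 := by
  have haP : (a : 𝓞 K) ∈ P := by
    obtain ⟨c, rfl⟩ := hla
    push_cast
    exact P.mul_mem_right _ hlP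
  have hSP : S ∈ P := by
    have h1 : S * S ∈ P := by
      rw [hqs]
      exact P.neg_mem haP
    rcases hP.mem_or_mem h1 with h | h <;> exact h
  obtain ⟨c, hc⟩ := hla
  have hcop : IsCoprime (l : ℤ) (c : ℤ) := by
    rw [Nat.isCoprime_iff_coprime]
    have h1 : Squarefree (l * c) := hc ▸ hqf
    exact (Nat.squarefree_mul_iff.1 h1).1
  obtain ⟨u, v, huv⟩ := hcop
  have huv' : (u : 𝓞 K) * l + v * c = 1 := by
    exact_mod_cast congrArg (Int.cast : ℤ → 𝓞 K) huv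
  have hl2 : (l : 𝓞 K) ∈ P ^ 2 := by
    have h1 : (l : 𝓞 K) = u * (l * l) + (-v) * (S * S) := by
      have h2 : S * S = -((l : 𝓞 K) * c) := by
        rw [hqs, hc]
        push_cast
        ring
      rw [h2]
      linear_combination (-(l : 𝓞 K)) * huv'
    rw [h1, pow_two]
    exact Ideal.add_mem _ (Ideal.mul_mem_left _ _ (Ideal.mul_mem_mul hlP hlP))
      (Ideal.mul_mem_left _ _ (Ideal.mul_mem_mul hSP hSP))
  rw [Ideal.map_span, Set.image_singleton, Ideal.span_singleton_le_iff_mem]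
  simpa using hl2

theorem exists_inert6 {K : Type*} {F : Type*} [Field K] [NumberField K] [Field F] [NumberField F]
    [Algebra K F] [IsGalois ℚ F] {a : ℕ} {s : K} (hb : B6 K a s) {l : ℕ} (hl : l.Prime)
    (hl2 : l ≠ 2) (hla : l ∣ a) {L : Ideal (𝓞 F)} (hL : L.IsPrime) (hlL : (l : 𝓞 F) ∈ L) :
    ∃ ι : F ≃ₐ[ℚ] F, Inert ι L ∧ ι (algebraMap K F s) = -algebraMap K F s := by
  classical
  have hKF : IsGalois K F := IsGalois.tower_top_of_isGalois ℚ K F
  have hpos : 0 < a := Nat.pos_of_ne_zero hb.sf.ne_zero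
  have hint : IsIntegral ℤ s := by
    refine IsIntegral.of_pow (n := 2) (by norm_num) ?_
    rw [hb.sq]
    have h1 : (-(a : K)) = algebraMap ℤ K (-(a : ℤ)) := by simp
    rw [h1]
    exact isIntegral_algebraMap
  obtain ⟨S, hS⟩ : ∃ S : 𝓞 K, algebraMap (𝓞 K) K S = s := ⟨⟨s, hint⟩, rfl⟩
  have hqs : S * S = -(a : 𝓞 K) := by
    apply NumberField.RingOfIntegers.coe_injective
    rw [map_mul, map_neg, map_natCast, hS, ← hb.sq, pow_two]
  have hlZ : Prime (l : ℤ) := Nat.prime_iff_prime_int.1 hl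
  have hpZ : (Ideal.span {(l : ℤ)}).IsPrime := (Ideal.span_singleton_prime hlZ.ne_zero).2 hlZ
  have hpZ0 : (Ideal.span {(l : ℤ)}) ≠ ⊥ := by
    rw [Ne, Ideal.span_singleton_eq_bot]
    exact hlZ.ne_zero
  have hpmax : (Ideal.span {(l : ℤ)}).IsMaximal := hpZ.isMaximal hpZ0
  have hLO : L.LiesOver (Ideal.span {(l : ℤ)}) := by
    constructor
    apply hpmax.eq_of_le
    · have : (L.under ℤ).IsPrime := inferInstance
      exact this.ne_top
    · rw [Ideal.span_singleton_le_iff_mem, Ideal.mem_comap]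
      simpa using hlL
  have hLbot : L ≠ ⊥ := by
    rintro rfl
    rw [Ideal.mem_bot] at hlL
    exact hl.ne_zero (by exact_mod_cast hlL)
  have hodd : l % 2 = 1 := hl.eq_two_or_odd.resolve_left hl2
  have hL2' : (2 : 𝓞 F) ∉ L := by
    intro h2
    apply hL.ne_top
    rw [Ideal.eq_top_iff_one]
    have h3 : (1 : 𝓞 F) = (l : 𝓞 F) - ((l / 2 : ℕ) : 𝓞 F) * 2 := by
      have h4 : l = (l / 2) * 2 + 1 := by omega
      have h5 : (l : 𝓞 F) = ((l / 2 : ℕ) : 𝓞 F) * 2 + 1 := by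
        exact_mod_cast congrArg (Nat.cast : ℕ → 𝓞 F) h4
      rw [h5]
      ring
    rw [h3]
    exact L.sub_mem hlL (L.mul_mem_left _ h2)
  by_contra hno
  have hfix : ∀ σ ∈ L.inertia (F ≃ₐ[ℚ] F), σ (algebraMap K F s) = algebraMap K F s := by
    intro σ hσ
    have hsq : (σ (algebraMap K F s)) ^ 2 = (algebraMap K F s) ^ 2 := by
      rw [← map_pow, ← map_pow, hb.sq]
      simp
    rcases sq_eq_sq_iff_eq_or_eq_neg.mp hsq with h | h
    · exact h
    · exfalso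
      apply hno
      refine ⟨σ, ⟨hL, hLbot, hL2', fun x => ⟨σ • x - x, hσ x, ?_⟩⟩, h⟩
      rw [map_sub]
      rfl
  have hcomm : ∀ σ ∈ L.inertia (F ≃ₐ[ℚ] F), ∀ k : K,
      σ (algebraMap K F k) = algebraMap K F k := by
    intro σ hσ k
    obtain ⟨x, y, rfl⟩ :=
      Pool.Agent.Work.MP_787500_nt.Quad.exists_coords hb.dim hb.sq hpos k
    rw [map_add, map_mul, map_add, map_mul, hfix σ hσ]
    simp
  let toK : L.inertia (F ≃ₐ[ℚ] F) → L.inertia (F ≃ₐ[K] F) := fun σ =>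
    ⟨AlgEquiv.ofRingEquiv (f := (σ.1 : F ≃ₐ[ℚ] F).toRingEquiv) (hcomm σ.1 σ.2), fun x => by
      have h1 := σ.2 x
      exact h1⟩
  have hinj : Function.Injective toK := by
    intro σ τ h
    apply Subtype.ext
    apply AlgEquiv.ext
    intro x
    have h1 := congrArg (fun g => (g : F ≃ₐ[K] F) x) (congrArg Subtype.val h)
    exact h1
  have hle : Nat.card (L.inertia (F ≃ₐ[ℚ] F)) ≤ Nat.card (L.inertia (F ≃ₐ[K] F)) :=
    Nat.card_le_card_of_injective toK hinj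
  have hP : (L.under (𝓞 K)).IsPrime := inferInstance
  have hlP : (l : 𝓞 K) ∈ L.under (𝓞 K) := by
    rw [Ideal.mem_comap]
    simpa using hlL
  have hPo : (L.under (𝓞 K)).LiesOver (Ideal.span {(l : ℤ)}) := by
    constructor
    rw [hLO.over, Ideal.under_under]
  have e1 : Nat.card (L.inertia (F ≃ₐ[ℚ] F)) = L.ramificationIdx ℤ := by
    rw [Ideal.card_inertia_eq_ramificationIdxIn (Ideal.span {(l : ℤ)}) L,
      Ideal.ramificationIdxIn_eq_ramificationIdx (Ideal.span {(l : ℤ)}) L (F ≃ₐ[ℚ] F)]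
  have e2 : Nat.card (L.inertia (F ≃ₐ[K] F)) = L.ramificationIdx (𝓞 K) := by
    rw [Ideal.card_inertia_eq_ramificationIdxIn (L.under (𝓞 K)) L,
      Ideal.ramificationIdxIn_eq_ramificationIdx (L.under (𝓞 K)) L (F ≃ₐ[K] F)]
  have e3 : L.ramificationIdx ℤ = (L.under (𝓞 K)).ramificationIdx ℤ * L.ramificationIdx (𝓞 K) :=
    Ideal.ramificationIdx_tower _ _
  have e4 : (L.under (𝓞 K)).ramificationIdx ℤ ≠ 1 := by
    rw [← Ideal.ramificationIdx'_eq_ramificationIdx (Ideal.span {(l : ℤ)}) (L.under (𝓞 K)) hpZ0]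
    rw [Ideal.ramificationIdx'_ne_one_iff]
    · exact din_sq6 hqs hb.sf hl hla hP hlP
    · exact (din_sq6 hqs hb.sf hl hla hP hlP).trans (Ideal.pow_le_self two_ne_zero)
  have e5 : 0 < (L.under (𝓞 K)).ramificationIdx ℤ := Ideal.ramificationIdx_pos _ _
  have e6 : 0 < L.ramificationIdx (𝓞 K) := Ideal.ramificationIdx_pos _ _
  rw [e1, e2, e3] at hle
  have e7 : 2 ≤ (L.under (𝓞 K)).ramificationIdx ℤ := by omega
  nlinarith

theorem exists_prime6 {F : Type*} [Field F] [NumberField F] {l : ℕ} (hl : l.Prime) :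
    ∃ L : Ideal (𝓞 F), L.IsPrime ∧ (l : 𝓞 F) ∈ L := by
  have hlZ : Prime (l : ℤ) := Nat.prime_iff_prime_int.1 hl
  have hpZ : (Ideal.span {(l : ℤ)}).IsPrime := (Ideal.span_singleton_prime hlZ.ne_zero).2 hlZ
  obtain ⟨⟨L, hL1, hL2⟩⟩ :=
    (inferInstance : Nonempty ((Ideal.span {(l : ℤ)}).primesOver (𝓞 F)))
  refine ⟨L, hL1, ?_⟩
  have h1 : (l : ℤ) ∈ Ideal.span {(l : ℤ)} := Ideal.mem_span_singleton_self _
  rw [hL2.over, Ideal.mem_comap] at h1
  simpa using h1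

end Pool.Agent.Work.MP_8efaaa_nt.K6
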