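import Mathlib
import Pool.Agent.Work.MP_8efaaa_nt.N5.BCjA
import Pool.Agent.Work.MP_8efaaa_nt.K6.ALa

/-!
# K6/ACj (S-M): complex conjugation

Model `N5/BCjB.lean`. `conj (φ s) = -φ s`; the conjugate of the lattice `M6 s c` is `M6 s (cj τ c)`, of the point `w6 s` the point `-w6 s`; `f_odd` with `d = -1`
(`e8 (-1) = 1`) brings it back. Checked numerically. -/

set_option autoImplicit false

namespace Pool.Agent.Work.MP_8efaaa_nt.K6

open NumberField Pool.Agent.Work.CM Pool.Agent.Work.MP_8efaaa_nt.R Pool.Agent.Work.MP_8efaaa_nt.N5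
open scoped Pointwise

variable {K : Type*} [Field K] [NumberField K] [Algebra K ℂ] {a : ℕ} {s : K} {S : 𝓞 K}

theorem conj_s6 (hb : B6 K a s) :
    (starRingEnd ℂ) (algebraMap K ℂ s) = -algebraMap K ℂ s := by
  have ha : 0 < a := Nat.pos_of_ne_zero hb.sf.ne_zero
  obtain ⟨hre, -⟩ := Pool.Agent.Work.MP_787500_nt.Quad.emb_re_im hb.sq ha (algebraMap K ℂ)
  apply Complex.ext
  · rw [Complex.conj_re, Complex.neg_re, hre, neg_zero]
  · rw [Complex.conj_im, Complex.neg_im]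

/-- complex conjugation on the integers -/
private theorem conj_int6 (hb : B6 K a s) (hS : algebraMap (𝓞 K) K S = s) {τ : 𝓞 K ≃+* 𝓞 K}
    (hτ : τ S = -S) (t : 𝓞 K) :
    (starRingEnd ℂ) (algebraMap K ℂ (algebraMap (𝓞 K) K t)) =
      algebraMap K ℂ (algebraMap (𝓞 K) K (τ t)) := by
  obtain ⟨S', hS', -, hc⟩ := exists_S6 hb
  have hSS : S' = S := by
    apply FaithfulSMul.algebraMap_injective (𝓞 K) K
    rw [hS, hS']
  subst hSS
  obtain ⟨p, q, rfl⟩ := hc t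
  simp only [map_add, map_mul, map_intCast, hτ, map_neg, hS, conj_s6 hb]

/-- complex conjugation on the inverse ideals -/
private theorem conj_iv6 (hb : B6 K a s) (hS : algebraMap (𝓞 K) K S = s) {τ : 𝓞 K ≃+* 𝓞 K}
    (hτ : τ S = -S) (c : Ideal (𝓞 K)) {z : ℂ} (hz : z ∈ iv c) :
    (starRingEnd ℂ) z ∈ iv (cj τ c) := by
  obtain ⟨x, hx, rfl⟩ := hz
  obtain ⟨u, v, hv, rfl⟩ := IsFractionRing.div_surjective (A := 𝓞 K) x
  have hinj : Function.Injective (algebraMap K ℂ) := (algebraMap K ℂ).injective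
  have hx' : (starRingEnd ℂ) (algebraMap K ℂ (algebraMap (𝓞 K) K u / algebraMap (𝓞 K) K v)) =
      algebraMap K ℂ (algebraMap (𝓞 K) K (τ u) / algebraMap (𝓞 K) K (τ v)) := by
    rw [map_div₀, map_div₀, map_div₀, conj_int6 hb hS hτ, conj_int6 hb hS hτ]
  refine ⟨algebraMap (𝓞 K) K (τ u) / algebraMap (𝓞 K) K (τ v), ?_, hx'.symm⟩
  intro y' hy'
  obtain ⟨y, hy, rfl⟩ := (Ideal.mem_map_of_equiv τ y').1 hy'
  obtain ⟨t, ht⟩ := hx y hy
  refine ⟨τ t, hinj ?_⟩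
  rw [← conj_int6 hb hS hτ, ht, map_mul, map_mul, hx', conj_int6 hb hS hτ, map_mul]

private theorem cjL_le6 (hb : B6 K a s) (hS : algebraMap (𝓞 K) K S = s) {τ : 𝓞 K ≃+* 𝓞 K}
    (hτ : τ S = -S) (c : Ideal (𝓞 K)) : cjL (M6 s c) ≤ M6 s (cj τ c) := by
  unfold M6
  rw [cjL, Submodule.map_sup]
  refine sup_le_sup ?_ ?_
  · unfold La6
    rw [Submodule.map_span_le]
    intro m hm
    rcases hm with rfl | hm
    · have h1 : ((starRingEnd ℂ : ℂ →+* ℂ).toAddMonoidHom.toIntLinearMap)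
          ((2 : ℂ) ^ 3 * (algebraMap K ℂ s / 2)) = -((2 : ℂ) ^ 3 * (algebraMap K ℂ s / 2)) := by
        show (starRingEnd ℂ) ((2 : ℂ) ^ 3 * (algebraMap K ℂ s / 2)) = _
        rw [map_mul, map_pow, map_div₀, map_ofNat, conj_s6 hb]
        ring
      rw [h1]
      exact Submodule.neg_mem _ (Submodule.subset_span (by simp))
    · rw [Set.mem_singleton_iff] at hm
      subst hm
      have h1 : ((starRingEnd ℂ : ℂ →+* ℂ).toAddMonoidHom.toIntLinearMap) (1 : ℂ) = 1 := by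
        show (starRingEnd ℂ) (1 : ℂ) = 1
        exact map_one _
      rw [h1]
      exact Submodule.subset_span (by simp)
  · rintro _ ⟨m, hm, rfl⟩
    obtain ⟨x, hx, rfl⟩ := (Submodule.mem_smul_pointwise_iff_exists _ _ _).1 hm
    refine (Submodule.mem_smul_pointwise_iff_exists _ _ _).2
      ⟨(starRingEnd ℂ) x, conj_iv6 hb hS hτ c hx, ?_⟩
    show (8 : ℂ) • (starRingEnd ℂ) x = (starRingEnd ℂ) ((8 : ℂ) • x)
    rw [smul_eq_mul, smul_eq_mul, map_mul, map_ofNat]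

private theorem cjL_eq6 (hb : B6 K a s) (hS : algebraMap (𝓞 K) K S = s) {τ : 𝓞 K ≃+* 𝓞 K}
    (hτ : τ S = -S) (c : Ideal (𝓞 K)) : cjL (M6 s c) = M6 s (cj τ c) := by
  refine le_antisymm (cjL_le6 hb hS hτ c) fun z hz => ?_
  have hτ' : τ.symm S = -S := by
    rw [RingEquiv.symm_apply_eq, map_neg, hτ, neg_neg]
  have h1 : (starRingEnd ℂ) z ∈ cjL (M6 s (cj τ c)) := by
    rw [mem_cjL, Complex.conj_conj]
    exact hz
  have h2 := cjL_le6 hb hS hτ' (cj τ c) h1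
  have h3 : cj τ.symm (cj τ c) = c := Ideal.map_of_equiv τ
  rw [h3] at h2
  rw [mem_cjL]
  exact h2

theorem conj_val6 (hb : B6 K a s) (hS : algebraMap (𝓞 K) K S = s) {τ : 𝓞 K ≃+* 𝓞 K}
    (hτ : τ S = -S) {c : Ideal (𝓞 K)} (hc : OddI c) :
    (starRingEnd ℂ) (zc s c) = zc s (cj τ c) ∧ (starRingEnd ℂ) (kc s c) = kc s (cj τ c) ∧
      (starRingEnd ℂ) (vc s c) = vc s (cj τ c) := by
  obtain ⟨h0, h1, h2, h3⟩ := conj_f (fr_M6 hb hc)
  rw [cjL_eq6 hb hS hτ c] at h0 h1 h2 h3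
  have hw : w6 s - ((-1 : ℤ) : ℂ) * (starRingEnd ℂ) (w6 s) ∈ M6 s (cj τ c) := by
    have h4 : w6 s - ((-1 : ℤ) : ℂ) * (starRingEnd ℂ) (w6 s) = 0 := by
      unfold w6
      rw [map_div₀, map_ofNat, conj_s6 hb]
      push_cast
      ring
    rw [h4]
    exact Submodule.zero_mem _
  obtain ⟨g1, g2, g3⟩ := f_odd h0 (d := -1) (by decide) hw
  have he : e8 (-1) = 1 := by decide
  rw [he, Int.cast_one, one_mul] at g1
  refine ⟨?_, ?_, ?_⟩
  · unfold zc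
    rw [h1, g1]
  · unfold kc
    rw [h2, g2]
  · unfold vc
    rw [h3, g3]

end Pool.Agent.Work.MP_8efaaa_nt.K6
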