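import Mathlib
import Pool.Agent.Work.MP_8efaaa_nt.R.CLatC
import Pool.Agent.Work.MP_8efaaa_nt.K6.ALa

/-!
# K6/ALb (M): multiplication by odd principal ideals

Copy of `R/CLatC.lean` (`Fr.smul`, `em` are general and are reused). In `order_eq6` the order `La6 s j = ℤ + 2 ^ (j - 1) s ℤ` (`j ≥ 1`), an odd element
`p + 2 ^ (j - 1) q s` has odd norm and is invertible modulo `8`. -/

set_option autoImplicit false

namespace Pool.Agent.Work.MP_8efaaa_nt.K6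

open NumberField Pool.Agent.Work.CM Pool.Agent.Work.MP_8efaaa_nt.R
open scoped Pointwise

variable {K : Type*} [Field K] [NumberField K] [Algebra K ℂ] {a : ℕ} {s : K}

private theorem em_ne6 {δ : 𝓞 K} (hδ : δ ≠ 0) : em δ ≠ 0 := by
  intro h
  apply hδ
  have h1 : algebraMap (𝓞 K) K δ = 0 := (map_eq_zero (algebraMap K ℂ)).1 h
  exact (FaithfulSMul.algebraMap_eq_zero_iff (𝓞 K) K).1 h1

theorem M6_span (s : K) {δ : 𝓞 K} (hδ : δ ≠ 0) (c : Ideal (𝓞 K)) :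
    M6 s (Ideal.span {δ} * c) = (em δ)⁻¹ • (em δ • La6 s 3 ⊔ (8 : ℂ) • iv c) := by
  have hd : em δ ≠ 0 := em_ne6 hδ
  have hiv : iv (Ideal.span {δ} * c) = (em δ)⁻¹ • iv c := by
    ext z
    rw [mem_iv_span hδ]
    constructor
    · intro h
      have h1 := (mem_smul_iff (L := iv c) (inv_ne_zero hd)).2 h
      rwa [← mul_assoc, inv_mul_cancel₀ hd, one_mul] at h1
    · intro h
      rw [← mem_smul_iff (L := iv c) (inv_ne_zero hd), ← mul_assoc, inv_mul_cancel₀ hd, one_mul]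
      exact h
  unfold M6
  rw [hiv, Submodule.smul_sup', inv_smul_smul₀ hd, smul_comm]

theorem vals_span6 (hb : B6 K a s) {c : Ideal (𝓞 K)} (hc : OddI c) {δ : 𝓞 K}
    (hδ : OddI (Ideal.span {δ})) :
    Fr (em δ • La6 s 3 ⊔ (8 : ℂ) • iv c) (em δ * w6 s) ∧
    zc s (Ideal.span {δ} * c) = fz (em δ • La6 s 3 ⊔ (8 : ℂ) • iv c) (em δ * w6 s) ∧
    kc s (Ideal.span {δ} * c) = fk (em δ • La6 s 3 ⊔ (8 : ℂ) • iv c) (em δ * w6 s) ∧
    vc s (Ideal.span {δ} * c) = fv (em δ • La6 s 3 ⊔ (8 : ℂ) • iv c) (em δ * w6 s) := by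
  have hδ0 : δ ≠ 0 := by
    rintro rfl
    unfold OddI at hδ
    rw [Ideal.span_singleton_eq_bot.2 rfl, Ideal.absNorm_bot] at hδ
    exact absurd hδ (by decide)
  have hd : em δ ≠ 0 := em_ne6 hδ0
  have h1 : Fr (M6 s (Ideal.span {δ} * c)) (w6 s) := fr_M6 hb ((oddI_mul _ _).2 ⟨hδ, hc⟩)
  have h2 := h1.smul hd
  have h3 := f_smul h1 hd
  have h4 : em δ • M6 s (Ideal.span {δ} * c) = em δ • La6 s 3 ⊔ (8 : ℂ) • iv c := by
    rw [M6_span s hδ0, smul_inv_smul₀ hd]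
  rw [h4] at h2 h3
  exact ⟨h2, h3.1.symm, h3.2.1.symm, h3.2.2.symm⟩

private theorem mem_La6' (s : K) {j : ℕ} (hj : 1 ≤ j) {z : ℂ} : z ∈ La6 s j ↔
    ∃ m n : ℤ, z = m * (2 ^ (j - 1) * algebraMap K ℂ s) + n := by
  obtain ⟨i, rfl⟩ : ∃ i, j = i + 1 := ⟨j - 1, by omega⟩
  rw [Nat.add_sub_cancel]
  unfold La6
  rw [Submodule.mem_span_pair]
  constructor
  · rintro ⟨m, n, h⟩
    refine ⟨m, n, ?_⟩
    rw [← h, zsmul_eq_mul, zsmul_eq_mul, pow_succ]
    ring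
  · rintro ⟨m, n, h⟩
    refine ⟨m, n, ?_⟩
    rw [h, zsmul_eq_mul, zsmul_eq_mul, pow_succ]
    ring

private theorem mul_mem_La6 (hb : B6 K a s) {j : ℕ} (hj : 1 ≤ j) {x y : ℂ}
    (hx : x ∈ La6 s j) (hy : y ∈ La6 s j) : x * y ∈ La6 s j := by
  rw [mem_La6' s hj] at hx hy ⊢
  obtain ⟨m, n, rfl⟩ := hx
  obtain ⟨m', n', rfl⟩ := hy
  have hsq : algebraMap K ℂ s ^ 2 = -(a : ℂ) := by
    rw [← map_pow, hb.sq, map_neg, map_natCast]
  refine ⟨m * n' + m' * n, n * n' - m * m' * (2 ^ (j - 1)) ^ 2 * a, ?_⟩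
  push_cast
  linear_combination (m : ℂ) * m' * (2 ^ (j - 1)) ^ 2 * hsq

theorem order_eq6 (hb : B6 K a s) (c : Ideal (𝓞 K)) {j : ℕ} (hj : 1 ≤ j) {δ : 𝓞 K} {p q : ℤ}
    (hpq : algebraMap (𝓞 K) K δ = p + 2 ^ (j - 1) * q * s) (hδ : OddI (Ideal.span {δ})) :
    em δ • La6 s j ⊔ (8 : ℂ) • iv c = La6 s j ⊔ (8 : ℂ) • iv c := by
  have hsq : algebraMap K ℂ s ^ 2 = -(a : ℂ) := by
    rw [← map_pow, hb.sq, map_neg, map_natCast]
  have hg : em δ = p + 2 ^ (j - 1) * q * algebraMap K ℂ s := by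
    show algebraMap K ℂ (algebraMap (𝓞 K) K δ) = _
    rw [hpq]
    simp only [map_add, map_mul, map_pow, map_intCast, map_ofNat]
  have hgm : em δ ∈ La6 s j := by
    rw [mem_La6' s hj]
    exact ⟨q, p, by rw [hg]; ring⟩
  have hle : em δ • La6 s j ≤ La6 s j := by
    intro z hz
    obtain ⟨x, hx, rfl⟩ := (Submodule.mem_smul_pointwise_iff_exists _ _ _).1 hz
    exact mul_mem_La6 hb hj hgm hx
  apply le_antisymm
  · exact sup_le_sup_right hle _
  · refine sup_le ?_ le_sup_right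
    intro x hx
    -- the odd norm
    have hn : (Ideal.absNorm (Ideal.span {δ}) : ℤ) = p ^ 2 + a * (2 ^ (j - 1) * q) ^ 2 :=
      norm_lin6 hb (by rw [hpq]; push_cast; ring)
    have hodd : Odd (p ^ 2 + (a : ℤ) * (2 ^ (j - 1) * q) ^ 2) := by
      rw [← hn]
      exact_mod_cast hδ
    obtain ⟨t, ht⟩ := hodd
    obtain ⟨r, hr⟩ := Int.even_mul_succ_self t
    set n : ℤ := p ^ 2 + (a : ℤ) * (2 ^ (j - 1) * q) ^ 2 with hndef
    have hbez : n * n - 8 * r = 1 := by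
      rw [ht]
      linear_combination 4 * hr
    have hbezC : (n : ℂ) * n - 8 * r = 1 := by exact_mod_cast hbez
    have hnC : em δ * (p - 2 ^ (j - 1) * q * algebraMap K ℂ s) = n := by
      rw [hg, hndef]
      push_cast
      linear_combination (-(2 ^ (j - 1) * (q : ℂ)) ^ 2) * hsq
    have hg' : (p - 2 ^ (j - 1) * q * algebraMap K ℂ s : ℂ) ∈ La6 s j := by
      rw [mem_La6' s hj]
      exact ⟨-q, p, by push_cast; ring⟩
    have h1 : em δ * ((p - 2 ^ (j - 1) * q * algebraMap K ℂ s) * x) ∈ em δ • La6 s j :=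
      Submodule.smul_mem_pointwise_smul _ _ _ (mul_mem_La6 hb hj hg' hx)
    have h2 : 8 * x ∈ (8 : ℂ) • iv c := by
      rw [mem_smul_iff (by norm_num : (8 : ℂ) ≠ 0)]
      obtain ⟨S, hS, -⟩ := exists_S6 hb
      obtain ⟨m, l, hml⟩ := (mem_La6' s hj).1 hx
      have h3 := int_mem_iv c ((m : 𝓞 K) * (2 ^ (j - 1) * S) + l)
      have h4 : algebraMap K ℂ (algebraMap (𝓞 K) K ((m : 𝓞 K) * (2 ^ (j - 1) * S) + l)) = x := by
        simp only [map_add, map_mul, map_pow, map_intCast, map_ofNat, hS]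
        exact hml.symm
      rwa [h4] at h3
    have h5 : x = n • (em δ * ((p - 2 ^ (j - 1) * q * algebraMap K ℂ s) * x)) +
        (-r) • (8 * x) := by
      rw [zsmul_eq_mul, zsmul_eq_mul, ← mul_assoc (em δ), hnC]
      push_cast
      linear_combination (-x) * hbezC
    rw [h5]
    exact Submodule.add_mem_sup (Submodule.smul_mem _ _ h1) (Submodule.smul_mem _ _ h2)

end Pool.Agent.Work.MP_8efaaa_nt.K6
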