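import Mathlib
import Pool.Agent.Work.MP_8efaaa_nt.N5.ALat2
import Pool.Agent.Work.MP_8efaaa_nt.K6.ARm
import Pool.Agent.Work.MP_8efaaa_nt.K6.ALb

/-!
# K6/AFk (M): the Fricke involution at the ideal `1`

Model `N5/BFrk.lean`. `w = w6 s = φ s / 8`, `m = a / 2`. `fricke` (N5/ALat2) for `M = M6 s 1 = ⟨4 φ s, 1⟩ = span {32 w, 1}`, `M' = span {8 w, 8} =
span {φ s, 8}`: `Fr M' (1 / 4)`, `fv M' (1 / 4) = fu M w / (1 + fv M w ^ 2)`, `fu M' (1 / 4) = 2 fv M w / (1 + fv M w ^ 2)`. Multiply `M'` and `1 / 4` by `φ s / 2`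
(`f_smul`): `⟨-m, 4 φ s⟩`, `w`. Then divide by `m`: `⟨4 φ s / m, 1⟩`, `w / m`. And `M6 s (r6 S m) = ⟨4 φ s, 1⟩ + 8 (r6 S m)⁻¹ = ⟨4 φ s / m, 1⟩`, because
`iv (r6 S m) = ⟨1, φ s / m⟩` and `m` is odd. Finally `w = m (w / m)`: `f_odd` with `d = m` (odd): `fv` is the same, `fz` up to sign, so
`fu` is the same. Checked numerically. -/

set_option autoImplicit false

namespace Pool.Agent.Work.MP_8efaaa_nt.K6

open NumberField Pool.Agent.Work.CM Pool.Agent.Work.MP_8efaaa_nt.R Pool.Agent.Work.MP_8efaaa_nt.N5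
open scoped Pointwise

variable {K : Type*} [Field K] [NumberField K] [Algebra K ℂ] {a : ℕ} {s : K} {S : 𝓞 K}

private theorem ak_smul {z y : ℂ} {S : Submodule ℤ ℂ} : y ∈ z • S ↔ ∃ x ∈ S, z * x = y := by
  rw [Submodule.mem_smul_pointwise_iff_exists]
  rfl

private theorem ak_sq (hb : B6 K a s) : algebraMap K ℂ s ^ 2 = -(a : ℂ) := by
  rw [← map_pow, hb.sq, map_neg, map_natCast]

/-- the second lattice -/
private def MP (s : K) : Submodule ℤ ℂ := Submodule.span ℤ {8 * w6 s, 8 * 1}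

private theorem mem_MP {z : ℂ} : z ∈ MP s ↔ ∃ m n : ℤ, z = m * (8 * w6 s) + n * 8 := by
  unfold MP
  rw [Submodule.mem_span_pair]
  refine exists_congr fun m => exists_congr fun n => ?_
  rw [zsmul_eq_mul, zsmul_eq_mul, mul_one]
  exact eq_comm

private theorem ak_M1 (hb : B6 K a s) : M6 s 1 = Submodule.span ℤ {32 * w6 s, 1} := by
  have h1 : Lk6 s 5 = Submodule.span ℤ {32 * w6 s, 1} := by
    unfold Lk6
    norm_num
  rw [M6_eq, ← h1]
  apply sup_eq_left.2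
  intro y hy
  obtain ⟨z, hz, rfl⟩ := ak_smul.1 hy
  obtain ⟨x, hx, rfl⟩ := mem_iv.1 hz
  obtain ⟨t, ht⟩ := hx 1 (by rw [Ideal.one_eq_top]; trivial)
  rw [map_one, mul_one] at ht
  rw [← ht]
  exact eight_mem_Lk6 hb le_rfl t

private theorem ak_m (hb : B6 K a s) : ∃ k : ℕ, a / 2 = 4 * k + 3 ∧ a = 8 * k + 6 := by
  have := hb.mod
  exact ⟨a / 8, by omega, by omega⟩

private theorem ak_lat (hb : B6 K a s) (hS : algebraMap (𝓞 K) K S = s) :
    (algebraMap K ℂ s / (2 * ((a / 2 : ℕ) : ℂ))) • MP s = M6 s (r6 S (a / 2)) := by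
  obtain ⟨k, hk, hka⟩ := ak_m hb
  rw [hk]
  have hkC : (a : ℂ) = 8 * k + 6 := by exact_mod_cast hka
  have hkK : (a : K) = 8 * k + 6 := by exact_mod_cast hka
  have hsq := ak_sq hb
  have hsq' := hb.sq
  have hm0 : (4 * (k : ℂ) + 3) ≠ 0 := by
    have : ((4 * k + 3 : ℕ) : ℂ) ≠ 0 := Nat.cast_ne_zero.2 (by omega)
    push_cast at this
    exact this
  have hm0' : (4 * (k : K) + 3) ≠ 0 := by
    have : ((4 * k + 3 : ℕ) : K) ≠ 0 := Nat.cast_ne_zero.2 (by omega)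
    push_cast at this
    exact this
  have hw : 8 * w6 s = algebraMap K ℂ s := by
    unfold w6
    ring
  have h1M : (1 : ℂ) ∈ M6 s (r6 S (4 * k + 3)) := by
    unfold M6 La6
    exact Submodule.mem_sup_left (Submodule.subset_span (by simp))
  have h4M : 2 ^ 3 * (algebraMap K ℂ s / 2) ∈ M6 s (r6 S (4 * k + 3)) := by
    unfold M6 La6
    exact Submodule.mem_sup_left (Submodule.subset_span (by simp))
  have hiv : algebraMap K ℂ s / (4 * k + 3) ∈ iv (r6 S (4 * k + 3)) := by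
    refine mem_iv.2 ⟨s / (4 * k + 3), fun y hy => ?_, ?_⟩
    · unfold r6 at hy
      obtain ⟨α, β, rfl⟩ := Ideal.mem_span_pair.1 hy
      refine ⟨α * S - β * 2, ?_⟩
      simp only [map_add, map_mul, map_sub, map_ofNat, map_natCast, hS]
      push_cast
      field_simp
      linear_combination (-(algebraMap (𝓞 K) K β)) * hsq' + (algebraMap (𝓞 K) K β) * hkK
    · rw [map_div₀, map_add, map_mul, map_natCast, map_ofNat, map_ofNat]
  have h8M : 8 * (algebraMap K ℂ s / (4 * k + 3)) ∈ M6 s (r6 S (4 * k + 3)) := by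
    unfold M6
    exact Submodule.mem_sup_right (ak_smul.2 ⟨_, hiv, rfl⟩)
  apply le_antisymm
  · intro y hy
    obtain ⟨x, hx, rfl⟩ := ak_smul.1 hy
    obtain ⟨m, n, rfl⟩ := mem_MP.1 hx
    have e : algebraMap K ℂ s / (2 * ((4 * k + 3 : ℕ) : ℂ)) * (m * (8 * w6 s) + n * 8) =
        (-m) • (1 : ℂ) + (n • (2 ^ 3 * (algebraMap K ℂ s / 2)) +
          (-(n * (2 * k + 1))) • (8 * (algebraMap K ℂ s / (4 * k + 3)))) := by
      rw [zsmul_eq_mul, zsmul_eq_mul, zsmul_eq_mul, hw]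
      push_cast
      field_simp
      linear_combination (m : ℂ) * hsq - (m : ℂ) * hkC
    rw [e]
    exact Submodule.add_mem _ (Submodule.smul_mem _ _ h1M)
      (Submodule.add_mem _ (Submodule.smul_mem _ _ h4M) (Submodule.smul_mem _ _ h8M))
  · intro y hy
    unfold M6 La6 at hy
    obtain ⟨u, hu, v, hv, rfl⟩ := Submodule.mem_sup.1 hy
    obtain ⟨m, n, rfl⟩ := Submodule.mem_span_pair.1 hu
    obtain ⟨z, hz, rfl⟩ := ak_smul.1 hv
    obtain ⟨x, hxx, rfl⟩ := mem_iv.1 hz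
    obtain ⟨T, hT⟩ := hxx S (Ideal.subset_span (by simp))
    obtain ⟨T', hT'⟩ := hxx ((4 * k + 3 : ℕ) : 𝓞 K) (Ideal.subset_span (by simp))
    obtain ⟨p, q, hpq⟩ := coords6 hb T
    obtain ⟨p', q', hpq'⟩ := coords6 hb T'
    rw [hpq, hS] at hT
    rw [hpq', map_natCast] at hT'
    push_cast at hT'
    have hTC : (p : ℂ) + q * algebraMap K ℂ s = algebraMap K ℂ x * algebraMap K ℂ s := by
      have h3 := congrArg (algebraMap K ℂ) hT
      simpa only [map_add, map_mul, map_intCast] using h3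
    have hTC' : (p' : ℂ) + q' * algebraMap K ℂ s = algebraMap K ℂ x * (4 * k + 3) := by
      have h3 := congrArg (algebraMap K ℂ) hT'
      simpa only [map_add, map_mul, map_intCast, map_natCast, map_ofNat] using h3
    have h4 := lin_indep6 hb (p := -(q' * (8 * k + 6)) - (4 * k + 3) * p)
      (q := p' - (4 * k + 3) * q) (by
        push_cast
        linear_combination (algebraMap K ℂ s) * hTC' - (4 * (k : ℂ) + 3) * hTC
          - (q' : ℂ) * hsq + (q' : ℂ) * hkC)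
    have h5 : (p' : ℂ) = (4 * k + 3) * q := by
      have h6 : (p' : ℚ) = (4 * k + 3) * q := by linarith [h4.2]
      exact_mod_cast h6
    refine ak_smul.2 ⟨_, mem_MP.2 ⟨-n - 8 * q, (4 * k + 3) * m + 2 * q', rfl⟩, ?_⟩
    rw [zsmul_eq_mul, zsmul_eq_mul, hw]
    have h7 : algebraMap K ℂ x = ((4 * k + 3) * q + q' * algebraMap K ℂ s) / (4 * k + 3) := by
      rw [eq_div_iff hm0, ← hTC', h5]
    rw [h7]
    push_cast
    field_simp
    linear_combination (-(n : ℂ) - 8 * q) * hsq + ((n : ℂ) + 8 * q) * hkC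

private theorem ak_odd (hb : B6 K a s) (hS : algebraMap (𝓞 K) K S = s) :
    OddI (r6 S (a / 2)) := by
  unfold OddI
  obtain ⟨k, hk, hka⟩ := ak_m hb
  rw [norm_r6 hb hS ⟨2, by omega⟩, hk]
  exact ⟨2 * k + 1, by ring⟩

private theorem ak_one : OddI (1 : Ideal (𝓞 K)) := by
  unfold OddI
  rw [map_one]
  exact odd_one

theorem frk_one6 (hb : B6 K a s) (hS : algebraMap (𝓞 K) K S = s) :
    vc s (r6 S (a / 2)) * (1 + vc s 1 ^ 2) = uc s 1 ∧
      uc s (r6 S (a / 2)) * (1 + vc s 1 ^ 2) = 2 * vc s 1 := by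
  obtain ⟨k, hk, hka⟩ := ak_m hb
  have hF : Fr (M6 s 1) (w6 s) := fr_M6 hb ak_one
  have hMM : M6 s 1 = Submodule.span ℤ {32 * w6 s, 1} := ak_M1 hb
  obtain ⟨hF', hne, hfv, hfu⟩ := fricke (M' := MP s) hF hMM rfl
  have hs0 : algebraMap K ℂ s ≠ 0 := by
    intro h0
    have h1 := ak_sq hb
    rw [h0, zero_pow two_ne_zero] at h1
    have h2 : (a : ℂ) = 0 := by linear_combination h1
    exact hb.sf.ne_zero (Nat.cast_eq_zero.1 h2)
  have hm0 : ((a / 2 : ℕ) : ℂ) ≠ 0 := Nat.cast_ne_zero.2 (by omega)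
  have hμ : algebraMap K ℂ s / (2 * ((a / 2 : ℕ) : ℂ)) ≠ 0 :=
    div_ne_zero hs0 (mul_ne_zero two_ne_zero hm0)
  obtain ⟨s1, s2, s3⟩ := f_smul hF' hμ
  have hFs := hF'.smul hμ
  rw [ak_lat hb hS] at s1 s2 s3 hFs
  obtain ⟨o1, o2, o3⟩ := f_odd hFs (d := (a / 2 : ℕ)) (w' := w6 s)
    (by
      rw [hk]
      exact ⟨2 * k + 1, by push_cast; ring⟩)
    (by
      have e : w6 s - (((a / 2 : ℕ) : ℤ) : ℂ) *
          (algebraMap K ℂ s / (2 * ((a / 2 : ℕ) : ℂ)) * (1 / 4)) = 0 := by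
        unfold w6
        rw [Int.cast_natCast]
        field_simp
        ring
      rw [e]
      exact Submodule.zero_mem _)
  have he8 : ((e8 ((a / 2 : ℕ) : ℤ) : ℤ) : ℂ) ^ 2 = 1 := by
    unfold e8
    split_ifs <;> norm_num
  have hV : vc s (r6 S (a / 2)) = fv (MP s) (1 / 4) := by
    show fv (M6 s (r6 S (a / 2))) (w6 s) = _
    rw [o3, s3]
  have hU : uc s (r6 S (a / 2)) = fu (MP s) (1 / 4) := by
    show 2 / fz (M6 s (r6 S (a / 2))) (w6 s) ^ 2 - 1 = 2 / fz (MP s) (1 / 4) ^ 2 - 1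
    rw [o1, mul_pow, he8, one_mul, s1]
  have hV1 : vc s 1 = fv (M6 s 1) (w6 s) := rfl
  have hU1 : uc s 1 = fu (M6 s 1) (w6 s) := rfl
  rw [hV, hU, hV1, hU1, hfv, hfu]
  exact ⟨div_mul_cancel₀ _ hne, div_mul_cancel₀ _ hne⟩

end Pool.Agent.Work.MP_8efaaa_nt.K6
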