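import Mathlib
import Pool.Agent.Work.MP_8efaaa_nt.R.BInt
import Pool.Agent.Work.MP_8efaaa_nt.R.CKrC
import Pool.Agent.Work.MP_8efaaa_nt.K6.ALb

/-!
# K6/AKr (M): the Kronecker congruence at the primes `l ∤ a`

Copy of `R/CKrA.lean`, `R/CKrB.lean`, `R/CKrC.lean` for `M6`, `w6`. -/

set_option autoImplicit false

namespace Pool.Agent.Work.MP_8efaaa_nt.K6

open NumberField Pool.Agent.Work.CM Pool.Agent.Work.MP_8efaaa_nt.R
open scoped Pointwise

universe u

variable {K : Type u} [Field K] [NumberField K] [Algebra K ℂ] {a : ℕ} {s : K}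

private theorem exists_lam6 {q : Ideal (𝓞 K)} (hq : OddI q) (hq0 : q ≠ ⊥) :
    ∃ (f : ℕ) (lam t : 𝓞 K), 0 < f ∧ q ^ f = Ideal.span {lam} ∧ lam = 1 + 32 * t := by
  classical
  -- a power is principal
  obtain ⟨h, hh, l0, hl0⟩ : ∃ h : ℕ, 0 < h ∧ ∃ l0 : 𝓞 K, q ^ h = Ideal.span {l0} := by
    have hqm : q ∈ nonZeroDivisors (Ideal (𝓞 K)) := mem_nonZeroDivisors_of_ne_zero hq0
    refine ⟨Fintype.card (ClassGroup (𝓞 K)), Fintype.card_pos, ?_⟩
    have h1 : ClassGroup.mk0 (⟨q, hqm⟩ ^ (Fintype.card (ClassGroup (𝓞 K)))) = 1 := by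
      rw [map_pow, pow_card_eq_one]
    have h2 := (ClassGroup.mk0_eq_one_iff (I := q ^ (Fintype.card (ClassGroup (𝓞 K))))
      (pow_mem hqm _)).1 h1
    obtain ⟨x, hx⟩ := h2.principal
    exact ⟨x, hx⟩
  -- it is a unit modulo 32
  set J : Ideal (𝓞 K) := Ideal.span {(32 : 𝓞 K)} with hJ
  have hJ0 : J ≠ ⊥ := by
    rw [hJ, Ne, Ideal.span_singleton_eq_bot]
    norm_num
  have hfin : Finite (𝓞 K ⧸ J) := Ideal.finiteQuotientOfFreeOfNeBot J hJ0
  have hunit : IsUnit (Ideal.Quotient.mk J l0) := by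
    have hn : ((Ideal.absNorm (q ^ h) : ℕ) : 𝓞 K) ∈ Ideal.span {l0} := by
      rw [← hl0]
      exact Ideal.absNorm_mem _
    obtain ⟨y, hy⟩ := Ideal.mem_span_singleton'.1 hn
    have hodd : Odd (Ideal.absNorm (q ^ h)) := by
      rw [map_pow]
      exact Odd.pow hq
    have hcop : IsCoprime ((Ideal.absNorm (q ^ h) : ℕ) : ℤ) (32 : ℤ) := by
      rw [show (32 : ℤ) = ((32 : ℕ) : ℤ) by norm_num, Nat.isCoprime_iff_coprime,
        show (32 : ℕ) = 2 ^ 5 by norm_num]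
      exact (Nat.Coprime.pow_right 5 (Nat.coprime_two_right.2 hodd))
    obtain ⟨u, v, huv⟩ := hcop
    have h3 : ((u : 𝓞 K) * y) * l0 + (v : 𝓞 K) * 32 = 1 := by
      have h4 := congrArg (Int.cast : ℤ → 𝓞 K) huv
      push_cast at h4
      rw [mul_assoc, hy]
      exact h4
    refine IsUnit.of_mul_eq_one (Ideal.Quotient.mk J ((u : 𝓞 K) * y)) ?_
    rw [← map_mul, ← map_one (Ideal.Quotient.mk J), Ideal.Quotient.eq, hJ,
      Ideal.mem_span_singleton']
    refine ⟨-(v : 𝓞 K), ?_⟩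
    linear_combination -h3
  obtain ⟨U, hU⟩ := hunit
  have : Finite (𝓞 K ⧸ J)ˣ := inferInstance
  have hord : 0 < orderOf U := orderOf_pos U
  have hpow : Ideal.Quotient.mk J (l0 ^ orderOf U) = Ideal.Quotient.mk J 1 := by
    rw [map_pow, ← hU, ← Units.val_pow_eq_pow_val, pow_orderOf_eq_one, Units.val_one, map_one]
  rw [Ideal.Quotient.eq] at hpow
  obtain ⟨t, ht⟩ := Ideal.mem_span_singleton'.1
    (show l0 ^ orderOf U - 1 ∈ Ideal.span {(32 : 𝓞 K)} from hpow)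
  refine ⟨h * orderOf U, l0 ^ orderOf U, t, Nat.mul_pos hh hord, ?_, ?_⟩
  · rw [pow_mul, hl0, Ideal.span_singleton_pow]
  · linear_combination -ht

/-- an integer in `q` is divisible by `l` -/
private theorem int_mem6 {l : ℕ} (hl : l.Prime) {q : Ideal (𝓞 K)} (hq : q.IsPrime)
    (hql : Ideal.absNorm q = l) {n : ℤ} (hn : (n : 𝓞 K) ∈ q) : (l : ℤ) ∣ n := by
  by_contra hd
  have hcop : IsCoprime (l : ℤ) n :=
    (Int.isCoprime_iff_gcd_eq_one).2 (by
      have := (Int.prime_iff_natAbs_prime.2 (by simpa using hl) : Prime (l : ℤ))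
      exact (Int.isCoprime_iff_gcd_eq_one).1
        ((Prime.coprime_iff_not_dvd this).2 hd))
  obtain ⟨u, v, huv⟩ := hcop
  have hlq : ((l : ℤ) : 𝓞 K) ∈ q := by
    have := Ideal.absNorm_mem q
    rw [hql] at this
    simpa using this
  apply hq.ne_top
  rw [Ideal.eq_top_iff_one]
  have h1 := congrArg (Int.cast : ℤ → 𝓞 K) huv
  push_cast at h1
  rw [← h1]
  refine q.add_mem (q.mul_mem_left _ ?_) (q.mul_mem_left _ hn)
  simpa using hlq

/-- in the residue field with `l` elements every element is an integer -/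
private theorem exists_int6 {l : ℕ} (hl : l.Prime) {q : Ideal (𝓞 K)} (hq : q.IsPrime)
    (hql : Ideal.absNorm q = l) (t : 𝓞 K) : ∃ n : ℤ, t - n ∈ q := by
  haveI : Fact l.Prime := ⟨hl⟩
  have hcard : Nat.card (𝓞 K ⧸ q) = l := by
    rw [← hql, Ideal.absNorm_apply, Submodule.cardQuot_apply]
  have h1 : (1 : 𝓞 K ⧸ q) ≠ 0 := by
    haveI := Ideal.Quotient.nontrivial_iff.mpr hq.ne_top
    exact one_ne_zero
  have := mem_zmultiples_of_prime_card (p := l) hcard (g' := Ideal.Quotient.mk q t) h1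
  obtain ⟨n, hn⟩ := AddSubgroup.mem_zmultiples_iff.mp this
  refine ⟨n, ?_⟩
  rw [← Ideal.Quotient.eq_zero_iff_mem, map_sub, sub_eq_zero, ← hn]
  simp

private theorem val_lam6 (hb : B6 K a s) {Γ : Type*} [LinearOrderedCommGroupWithZero Γ]
    (V : Valuation ℂ Γ) {l : ℕ} (hl : l.Prime) (hl2 : l ≠ 2) (hla : ¬ l ∣ a)
    {q : Ideal (𝓞 K)} (hq : q.IsPrime) (hql : Ideal.absNorm q = l)
    (hV1 : ∀ x : 𝓞 K, V (R.em x) ≤ 1) (hV2 : ∀ x : 𝓞 K, V (R.em x) < 1 ↔ x ∈ q) {f : ℕ} (hf : 0 < f)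
    {lam : 𝓞 K} (hlam : q ^ f = Ideal.span {lam}) : V (R.em lam) = V (l : ℂ) ^ f := by
  obtain ⟨S, hS, hSS, hS'⟩ := exists_S6 hb
  obtain ⟨p, r, hpr⟩ := hS' lam
  have hlZ : Prime (l : ℤ) := Nat.prime_iff_prime_int.1 hl
  have hl2Z : ¬ (l : ℤ) ∣ 2 := by
    intro h
    have h1 : l ∣ 2 := by exact_mod_cast h
    exact hl2 ((Nat.prime_dvd_prime_iff_eq hl Nat.prime_two).1 h1)
  have hlaZ : ¬ (l : ℤ) ∣ (a : ℤ) := by
    intro h
    exact hla (by exact_mod_cast h)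
  -- coordinates are unique
  have huniq : ∀ x y : ℤ, (x : 𝓞 K) + y * S = 0 → x = 0 ∧ y = 0 := by
    intro x y hxy
    have ha0 : (0 : ℤ) < a := by
      have := hb.mod
      omega
    have h1 : (x : 𝓞 K) ^ 2 = -(a : 𝓞 K) * (y : 𝓞 K) ^ 2 := by
      have h2 : (x : 𝓞 K) = -(y * S) := by linear_combination hxy
      rw [h2]
      linear_combination (y : 𝓞 K) ^ 2 * hSS
    have h3 : x ^ 2 = -(a : ℤ) * y ^ 2 := by
      have h4 : ((x ^ 2 : ℤ) : 𝓞 K) = ((-(a : ℤ) * y ^ 2 : ℤ) : 𝓞 K) := by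
        push_cast
        exact h1
      exact Int.cast_injective h4
    have hy : y = 0 := by
      by_contra hy
      have : 0 < y ^ 2 := by positivity
      nlinarith [sq_nonneg x]
    have hx : x = 0 := by
      rw [hy] at h3
      simpa using h3
    exact ⟨hx, hy⟩
  set lam' : 𝓞 K := p - r * S with hlam'
  have hnorm : (Ideal.absNorm (Ideal.span {lam}) : ℤ) = p ^ 2 + a * r ^ 2 :=
    norm_lin6 hb (δ := lam) (by rw [hpr]; simp [hS])
  have hlf : (p ^ 2 + a * r ^ 2 : ℤ) = (l : ℤ) ^ f := by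
    rw [← hnorm, ← hlam, map_pow, hql]
    push_cast
    ring
  have hprod : lam * lam' = (l : 𝓞 K) ^ f := by
    have h1 : ((p ^ 2 + a * r ^ 2 : ℤ) : 𝓞 K) = ((l : ℤ) ^ f : ℤ) := by rw [hlf]
    push_cast at h1
    rw [hpr, hlam']
    linear_combination h1 - (r : 𝓞 K) ^ 2 * hSS
  have hlq : (l : 𝓞 K) ∈ q := by
    have := Ideal.absNorm_mem q
    rwa [hql] at this
  have hnot : lam' ∉ q := by
    intro hmem
    have hlamq : lam ∈ q := by
      have h1 : lam ∈ q ^ f := by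
        rw [hlam]
        exact Ideal.mem_span_singleton_self lam
      exact Ideal.pow_le_self hf.ne' h1
    have h2p : ((2 * p : ℤ) : 𝓞 K) ∈ q := by
      have h3 := q.add_mem hlamq hmem
      have h4 : lam + lam' = ((2 * p : ℤ) : 𝓞 K) := by
        rw [hlam', hpr]
        push_cast
        ring
      rwa [h4] at h3
    have hlp : (l : ℤ) ∣ p := (hlZ.dvd_or_dvd (int_mem6 hl hq hql h2p)).resolve_left hl2Z
    have hlr : (l : ℤ) ∣ r := by
      have h5 : (l : ℤ) ∣ a * r ^ 2 := by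
        have h6 : (a * r ^ 2 : ℤ) = (l : ℤ) ^ f - p ^ 2 := by linarith
        rw [h6]
        exact dvd_sub (dvd_pow_self _ hf.ne') (dvd_pow hlp two_ne_zero)
      exact hlZ.dvd_of_dvd_pow ((hlZ.dvd_or_dvd h5).resolve_left hlaZ)
    have hdvd : (l : 𝓞 K) ∣ lam := by
      obtain ⟨p', rfl⟩ := hlp
      obtain ⟨r', rfl⟩ := hlr
      refine ⟨p' + r' * S, ?_⟩
      rw [hpr]
      push_cast
      ring
    have hq0 : q ≠ ⊥ := by
      rintro rfl
      rw [Ideal.absNorm_bot] at hql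
      exact hl.ne_zero hql.symm
    have hqprime : Prime q := Ideal.prime_of_isPrime hq0 hq
    have hld : Ideal.span {(l : 𝓞 K)} ∣ q ^ f := by
      rw [hlam, Ideal.dvd_iff_le, Ideal.span_singleton_le_span_singleton]
      exact hdvd
    obtain ⟨i, hi, hass⟩ := (dvd_prime_pow hqprime f).1 hld
    have heq : Ideal.span {(l : 𝓞 K)} = q ^ i := associated_iff_eq.1 hass
    have hi2 : i = 2 := by
      have h7 := congrArg Ideal.absNorm heq
      rw [Ideal.absNorm_span_natCast, map_pow, hql, RingOfIntegers.rank, hb.dim] at h7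
      exact (Nat.pow_right_injective hl.two_le h7).symm
    subst hi2
    obtain ⟨b, hbq⟩ := exists_int6 hl hq hql S
    have hsq : (S - b) ^ 2 ∈ Ideal.span {(l : 𝓞 K)} := by
      rw [heq]
      exact Ideal.pow_mem_pow hbq 2
    obtain ⟨y, hy⟩ := Ideal.mem_span_singleton'.1 hsq
    obtain ⟨p', r', hp'⟩ := hS' y
    have h8 : (((b ^ 2 - a - l * p' : ℤ)) : 𝓞 K) + ((-2 * b - l * r' : ℤ) : 𝓞 K) * S = 0 := by
      push_cast
      rw [hp'] at hy
      linear_combination -hy - hSS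
    obtain ⟨h9, h10⟩ := huniq _ _ h8
    have hlb : (l : ℤ) ∣ b := by
      have h11 : (l : ℤ) ∣ 2 * b := ⟨-r', by linarith⟩
      exact (hlZ.dvd_or_dvd h11).resolve_left hl2Z
    apply hlaZ
    have h12 : (a : ℤ) = b ^ 2 - l * p' := by linarith
    rw [h12]
    exact dvd_sub (dvd_pow hlb two_ne_zero) (dvd_mul_right _ _)
  have hV' : V (R.em lam') = 1 := by
    refine le_antisymm (hV1 lam') ?_
    by_contra hlt
    exact hnot ((hV2 lam').1 (not_le.1 hlt))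
  have hem : R.em lam * R.em lam' = (l : ℂ) ^ f := by
    unfold R.em
    rw [← map_mul, ← map_mul, hprod, map_pow, map_pow, map_natCast, map_natCast]
  have hfin := congrArg V hem
  rw [map_mul, hV', mul_one, map_pow] at hfin
  exact hfin

private theorem mem_smul86 {L : Submodule ℤ ℂ} {m z : ℂ} : z ∈ m • L ↔ ∃ y ∈ L, m * y = z := by
  rw [Submodule.mem_smul_pointwise_iff_exists]
  rfl

private theorem phi_sq6 (hb : B6 K a s) : (algebraMap K ℂ s) ^ 2 = -(a : ℂ) := by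
  rw [← map_pow, hb.sq]
  simp

private theorem mem_iv6' {c : Ideal (𝓞 K)} (hc : c ≠ ⊥) {x : K} :
    algebraMap K ℂ x ∈ iv c ↔ x ∈ (c : FractionalIdeal (nonZeroDivisors (𝓞 K)) K)⁻¹ := by
  have hc' : (c : FractionalIdeal (nonZeroDivisors (𝓞 K)) K) ≠ 0 :=
    FractionalIdeal.coeIdeal_ne_zero.mpr hc
  rw [FractionalIdeal.mem_inv_iff hc', mem_iv]
  constructor
  · rintro ⟨x', h, hx⟩ y hy
    have hx' : x' = x := (algebraMap K ℂ).injective hx
    subst hx'
    obtain ⟨y', hy', rfl⟩ := (FractionalIdeal.mem_coeIdeal _).mp hy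
    obtain ⟨t, ht⟩ := h y' hy'
    exact (FractionalIdeal.mem_one_iff _).mpr ⟨t, ht⟩
  · intro h
    refine ⟨x, fun y hy => ?_, rfl⟩
    exact (FractionalIdeal.mem_one_iff _).mp
      (h (algebraMap _ K y) (FractionalIdeal.mem_coeIdeal_of_mem _ hy))

private theorem iv_image6 {c : Ideal (𝓞 K)} {z : ℂ} (hz : z ∈ iv c) : ∃ x : K, algebraMap K ℂ x = z := by
  obtain ⟨x, _, hx⟩ := mem_iv.mp hz
  exact ⟨x, hx⟩

private theorem exists_gen6 {q c : Ideal (𝓞 K)} (hq : q.IsPrime) (hq0 : q ≠ ⊥) (hc0 : c ≠ ⊥) :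
    ∃ x : K, x ∈ ((q * c : Ideal (𝓞 K)) : FractionalIdeal (nonZeroDivisors (𝓞 K)) K)⁻¹ ∧
      x ∉ (c : FractionalIdeal (nonZeroDivisors (𝓞 K)) K)⁻¹ ∧
      ∀ z ∈ ((q * c : Ideal (𝓞 K)) : FractionalIdeal (nonZeroDivisors (𝓞 K)) K)⁻¹,
        ∃ t : 𝓞 K, z - algebraMap (𝓞 K) K t * x ∈
          (c : FractionalIdeal (nonZeroDivisors (𝓞 K)) K)⁻¹ := by
  have hqm : q.IsMaximal := hq.isMaximal hq0
  rw [FractionalIdeal.coeIdeal_mul]
  set C : FractionalIdeal (nonZeroDivisors (𝓞 K)) K :=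
    (c : FractionalIdeal (nonZeroDivisors (𝓞 K)) K) with hC
  set Q : FractionalIdeal (nonZeroDivisors (𝓞 K)) K :=
    (q : FractionalIdeal (nonZeroDivisors (𝓞 K)) K) with hQ
  have hC0 : C ≠ 0 := FractionalIdeal.coeIdeal_ne_zero.mpr hc0
  have hQ0 : Q ≠ 0 := FractionalIdeal.coeIdeal_ne_zero.mpr hq0
  have hQC0 : Q * C ≠ 0 := mul_ne_zero hQ0 hC0
  have hCQC : C⁻¹ * (Q * C) = Q := by
    rw [mul_comm Q C, ← mul_assoc, inv_mul_cancel₀ hC0, one_mul]
  obtain ⟨x, hx, hxc⟩ : ∃ x ∈ (Q * C)⁻¹, x ∉ C⁻¹ := by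
    by_contra hcon
    push Not at hcon
    have hle : (Q * C)⁻¹ ≤ C⁻¹ := fun x hx => hcon x hx
    have h1 : (1 : FractionalIdeal (nonZeroDivisors (𝓞 K)) K) ≤ Q := by
      calc (1 : FractionalIdeal (nonZeroDivisors (𝓞 K)) K) = (Q * C)⁻¹ * (Q * C) :=
            (inv_mul_cancel₀ hQC0).symm
        _ ≤ C⁻¹ * (Q * C) := mul_le_mul_left hle _
        _ = Q := hCQC
    rw [← FractionalIdeal.coeIdeal_top, hQ] at h1
    exact hq.ne_top (top_le_iff.mp ((FractionalIdeal.coeIdeal_le_coeIdeal K).mp h1))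
  refine ⟨x, hx, hxc, ?_⟩
  set J : FractionalIdeal (nonZeroDivisors (𝓞 K)) K :=
    C⁻¹ + FractionalIdeal.spanSingleton (nonZeroDivisors (𝓞 K)) x with hJ
  have hCle : C⁻¹ ≤ (Q * C)⁻¹ := by
    have h1 : Q * C ≤ C := by
      calc Q * C ≤ 1 * C := mul_le_mul_left FractionalIdeal.coeIdeal_le_one _
        _ = C := one_mul _
    exact FractionalIdeal.inv_anti_mono hQC0 hC0 h1
  have hJle : J ≤ (Q * C)⁻¹ := by
    rw [hJ, ← FractionalIdeal.sup_eq_add, sup_le_iff]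
    exact ⟨hCle, FractionalIdeal.spanSingleton_le_iff_mem.mpr hx⟩
  have hJQC : J * (Q * C) ≤ 1 := by
    calc J * (Q * C) ≤ (Q * C)⁻¹ * (Q * C) := mul_le_mul_left hJle _
      _ = 1 := inv_mul_cancel₀ hQC0
  obtain ⟨I, hI⟩ := FractionalIdeal.le_one_iff_exists_coeIdeal.mp hJQC
  have hqI : q ≤ I := by
    rw [← FractionalIdeal.coeIdeal_le_coeIdeal K, hI, ← hQ]
    calc Q = C⁻¹ * (Q * C) := hCQC.symm
      _ ≤ J * (Q * C) := mul_le_mul_left (by rw [hJ]; exact le_self_add) _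
  have hIq : I ≠ q := by
    intro h
    apply hxc
    rw [h, ← hQ] at hI
    have : J = C⁻¹ := by
      calc J = J * (Q * C) * (Q * C)⁻¹ := by rw [mul_assoc, mul_inv_cancel₀ hQC0, mul_one]
        _ = C⁻¹ * (Q * C) * (Q * C)⁻¹ := by rw [← hI, hCQC]
        _ = C⁻¹ := by rw [mul_assoc, mul_inv_cancel₀ hQC0, mul_one]
    rw [← this]
    have h2 : FractionalIdeal.spanSingleton (nonZeroDivisors (𝓞 K)) x ≤ J := by
      rw [hJ]; exact le_add_self
    exact h2 (FractionalIdeal.mem_spanSingleton_self _ x)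
  have hItop : I = ⊤ := by
    by_contra h
    exact hIq (hqm.eq_of_le h hqI).symm
  have hJeq : J = (Q * C)⁻¹ := by
    rw [hItop, FractionalIdeal.coeIdeal_top] at hI
    calc J = J * (Q * C) * (Q * C)⁻¹ := by rw [mul_assoc, mul_inv_cancel₀ hQC0, mul_one]
      _ = (Q * C)⁻¹ := by rw [← hI, one_mul]
  intro z hz
  rw [← hJeq, hJ] at hz
  obtain ⟨y, hy, w, hw, hyw⟩ := (FractionalIdeal.mem_add _ _ _).mp hz
  obtain ⟨t, ht⟩ := (FractionalIdeal.mem_spanSingleton _).mp hw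
  refine ⟨t, ?_⟩
  have : z - algebraMap (𝓞 K) K t * x = y := by
    rw [← hyw, ← ht, Algebra.smul_def]
    ring
  rw [this]
  exact hy

private theorem step_iv6 (hb : B6 K a s) {l : ℕ} (hl : l.Prime) (hl2 : l ≠ 2) {q : Ideal (𝓞 K)}
    (hq : q.IsPrime) (hql : Ideal.absNorm q = l) {c : Ideal (𝓞 K)} (hc : OddI c) :
    ∃ u, u ∉ M6 s c ∧ (l : ℂ) * u ∈ M6 s c ∧ M6 s (q * c) = M6 s c ⊔ Submodule.span ℤ {u} := by
  have hc0 : c ≠ ⊥ := by
    rintro rfl
    simp [OddI] at hc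
  have hq0 : q ≠ ⊥ := by
    rintro rfl
    simp only [Ideal.absNorm_bot] at hql
    exact hl.ne_zero hql.symm
  have hqc0 : q * c ≠ ⊥ := mul_ne_zero hq0 hc0
  obtain ⟨x, hx, hxc, hall⟩ := exists_gen6 hq hq0 hc0
  have hxI : algebraMap K ℂ x ∈ iv (q * c) := (mem_iv6' hqc0).mpr hx
  have hxN : algebraMap K ℂ x ∉ iv c := fun h => hxc ((mem_iv6' hc0).mp h)
  -- multiplication by elements of q
  have hqx : ∀ t ∈ q, R.em t * algebraMap K ℂ x ∈ iv c := by
    intro t ht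
    obtain ⟨x', hx', hxx⟩ := mem_iv.mp hxI
    have : x' = x := (algebraMap K ℂ).injective hxx
    subst this
    refine mem_iv.mpr ⟨algebraMap (𝓞 K) K t * x', fun y hy => ?_, by rw [map_mul]⟩
    obtain ⟨r, hr⟩ := hx' (t * y) (Ideal.mul_mem_mul ht hy)
    exact ⟨r, by rw [hr, map_mul]; ring⟩
  have hlx : (l : ℂ) * algebraMap K ℂ x ∈ iv c := by
    have h := hqx (l : 𝓞 K) (by rw [← hql]; exact Ideal.absNorm_mem q)
    simpa [R.em] using h
  -- the superlattice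
  have hsup : iv (q * c) = iv c ⊔ Submodule.span ℤ {algebraMap K ℂ x} := by
    apply le_antisymm
    · intro z hz
      obtain ⟨z', rfl⟩ := iv_image6 hz
      obtain ⟨t, ht⟩ := hall z' ((mem_iv6' hqc0).mp hz)
      obtain ⟨n, hn⟩ := exists_int6 hl hq hql t
      have h1 : algebraMap K ℂ (z' - algebraMap (𝓞 K) K t * x) ∈ iv c := (mem_iv6' hc0).mpr ht
      have h2 := hqx _ hn
      rw [Submodule.mem_sup]
      refine ⟨_, add_mem h1 h2, (n : ℂ) * algebraMap K ℂ x,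
        Submodule.mem_span_singleton.mpr ⟨n, by simp⟩, ?_⟩
      simp only [R.em, map_sub, map_mul, map_intCast]
      ring
    · rw [sup_le_iff]
      refine ⟨iv_le_mul q c, ?_⟩
      rw [Submodule.span_singleton_le_iff_mem]
      exact hxI
  refine ⟨8 * algebraMap K ℂ x, ?_, ?_, ?_⟩
  · intro hmem
    obtain ⟨S, hS, -, -⟩ := exists_S6 hb
    rw [M6, Submodule.mem_sup] at hmem
    obtain ⟨y, hy, i8, hi8, hyi⟩ := hmem
    obtain ⟨i, hi, rfl⟩ := mem_smul86.mp hi8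
    have hyint : ∃ t : 𝓞 K, R.em t = y := by
      obtain ⟨m, n, rfl⟩ := Submodule.mem_span_pair.mp hy
      refine ⟨4 * (m : 𝓞 K) * S + n, ?_⟩
      simp only [R.em, map_add, map_mul, map_one, map_intCast, map_ofNat, hS, zsmul_eq_mul]
      ring
    obtain ⟨t, rfl⟩ := hyint
    have ht : R.em t ∈ iv c := int_mem_iv c t
    -- l * y and 8 * y are in 8 • iv c
    have h8y : 8 * R.em t ∈ (8 : ℂ) • iv c := mem_smul86.mpr ⟨_, ht, rfl⟩
    have hly : (l : ℂ) * R.em t ∈ (8 : ℂ) • iv c := by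
      refine mem_smul86.mpr ⟨(l : ℂ) * algebraMap K ℂ x - (l : ℂ) * i, ?_, ?_⟩
      · refine sub_mem hlx ?_
        have := (iv c).smul_mem (l : ℤ) hi
        simpa [zsmul_eq_mul] using this
      · linear_combination (-(l : ℂ)) * hyi
    have hcop : IsCoprime (l : ℤ) 8 := by
      have h1 : Nat.Coprime l 8 := by
        have h2 : Nat.Coprime l 2 := (Nat.coprime_primes hl Nat.prime_two).mpr hl2
        have h3 := Nat.Coprime.pow_right 3 h2
        simpa using h3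
      exact_mod_cast Nat.isCoprime_iff_coprime.mpr h1
    obtain ⟨u, v, huv⟩ := hcop
    have hy8 : R.em t ∈ (8 : ℂ) • iv c := by
      have h1 := add_mem (((8 : ℂ) • iv c).smul_mem u hly) (((8 : ℂ) • iv c).smul_mem v h8y)
      have h2 : u • ((l : ℂ) * R.em t) + v • (8 * R.em t) = R.em t := by
        rw [zsmul_eq_mul, zsmul_eq_mul]
        have : (u : ℂ) * l + v * 8 = 1 := by exact_mod_cast huv
        linear_combination (R.em t) * this
      rwa [h2] at h1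
    have hx8 : 8 * algebraMap K ℂ x ∈ (8 : ℂ) • iv c := by
      rw [← hyi]
      exact add_mem hy8 (mem_smul86.mpr ⟨i, hi, rfl⟩)
    obtain ⟨j, hj, hj8⟩ := mem_smul86.mp hx8
    have : j = algebraMap K ℂ x := mul_left_cancel₀ (by norm_num : (8 : ℂ) ≠ 0) hj8
    exact hxN (this ▸ hj)
  · refine Submodule.mem_sup_right (mem_smul86.mpr ⟨_, hlx, ?_⟩)
    ring
  · rw [M6, M6, hsup, Submodule.smul_sup', sup_assoc]
    congr 2
    rw [Submodule.smul_span]
    simp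

private theorem cyc_iv6 (hb : B6 K a s) {c : Ideal (𝓞 K)} (hc : OddI c) {lam t : 𝓞 K}
    (h : lam = 1 + 32 * t) (z : ℂ) :
    z ∈ M6 s (Ideal.span {lam} * c) ↔ R.em lam * z ∈ M6 s c := by
  obtain ⟨S, hS, -, hall⟩ := exists_S6 hb
  obtain ⟨p, r, hpr⟩ := hall t
  have hlamK : algebraMap (𝓞 K) K lam =
      ((1 + 32 * p : ℤ) : K) + 2 ^ (3 - 1) * ((8 * r : ℤ) : K) * s := by
    rw [h, hpr]
    simp only [map_add, map_mul, map_one, map_intCast, map_ofNat, hS]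
    push_cast
    ring
  have hodd : OddI (Ideal.span {lam}) := by
    refine (oddI_span6 hb (x := 1 + 32 * p) (y := 32 * r) (by rw [hlamK]; push_cast; ring)).2 ?_
    exact ⟨16 * p, by ring⟩
  have hne : lam ≠ 0 := by
    intro h0
    rw [h0] at hodd
    simp [OddI] at hodd
  have hem : R.em lam ≠ 0 := by
    simpa [R.em] using hne
  rw [M6_span s hne, order_eq6 hb c (j := 3) (by norm_num) hlamK hodd, ← M6]
  rw [mem_smul86]
  constructor
  · rintro ⟨y, hy, rfl⟩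
    rwa [mul_inv_cancel_left₀ hem]
  · intro hz
    exact ⟨_, hz, by rw [inv_mul_cancel_left₀ hem]⟩

private theorem lam_w6 (hb : B6 K a s) (c : Ideal (𝓞 K)) {lam t : 𝓞 K} (h : lam = 1 + 32 * t) :
    R.em lam * w6 s - w6 s ∈ M6 s c := by
  obtain ⟨S, hS, -, hall⟩ := exists_S6 hb
  obtain ⟨p, r, hpr⟩ := hall t
  have ht : R.em t = p + r * algebraMap K ℂ s := by
    rw [hpr]
    simp only [R.em, map_add, map_mul, map_intCast, hS]
  have hlam : R.em lam = 1 + 32 * R.em t := by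
    rw [h]
    simp only [R.em, map_add, map_mul, map_one, map_ofNat]
  have key : R.em lam * w6 s - w6 s = (p : ℤ) • ((2 : ℂ) ^ 3 * (algebraMap K ℂ s / 2)) +
      (-(4 * a * r) : ℤ) • (1 : ℂ) := by
    rw [hlam, ht, w6, zsmul_eq_mul, zsmul_eq_mul]
    push_cast
    linear_combination (4 * (r : ℂ)) * phi_sq6 hb
  rw [key]
  refine Submodule.mem_sup_left ?_
  rw [La6, Submodule.mem_span_pair]
  exact ⟨_, _, rfl⟩

theorem kron6 (hb : B6 K a s) {Γ : Type*} [LinearOrderedCommGroupWithZero Γ]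
    (V : Valuation ℂ Γ) {l : ℕ} (hl : l.Prime) (hl2 : l ≠ 2) (hla : ¬ l ∣ a)
    {q : Ideal (𝓞 K)} (hq : q.IsPrime) (hql : Ideal.absNorm q = l)
    (hV1 : ∀ x : 𝓞 K, V (algebraMap K ℂ (algebraMap (𝓞 K) K x)) ≤ 1)
    (hV2 : ∀ x : 𝓞 K, V (algebraMap K ℂ (algebraMap (𝓞 K) K x)) < 1 ↔ x ∈ q)
    (hgood : ∀ c : Ideal (𝓞 K), OddI c → V (zc s c) = 1 ∧ V (2 - zc s c ^ 2) = 1)
    {c : Ideal (𝓞 K)} (hc : OddI c) :
    (V (zc s c) ≤ 1 ∧ V (zc s (q * c) - zc s c ^ l) < 1) ∧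
    (V (kc s c) ≤ 1 ∧ V (kc s (q * c) - kc s c ^ l) < 1) ∧
    (V (vc s c) ≤ 1 ∧ V (vc s (q * c) - vc s c ^ l) < 1) := by
  have hlo : Odd l := hl.odd_of_ne_two hl2
  have hqo : OddI q := by
    unfold OddI
    rw [hql]
    exact hlo
  have hq0 : q ≠ ⊥ := by
    rintro rfl
    rw [Ideal.absNorm_bot] at hql
    exact hl.ne_zero hql.symm
  obtain ⟨f, lam, t, hf, hlam, ht⟩ := exists_lam6 hqo hq0
  have hodd : ∀ i, OddI (q ^ i * c) := by
    intro i
    induction i with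
    | zero => rwa [pow_zero, one_mul]
    | succ i ih =>
      rw [pow_succ', mul_assoc]
      exact (oddI_mul q (q ^ i * c)).2 ⟨hqo, ih⟩
  have hlq : (l : 𝓞 K) ∈ q := by
    rw [← hql]
    exact Ideal.absNorm_mem q
  have h2q : (2 : 𝓞 K) ∉ q := by
    intro h
    obtain ⟨k, hk⟩ := hlo
    apply hq.ne_top
    rw [Ideal.eq_top_iff_one]
    have h1 : (1 : 𝓞 K) = (l : 𝓞 K) - (k : 𝓞 K) * 2 := by
      rw [hk]
      push_cast
      ring
    rw [h1]
    exact q.sub_mem hlq (q.mul_mem_left _ h)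
  have h2 : V 2 = 1 := by
    have h3 := hV1 2
    have h4 := mt (hV2 2).1 h2q
    rw [map_ofNat, map_ofNat] at h3 h4
    exact le_antisymm h3 (not_lt.1 h4)
  have hVl : V (l : ℂ) < 1 := by
    have h3 := (hV2 (l : 𝓞 K)).2 hlq
    rwa [map_natCast, map_natCast] at h3
  have hlam0 : R.em (K := K) lam ≠ 0 := by
    intro h
    have h3 : lam = 0 := by
      apply FaithfulSMul.algebraMap_injective (𝓞 K) K
      apply (algebraMap K ℂ).injective
      rw [map_zero, map_zero]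
      exact h
    rw [h3, Ideal.span_singleton_eq_bot.2 rfl] at hlam
    exact hq0 (pow_eq_zero_iff hf.ne' |>.1 hlam)
  have key := kron V hl h2 hVl (N := fun i => M6 s (q ^ i * c)) (w := w6 s)
    (fun i => fr_M6 hb (hodd i))
    (fun i => by
      obtain ⟨u, hu1, hu2, hu3⟩ := step_iv6 hb hl hl2 hq hql (hodd i)
      refine ⟨u, hu1, hu2, ?_⟩
      change M6 s (q ^ (i + 1) * c) = _
      rw [pow_succ', mul_assoc]
      exact hu3) hf hlam0
    (fun z => by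
      change z ∈ M6 s (q ^ f * c) ↔ R.em lam * z ∈ M6 s (q ^ 0 * c)
      rw [pow_zero, one_mul, hlam]
      exact cyc_iv6 hb hc ht z)
    (by
      change R.em lam * w6 s - w6 s ∈ M6 s (q ^ 0 * c)
      exact lam_w6 hb _ ht)
    (val_lam6 hb V hl hl2 hla hq hql hV1 hV2 hf hlam)
    (fun i => hgood _ (hodd i))
  simp only [pow_zero, one_mul, pow_one] at key
  exact key

end Pool.Agent.Work.MP_8efaaa_nt.K6
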