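import Mathlib
import Pool.Agent.Work.MP_8efaaa_nt.R.DFrob
import Pool.Agent.Work.MP_8efaaa_nt.N5.CFrb
import Pool.Agent.Work.MP_8efaaa_nt.K6.AKr

/-!
# K6/CFr (M): the Frobenius elements

Copy of `R/DFrob.lean` (`frob_act`) with `kron6`, and of `N5/CFrb.lean` for the square roots `w d`, `d ∣ a` (finitely many). Here all `l ∣ N` are excluded, so `hgood`
is obtained as in `R/DFrob.lean`. For `l ∤ N` every `d ∣ a` is prime to `l`. -/

set_option autoImplicit false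

namespace Pool.Agent.Work.MP_8efaaa_nt.K6

open NumberField Pool.Agent.Work.CM Pool.Agent.Work.MP_8efaaa_nt.R Pool.Agent.Work.MP_8efaaa_nt.N5

universe u

variable {K : Type u} {F : Type*} [Field K] [NumberField K] [Algebra K ℂ] [Field F] [NumberField F]
  [Algebra K F] [Algebra F ℂ] [IsScalarTower K F ℂ] [IsGalois K F] {a : ℕ} {s : K} {ζ : F}
  {w : ℕ → F} {z k v : Ideal (𝓞 K) → F}

omit [NumberField K] [Algebra K ℂ] [NumberField F] [Algebra K F] [Algebra F ℂ]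
  [IsScalarTower K F ℂ] [IsGalois K F] in
private theorem cfr6_pow {l : ℕ} (hl : l.Prime) (hl2 : l ≠ 2) {d : ℕ} {w : F}
    (hw : w ^ 2 = (d : F)) : ∃ m : ℤ, w ^ l - (jacobiSym d l : ℤ) * w = (l : F) * (m : F) * w := by
  have : Fact l.Prime := ⟨hl⟩
  have h1 := legendreSym.eq_pow l (d : ℤ)
  rw [jacobiSym.legendreSym.to_jacobiSym] at h1
  have h2 : ((jacobiSym (d : ℤ) l : ℤ) : ZMod l) = (((d : ℤ) ^ (l / 2) : ℤ) : ZMod l) := by
    rw [h1]
    push_cast
    rfl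
  rw [ZMod.intCast_eq_intCast_iff_dvd_sub] at h2
  obtain ⟨m, hm⟩ := h2
  refine ⟨m, ?_⟩
  have h3 : l = 2 * (l / 2) + 1 := by
    have := (hl.eq_two_or_odd.resolve_left hl2)
    omega
  have h4 : w ^ l = (d : F) ^ (l / 2) * w := by
    conv_lhs => rw [h3]
    rw [pow_succ, pow_mul, hw]
  have h5 : ((d : F) ^ (l / 2)) - ((jacobiSym (d : ℤ) l : ℤ) : F) = (l : F) * (m : F) := by
    have h6 := congrArg (fun x : ℤ => (x : F)) hm
    push_cast at h6
    exact h6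
  rw [h4, ← h5]
  ring

theorem frob_ma6 (hb : B6 K a s) (h : C6 K F a s ζ w z k v) :
    ∃ N : ℕ, N ≠ 0 ∧ 2 ∣ N ∧ a ∣ N ∧
    ∀ (l : ℕ) (Q : Ideal (𝓞 F)) (σ : F ≃ₐ[K] F), l.Prime → ¬ l ∣ N → Q.IsPrime →
      Ideal.absNorm (Q.comap (algebraMap (𝓞 K) (𝓞 F))) = l → Frb σ Q l →
      MA6 a ζ w z k v σ (Q.comap (algebraMap (𝓞 K) (𝓞 F))) := by
  classical
  have hfd : FiniteDimensional K F := FiniteDimensional.right ℚ K F
  obtain ⟨T, hT⟩ := h.fin
  have hfin : Finite (F ≃ₐ[K] F) := inferInstance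
  have := Fintype.ofFinite (F ≃ₐ[K] F)
  have ha0 : a ≠ 0 := by
    have := hb.mod
    omega
  set D : Finset F := a.divisors.image w with hD
  have hwD : ∀ d, d ∣ a → w d ∈ D := fun d hd =>
    Finset.mem_image_of_mem w (Nat.mem_divisors.2 ⟨hd, ha0⟩)
  set S1 : Finset F := ((T ∪ T.image (fun t => 2 - t ^ 2)) ∪ D) with hS1
  set S2 : Finset F := ((Finset.univ : Finset (F ≃ₐ[K] F)) ×ˢ (T ×ˢ T)).image
    (fun p => p.1 p.2.1 - p.2.2) with hS2
  set S3 : Finset F := ((Finset.univ : Finset (F ≃ₐ[K] F)) ×ˢ Finset.range 8).image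
      (fun p => p.1 ζ - ζ ^ p.2) with hS3
  set S4 : Finset F := ((Finset.univ : Finset (F ≃ₐ[K] F)) ×ˢ (D ×ˢ ({1, -1, 0} : Finset ℤ))).image
      (fun p => p.1 p.2.1 - (p.2.2 : F) * p.2.1) with hS4
  set S : Finset F := ((S1 ∪ S2) ∪ S3) ∪ S4 with hS
  have t1 : ∀ x ∈ S1, x ∈ S := fun x hx => Finset.mem_union_left _ (Finset.mem_union_left _
    (Finset.mem_union_left _ hx))
  have s1 : ∀ t ∈ T, t ∈ S := fun t ht => t1 t (Finset.mem_union_left _
    (Finset.mem_union_left _ ht))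
  have s2 : ∀ t ∈ T, 2 - t ^ 2 ∈ S := fun t ht =>
    t1 _ (Finset.mem_union_left _ (Finset.mem_union_right _
      (Finset.mem_image_of_mem (fun t => 2 - t ^ 2) ht)))
  have sw : ∀ t ∈ D, t ∈ S := fun t ht => t1 t (Finset.mem_union_right _ ht)
  have s3 : ∀ (σ : F ≃ₐ[K] F), ∀ t ∈ T, ∀ t' ∈ T, σ t - t' ∈ S := fun σ t ht t' ht' =>
    Finset.mem_union_left _ (Finset.mem_union_left _ (Finset.mem_union_right _
      (Finset.mem_image.2 ⟨(σ, t, t'), by simp [ht, ht'], rfl⟩)))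
  have s4 : ∀ (σ : F ≃ₐ[K] F) (j : ℕ), j < 8 → σ ζ - ζ ^ j ∈ S := fun σ j hj =>
    Finset.mem_union_left _ (Finset.mem_union_right _
      (Finset.mem_image.2 ⟨(σ, j), by simp [hj], rfl⟩))
  have s5 : ∀ (σ : F ≃ₐ[K] F), ∀ t ∈ D, ∀ j : ℤ, j ∈ ({1, -1, 0} : Finset ℤ) →
      σ t - (j : F) * t ∈ S :=
    fun σ t ht j hj => Finset.mem_union_right _ (Finset.mem_image.2
      ⟨(σ, t, j), Finset.mem_product.2 ⟨Finset.mem_univ _, Finset.mem_product.2 ⟨ht, hj⟩⟩, rfl⟩)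
  obtain ⟨N1, hN1, hg⟩ := good_val S
  obtain ⟨N2, hN2, hf⟩ := frb_val (K := K) (insert ζ (T ∪ D))
  refine ⟨2 * a * N1 * N2, by positivity, ⟨a * N1 * N2, by ring⟩, ⟨2 * N1 * N2, by ring⟩, ?_⟩
  intro l Q σ hl hlN hQ hql hσ
  have hl2 : l ≠ 2 := fun e => hlN (e ▸ ⟨a * N1 * N2, by ring⟩)
  have hla : ¬ l ∣ a := fun e => hlN (e.trans ⟨2 * N1 * N2, by ring⟩)
  have hl1 : ¬ l ∣ N1 := fun e => hlN (e.trans ⟨2 * a * N2, by ring⟩)
  have hl3 : ¬ l ∣ N2 := fun e => hlN (e.trans ⟨2 * a * N1, by ring⟩)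
  obtain ⟨Γ, hΓ, V, hV1, hV2⟩ := exists_val Q hQ
  set q : Ideal (𝓞 K) := Q.comap (algebraMap (𝓞 K) (𝓞 F)) with hq
  have hqp : q.IsPrime := Ideal.IsPrime.comap _
  have hlQ : (l : 𝓞 F) ∈ Q := by
    have h1 : ((Ideal.absNorm q : ℕ) : 𝓞 K) ∈ q := Ideal.absNorm_mem q
    rw [hql, hq, Ideal.mem_comap, map_natCast] at h1
    exact h1
  set V' : Valuation F Γ := V.comap (algebraMap F ℂ) with hV'
  have v1 : ∀ x : 𝓞 F, V' (algebraMap (𝓞 F) F x) ≤ 1 := hV1
  have v2 : ∀ x : 𝓞 F, V' (algebraMap (𝓞 F) F x) < 1 ↔ x ∈ Q := hV2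
  have vl : V' (l : F) < 1 := by
    have h1 := (v2 (l : 𝓞 F)).2 hlQ
    rwa [map_natCast] at h1
  have hgood := hg Γ V' l hl hl1 v1 vl
  have hfrob := hf Γ V' l Q σ hl hl3 v1 v2 vl hσ
  have htower : ∀ x : 𝓞 K, algebraMap K ℂ (algebraMap (𝓞 K) K x) =
      algebraMap F ℂ (algebraMap (𝓞 F) F (algebraMap (𝓞 K) (𝓞 F) x)) := by
    intro x
    rw [IsScalarTower.algebraMap_apply K F ℂ, ← IsScalarTower.algebraMap_apply (𝓞 K) (𝓞 F) F,
      ← IsScalarTower.algebraMap_apply (𝓞 K) K F]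
  have hne : ∀ c, OddI c → z c ≠ 0 ∧ 2 - z c ^ 2 ≠ 0 := by
    intro c hc
    have hfr := fr_M6 hb hc
    have e1 := fz_ne hfr
    have e2 := fz_ne' hfr
    constructor
    · intro e
      apply e1
      have := h.hz c hc
      rw [e, map_zero] at this
      exact this.symm
    · intro e
      apply e2
      have e3 : algebraMap F ℂ (2 - z c ^ 2) = 2 - zc s c ^ 2 := by
        rw [map_sub, map_pow, h.hz c hc, map_ofNat]
      rw [e, map_zero] at e3
      exact e3.symm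
  have hgood' : ∀ c : Ideal (𝓞 K), OddI c → V (zc s c) = 1 ∧ V (2 - zc s c ^ 2) = 1 := by
    intro c hc
    have e3 : algebraMap F ℂ (2 - z c ^ 2) = 2 - zc s c ^ 2 := by
      rw [map_sub, map_pow, h.hz c hc, map_ofNat]
    refine ⟨?_, ?_⟩
    · rw [← h.hz c hc]
      exact (hgood _ (s1 _ (hT c hc).1)).2 (hne c hc).1
    · rw [← e3]
      exact (hgood _ (s2 _ (hT c hc).1)).2 (hne c hc).2
  have hlodd : Odd l := hl.odd_of_ne_two hl2
  -- a difference in `S` of value less than one is zero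
  have hzero : ∀ x y : F, x - y ∈ S → ∀ u : F, V' (x - u) < 1 → V' (y - u) < 1 → x = y := by
    intro x y hxy u h1 h2
    by_contra hne'
    have h3 := (hgood _ hxy).2 (sub_ne_zero.2 hne')
    have h4 : V' (x - y) < 1 := by
      have : x - y = (x - u) - (y - u) := by ring
      rw [this]
      exact V'.map_sub_lt h1 h2
    exact absurd h3 h4.ne
  refine ⟨?_, ?_, ?_⟩
  · intro c hc
    have hqc : OddI (q * c) := by
      unfold OddI at hc ⊢
      rw [map_mul, hql]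
      exact hlodd.mul hc
    obtain ⟨k1, k2, k3⟩ := kron6 hb V hl hl2 hla hqp hql
      (fun x => by rw [htower]; exact hV1 _) (fun x => by rw [htower, hV2, hq, Ideal.mem_comap])
      hgood' hc
    refine ⟨?_, ?_, ?_⟩
    · refine hzero _ _ (s3 σ _ (hT c hc).1 _ (hT _ hqc).1) (z c ^ l)
        (hfrob _ (Finset.mem_insert_of_mem (Finset.mem_union_left _ (hT c hc).1))) ?_
      have e : V' (z (q * c) - z c ^ l) = V (zc s (q * c) - zc s c ^ l) := by
        rw [hV', Valuation.comap_apply, map_sub, map_pow, h.hz _ hqc, h.hz _ hc]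
      rw [e]
      exact k1.2
    · refine hzero _ _ (s3 σ _ (hT c hc).2.1 _ (hT _ hqc).2.1) (k c ^ l)
        (hfrob _ (Finset.mem_insert_of_mem (Finset.mem_union_left _ (hT c hc).2.1))) ?_
      have e : V' (k (q * c) - k c ^ l) = V (kc s (q * c) - kc s c ^ l) := by
        rw [hV', Valuation.comap_apply, map_sub, map_pow, h.hk _ hqc, h.hk _ hc]
      rw [e]
      exact k2.2
    · refine hzero _ _ (s3 σ _ (hT c hc).2.2 _ (hT _ hqc).2.2) (v c ^ l)
        (hfrob _ (Finset.mem_insert_of_mem (Finset.mem_union_left _ (hT c hc).2.2))) ?_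
      have e : V' (v (q * c) - v c ^ l) = V (vc s (q * c) - vc s c ^ l) := by
        rw [hV', Valuation.comap_apply, map_sub, map_pow, h.hv _ hqc, h.hv _ hc]
      rw [e]
      exact k3.2
  · rw [hql]
    have h1 := hfrob ζ (Finset.mem_insert_self _ _)
    have h8 : ζ ^ 8 = 1 := by
      have : ζ ^ 8 = (ζ ^ 4) ^ 2 := by ring
      rw [this, h.z8]
      ring
    have h2 : ζ ^ l = ζ ^ (l % 8) := by
      conv_lhs => rw [← Nat.div_add_mod l 8, pow_add, pow_mul, h8, one_pow, one_mul]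
    rw [h2]
    refine hzero _ _ (s4 σ _ (Nat.mod_lt _ (by norm_num))) (ζ ^ l) h1 ?_
    rw [← h2, sub_self, map_zero]
    exact zero_lt_one
  · rw [hql]
    intro d hd _
    have h1 := hfrob (w d) (Finset.mem_insert_of_mem (Finset.mem_union_right _ (hwD d hd)))
    obtain ⟨m, hm⟩ := cfr6_pow hl hl2 (h.hw d hd)
    have hj : (jacobiSym (d : ℤ) l : ℤ) ∈ ({1, -1, 0} : Finset ℤ) := by
      rcases jacobiSym.trichotomy (d : ℤ) l with h2 | h2 | h2 <;> simp [h2]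
    refine hzero _ _ (s5 σ _ (hwD d hd) _ hj) (w d ^ l) h1 ?_
    have e : ((jacobiSym (d : ℤ) l : ℤ) : F) * w d - w d ^ l =
        -((l : F) * ((m : F) * w d)) := by
      rw [← neg_sub, hm, mul_assoc]
    rw [e, Valuation.map_neg, map_mul]
    have hmw : V' ((m : F) * w d) ≤ 1 := by
      rw [map_mul]
      have hm1 : V' (m : F) ≤ 1 := by
        have h2 := v1 (m : 𝓞 F)
        rwa [map_intCast] at h2
      exact mul_le_one' hm1 (hgood (w d) (sw _ (hwD d hd))).1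
    calc V' (l : F) * V' ((m : F) * w d) ≤ V' (l : F) * 1 := mul_le_mul_right hmw _
      _ = V' (l : F) := mul_one _
      _ < 1 := vl

end Pool.Agent.Work.MP_8efaaa_nt.K6
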