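import Mathlib
import Pool.Agent.Work.CM.Rep
import Pool.Agent.Work.CM.Tw3
import Pool.Agent.Work.MP_787500_nt.HC.LatB
import Pool.Agent.Work.MP_787500_nt.HC.LatC
import Pool.Agent.Work.MP_787500_nt.HC.ClsA
import Pool.Agent.Work.MP_8efaaa_nt.T.Quad
import Pool.Agent.Work.MP_8efaaa_nt.R.CfDefs
import Pool.Agent.Work.MP_8efaaa_nt.R.CfA
import Pool.Agent.Work.MP_8efaaa_nt.R.CfC
import Pool.Agent.Work.MP_8efaaa_nt.K6.ALa

/-!
# K6/AFa (M): finitely many chains of lattices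

Copy of `R/CfB.lean` and `R/CfC.lean` with `La6` instead of `La` (`BCh` of `R/CfDefs.lean` is general). -/

set_option autoImplicit false

namespace Pool.Agent.Work.MP_8efaaa_nt.K6

open NumberField Pool.Agent.Work.CM Pool.Agent.Work.MP_8efaaa_nt.R
open Pool.Agent.Work.MP_787500_nt.HC
open scoped Pointwise nonZeroDivisors

variable {K : Type*} [Field K] [NumberField K] [Algebra K ℂ] {a : ℕ} {s : K}

omit [Algebra K ℂ] in
open Pool.Agent.Work.MP_787500_nt Pool.Agent.Work.MP_787500_nt.Quad in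
private theorem int_coords6 (hK : Module.finrank ℚ K = 2) (hs : s ^ 2 = -(a : K))
    (hq : Squarefree a) (hq4 : a % 8 = 6) {x : K} (hx : IsIntegral ℤ x) :
    ∃ u v : ℤ, x = (u : K) + v * s := by
  obtain ⟨b, c, rfl⟩ := exists_coords hK hs (Nat.pos_of_ne_zero hq.ne_zero) x
  have φ : K →+* ℂ := Classical.arbitrary _
  obtain ⟨h1, h2⟩ := emb_re_im hs (Nat.pos_of_ne_zero hq.ne_zero) φ
  set x := (b : K) + c * s with hxdef
  have i1 : IsIntegral ℤ (φ x) := map_isIntegral_int φ hx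
  have i2 : IsIntegral ℤ ((starRingEnd ℂ) (φ x)) := map_isIntegral_int (starRingEnd ℂ) i1
  have hφx : φ x = ((b : ℝ) + c * (φ s).re : ℝ) + ((c : ℝ) * (φ s).im : ℝ) * Complex.I := by
    rw [hxdef, map_add, map_mul, map_ratCast, map_ratCast]
    apply Complex.ext <;> simp
  have i3 : IsIntegral ℤ ((2 * b : ℚ) : ℂ) := by
    have := i1.add i2
    have e : φ x + (starRingEnd ℂ) (φ x) = ((2 * b : ℚ) : ℂ) := by
      rw [Complex.add_conj, hφx, h1]
      simp
    rwa [e] at this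
  have i4 : IsIntegral ℤ ((b ^ 2 + a * c ^ 2 : ℚ) : ℂ) := by
    have := i1.mul i2
    have e : φ x * (starRingEnd ℂ) (φ x) = ((b ^ 2 + a * c ^ 2 : ℚ) : ℂ) := by
      rw [Complex.mul_conj, hxdef, normSq_emb hs (Nat.pos_of_ne_zero hq.ne_zero)]
      push_cast
      ring
    rwa [e] at this
  obtain ⟨t, ht⟩ := int_of_isIntegral_rat (q := 2 * b) (by
    have := (isIntegral_algebraMap_iff (R := ℤ) (A := ℚ) (B := ℂ) (x := 2 * b)
      (algebraMap ℚ ℂ).injective).1 (by simpa using i3)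
    exact this)
  obtain ⟨n, hn⟩ := int_of_isIntegral_rat (q := b ^ 2 + a * c ^ 2) (by
    have := (isIntegral_algebraMap_iff (R := ℤ) (A := ℚ) (B := ℂ)
      (x := b ^ 2 + a * c ^ 2) (algebraMap ℚ ℂ).injective).1 (by simpa using i4)
    exact this)
  have h7 : (a : ℚ) * (2 * c) ^ 2 = ((4 * n - t ^ 2 : ℤ) : ℚ) := by
    push_cast
    rw [ht, hn]; ring
  have hbi : IsIntegral ℤ ((a : ℚ) * (2 * c)) := by
    have h8 : IsIntegral ℤ (((a : ℚ) * (2 * c)) ^ 2) := by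
      rw [show ((a : ℚ) * (2 * c)) ^ 2 = ((a * (4 * n - t ^ 2) : ℤ) : ℚ) by
        push_cast; push_cast at h7; rw [← h7]; ring]
      exact isIntegral_algebraMap (R := ℤ) (x := a * (4 * n - t ^ 2))
    exact IsIntegral.of_pow (by norm_num) h8
  obtain ⟨e, hc⟩ := int_of_isIntegral_rat hbi
  have h9 : e ^ 2 = a * (4 * n - t ^ 2) := by
    have : (e : ℚ) ^ 2 = a * ((4 * n - t ^ 2 : ℤ) : ℚ) := by rw [hc, ← h7]; ring
    exact_mod_cast this
  have h10 : (a : ℤ) ∣ e := by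
    have h11 : (a : ℤ) ∣ e ^ 2 := ⟨_, h9⟩
    exact (Squarefree.dvd_pow_iff_dvd (Int.squarefree_natCast.2 hq) two_ne_zero).1 h11
  obtain ⟨d, rfl⟩ := h10
  have hq0 : (a : ℚ) ≠ 0 := by exact_mod_cast hq.ne_zero
  have hbd : 2 * c = d := by
    have : (a : ℚ) * (2 * c) = a * d := by rw [← hc]; push_cast; ring
    exact mul_left_cancel₀ hq0 this
  have hq0' : (a : ℤ) ≠ 0 := by exact_mod_cast hq.ne_zero
  have h12 : a * d ^ 2 = 4 * n - t ^ 2 := by
    have : (a : ℤ) * (a * d ^ 2) = a * (4 * n - t ^ 2) := by rw [← h9]; ring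
    exact mul_left_cancel₀ hq0' this
  obtain ⟨k, hk⟩ : ∃ k : ℕ, a = 4 * k + 2 := ⟨a / 4, by omega⟩
  have h13 : t ^ 2 + 2 * d ^ 2 = 4 * (n - k * d ^ 2) := by
    rw [hk] at h12
    push_cast at h12
    linear_combination h12
  have h14 : Even t ∧ Even d := by
    rcases Int.even_or_odd' t with ⟨t', ht' | ht'⟩ <;> rcases Int.even_or_odd' d with ⟨d', hd' | hd'⟩
    · exact ⟨⟨t', by omega⟩, ⟨d', by omega⟩⟩
    · exfalso
      rw [ht', hd'] at h13
      ring_nf at h13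
      omega
    · exfalso
      rw [ht', hd'] at h13
      ring_nf at h13
      omega
    · exfalso
      rw [ht', hd'] at h13
      ring_nf at h13
      omega
  obtain ⟨⟨t', rfl⟩, ⟨d', rfl⟩⟩ := h14
  refine ⟨t', d', ?_⟩
  have h15 : b = (t' : ℚ) := by push_cast at ht; linarith
  have h16 : c = (d' : ℚ) := by push_cast at hbd; linarith
  rw [hxdef, h15, h16]
  push_cast
  rfl

open Pool.Agent.Work.MP_787500_nt Pool.Agent.Work.MP_787500_nt.Quad in
private theorem mem_lat_one (hb : B6 K a s) (z : ℂ) : z ∈ lat (1 : Idl K) ↔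
    ∃ u v : ℤ, z = u + v * algebraMap K ℂ s := by
  rw [mem_lat]
  constructor
  · rintro ⟨x, hx1, rfl⟩
    rw [Units.val_one, FractionalIdeal.mem_one_iff] at hx1
    obtain ⟨y, rfl⟩ := hx1
    obtain ⟨u, v, h⟩ := int_coords6 hb.dim hb.sq hb.sf hb.mod y.isIntegral_coe
    refine ⟨u, v, ?_⟩
    have h2 := congrArg (algebraMap K ℂ) h
    rw [map_add, map_mul, map_intCast, map_intCast] at h2
    exact h2
  · rintro ⟨u, v, rfl⟩
    obtain ⟨S, hS, -⟩ := exists_int_s hb.sq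
    refine ⟨algebraMap (𝓞 K) K ((u : 𝓞 K) + (v : 𝓞 K) * S), ?_, ?_⟩
    · rw [Units.val_one, FractionalIdeal.mem_one_iff]
      exact ⟨_, rfl⟩
    · rw [map_add, map_mul, map_intCast, map_intCast, hS, map_add, map_mul, map_intCast,
        map_intCast]

open Pool.Agent.Work.MP_787500_nt Pool.Agent.Work.MP_787500_nt.Quad in
private theorem isLat_one6 (hb : B6 K a s) : IsLat (lat (1 : Idl K)) := by
  obtain ⟨hre, him⟩ := emb_re_im hb.sq (Nat.pos_of_ne_zero hb.sf.ne_zero) (algebraMap K ℂ)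
  have hq0 : (0 : ℝ) < a := by exact_mod_cast (Nat.pos_of_ne_zero hb.sf.ne_zero)
  have hims : (algebraMap K ℂ s).im ≠ 0 := by
    intro h0
    rw [h0] at him
    norm_num at him
    rw [← him] at hq0
    exact lt_irrefl _ hq0
  have hind : LinearIndependent ℝ ![(1 : ℂ), algebraMap K ℂ s] := by
    rw [LinearIndependent.pair_iff]
    intro x y hxy
    rw [Complex.real_smul, Complex.real_smul] at hxy
    have h1 := congrArg Complex.im hxy
    have h2 := congrArg Complex.re hxy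
    simp at h1 h2
    have hy : y = 0 := by
      rcases h1 with h1 | h1
      · exact h1
      · exact absurd h1 hims
    rw [hy] at h2
    simp at h2
    exact ⟨h2, hy⟩
  refine ⟨⟨1, algebraMap K ℂ s, hind⟩, ?_⟩
  ext z
  rw [PeriodPair.mem_lattice, mem_lat_one hb]
  constructor
  · rintro ⟨m, n, rfl⟩
    exact ⟨m, n, by rw [mul_one]⟩
  · rintro ⟨u, v, rfl⟩
    exact ⟨u, v, by rw [mul_one]⟩

theorem isLat_lat6 (hb : B6 K a s) (I : Idl K) : IsLat (lat I) := by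
  have h1 := isLat_one6 hb
  obtain ⟨x, hx, hx0⟩ : ∃ x : K, x ∈ (I : FractionalIdeal (𝓞 K)⁰ K) ∧ x ≠ 0 := by
    have hne : ((I : FractionalIdeal (𝓞 K)⁰ K) : Submodule (𝓞 K) K) ≠ ⊥ := by
      intro h0
      exact I.ne_zero (FractionalIdeal.coeToSubmodule_eq_bot.1 h0)
    obtain ⟨x, hx, hx0⟩ := Submodule.exists_mem_ne_zero_of_ne_bot hne
    exact ⟨x, hx, hx0⟩
  obtain ⟨d, hd, hdI⟩ := (I : FractionalIdeal (𝓞 K)⁰ K).isFractional
  have hd0 : d ≠ 0 := nonZeroDivisors.ne_zero hd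
  have hdK : algebraMap (𝓞 K) K d ≠ 0 := by
    intro h0
    exact hd0 ((FaithfulSMul.algebraMap_injective (𝓞 K) K) (by rw [h0, map_zero]))
  have hm : algebraMap K ℂ x ≠ 0 := (map_ne_zero _).2 hx0
  have hd' : algebraMap K ℂ (algebraMap (𝓞 K) K d)⁻¹ ≠ 0 := (map_ne_zero _).2 (inv_ne_zero hdK)
  refine isLat_of_sandwich h1 (h1.smul hd') hm ?_ ?_
  · have h2 := lat_prin (Units.mk0 x hx0) (1 : Idl K)
    rw [Units.val_mk0] at h2
    rw [← h2, lat_le, mul_one]
    unfold prin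
    rw [coe_toPrincipalIdeal, Units.val_mk0, FractionalIdeal.spanSingleton_le_iff_mem]
    exact hx
  · have h2 := lat_prin (Units.mk0 (algebraMap (𝓞 K) K d) hdK)⁻¹ (1 : Idl K)
    rw [Units.val_inv_eq_inv_val, Units.val_mk0] at h2
    rw [← h2, lat_le, mul_one]
    unfold prin
    rw [coe_toPrincipalIdeal]
    intro y hy
    obtain ⟨b, hb'⟩ := hdI y hy
    rw [Units.val_inv_eq_inv_val, Units.val_mk0, FractionalIdeal.mem_spanSingleton]
    refine ⟨b, ?_⟩
    rw [Algebra.smul_def, hb', Algebra.smul_def, mul_comm, ← mul_assoc, inv_mul_cancel₀ hdK,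
      one_mul]

private theorem mem_La63 (s : K) (z : ℂ) : z ∈ La6 s 3 ↔
    ∃ u v : ℤ, z = u + 4 * v * algebraMap K ℂ s := by
  unfold La6
  rw [Submodule.mem_span_pair]
  constructor
  · rintro ⟨m, n, rfl⟩
    refine ⟨n, m, ?_⟩
    rw [zsmul_eq_mul, zsmul_eq_mul]
    push_cast
    ring
  · rintro ⟨u, v, rfl⟩
    refine ⟨v, u, ?_⟩
    rw [zsmul_eq_mul, zsmul_eq_mul]
    push_cast
    ring

theorem La_ring6 (hb : B6 K a s) : IsLat (La6 s 3) ∧ InK K (La6 s 3) ∧ (1 : ℂ) ∈ La6 s 3 ∧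
    La6 s 3 * La6 s 3 ≤ La6 s 3 ∧ La6 s 3 ≤ lat (1 : Idl K) ∧
    (4 : ℂ) • lat (1 : Idl K) ≤ La6 s 3 := by
  have hs2 : algebraMap K ℂ s ^ 2 = -(a : ℂ) := by
    rw [← map_pow, hb.sq, map_neg, map_natCast]
  have h1 := isLat_one6 hb
  have hle : La6 s 3 ≤ lat (1 : Idl K) := by
    intro z hz
    obtain ⟨u, v, rfl⟩ := (mem_La63 s z).1 hz
    rw [mem_lat_one hb]
    exact ⟨u, 4 * v, by push_cast; ring⟩
  have h4 : (4 : ℂ) • lat (1 : Idl K) ≤ La6 s 3 := by
    intro z hz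
    rw [Submodule.mem_smul_pointwise_iff_exists] at hz
    obtain ⟨y, hy, rfl⟩ := hz
    obtain ⟨u, v, rfl⟩ := (mem_lat_one hb y).1 hy
    rw [mem_La63]
    exact ⟨4 * u, v, by rw [smul_eq_mul]; push_cast; ring⟩
  refine ⟨isLat_of_sandwich h1 h1 (m := 4) (by norm_num) h4 hle, ?_, ?_, ?_, hle, h4⟩
  · intro l hl
    exact inK_lat 1 l (hle hl)
  · rw [mem_La63]
    exact ⟨1, 0, by push_cast; ring⟩
  · rw [Submodule.mul_le]
    intro x hx y hy
    obtain ⟨u, v, rfl⟩ := (mem_La63 s x).1 hx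
    obtain ⟨u', v', rfl⟩ := (mem_La63 s y).1 hy
    rw [mem_La63]
    refine ⟨u * u' - 16 * a * v * v', u * v' + u' * v, ?_⟩
    push_cast
    linear_combination (16 * (v : ℂ) * v') * hs2

omit [NumberField K] in
private theorem inK_mul {A B : Submodule ℤ ℂ} (hA : InK K A) (hB : InK K B) : InK K (A * B) := by
  intro l hl
  refine Submodule.mul_induction_on (C := fun l => ∃ x : K, algebraMap K ℂ x = l) hl ?_ ?_
  · intro m hm n hn
    obtain ⟨x, hx⟩ := hA m hm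
    obtain ⟨y, hy⟩ := hB n hn
    exact ⟨x * y, by rw [map_mul, hx, hy]⟩
  · rintro x y ⟨u, hu⟩ ⟨v, hv⟩
    exact ⟨u + v, by rw [map_add, hu, hv]⟩

private theorem nat_mul_mem {A : Submodule ℤ ℂ} {z : ℂ} (hz : z ∈ A) (n : ℕ) : (n : ℂ) * z ∈ A := by
  have h := A.smul_mem (n : ℤ) hz
  rw [zsmul_eq_mul, Int.cast_natCast] at h
  exact h

omit [NumberField K] in
private theorem chain_le {L : ℕ → Submodule ℤ ℂ} {B : Submodule ℤ ℂ} (h : BCh K B L) (k : ℕ)
    (hk : k ≤ 5) : L k ≤ L 0 ∧ ∀ z ∈ L 0, (2 : ℂ) ^ k * z ∈ L k := by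
  induction k with
  | zero => exact ⟨le_rfl, fun z hz => by rwa [pow_zero, one_mul]⟩
  | succ k ih =>
    obtain ⟨h1, h2⟩ := ih (by omega)
    have h3 := h.two k (by omega)
    refine ⟨h3.le.trans h1, fun z hz => ?_⟩
    have h4 := h3.two_mem (h2 z hz)
    have e : (2 : ℂ) ^ (k + 1) * z = 2 * (2 ^ k * z) := by ring
    rwa [e]

private theorem one_chain (hb : B6 K a s) (L : ℕ → Submodule ℤ ℂ) (hL : BCh K (La6 s 3) L) :
    ∃ (C : ClassGroup (𝓞 K)) (m : ℂ), m ≠ 0 ∧ ∀ k ≤ 5,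
      (128 : ℂ) • lat (Function.surjInv (cl_surjective (K := K)) C) ≤ m • L k ∧
        m • L k ≤ lat (Function.surjInv (cl_surjective (K := K)) C) := by
  obtain ⟨-, -, -, -, -, hr⟩ := La_ring6 hb
  have hL0 : IsLat (L 0) := (hL.two 0 (by norm_num)).lat'
  have h4 : (4 : ℂ) ≠ 0 := by norm_num
  have h4i : (4 : ℂ)⁻¹ ≠ 0 := inv_ne_zero h4
  set Λ : Submodule ℤ ℂ := lat (1 : Idl K) * L 0 with hΛ
  have hle : L 0 ≤ Λ := by
    intro z hz
    have h := Submodule.mul_mem_mul (one_mem_lat (K := K)) hz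
    rwa [one_mul] at h
  have hquart : ∀ z ∈ Λ, 4 * z ∈ L 0 := by
    intro z hz
    refine Submodule.mul_induction_on (C := fun z => 4 * z ∈ L 0) hz ?_ ?_
    · intro m hm n hn
      have h1 : 4 * m ∈ La6 s 3 := hr ((mem_smul_iff h4).2 hm)
      have h2 := hL.stab 0 (by norm_num) (Submodule.mul_mem_mul h1 hn)
      rwa [mul_assoc] at h2
    · intro x y hx hy
      have h := add_mem hx hy
      rwa [← mul_add] at h
  have hle2 : Λ ≤ (4 : ℂ)⁻¹ • L 0 := by
    intro z hz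
    have h := (mem_smul_iff (L := L 0) h4i (z := 4 * z)).2 (hquart z hz)
    rwa [← mul_assoc, inv_mul_cancel₀ h4, one_mul] at h
  have hΛlat : IsLat Λ := isLat_of_sandwich (m := (1 : ℂ)) hL0 (hL0.smul h4i) one_ne_zero
    (by rw [one_smul]; exact hle) hle2
  have hΛK : InK K Λ := inK_mul (inK_lat 1) (hL.inK 0 (by norm_num))
  have hΛm : lat (1 : Idl K) * Λ ≤ Λ := by
    rw [hΛ, ← mul_assoc]
    exact Submodule.mul_le.2 fun m hm n hn => Submodule.mul_mem_mul (lat_one_mul (K := K) 1 hm) hn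
  obtain ⟨J, hJ⟩ := exists_lat hΛlat hΛK hΛm
  have hcl : cl (Function.surjInv (cl_surjective (K := K)) (cl J)) = cl J :=
    Function.surjInv_eq _ _
  obtain ⟨x, hx⟩ := cl_eq_iff.1 hcl
  set I : Idl K := Function.surjInv (cl_surjective (K := K)) (cl J) with hI
  set y : ℂ := algebraMap K ℂ (x : K) with hy
  have hy0 : y ≠ 0 := by
    rw [hy]
    exact (map_ne_zero _).2 x.ne_zero
  have hΛI : Λ = y • lat I := by
    rw [hJ, hx, lat_prin]
  refine ⟨cl J, y⁻¹, inv_ne_zero hy0, fun k hk => ?_⟩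
  obtain ⟨c1, c2⟩ := chain_le hL k hk
  constructor
  · intro z hz
    rw [Submodule.mem_smul_pointwise_iff_exists] at hz
    obtain ⟨w, hw, rfl⟩ := hz
    have h1 : y * w ∈ Λ := by
      rw [hΛI]
      exact (mem_smul_iff hy0).2 hw
    have h2 := c2 _ (hquart _ h1)
    have h3 := nat_mul_mem h2 (2 ^ (5 - k))
    have h5 : ((2 ^ (5 - k) : ℕ) : ℂ) * (2 ^ k * (4 * (y * w))) = y * (128 * w) := by
      have h6 : (2 : ℂ) ^ (5 - k) * 2 ^ k = 32 := by
        rw [← pow_add, Nat.sub_add_cancel hk]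
        norm_num
      push_cast
      linear_combination (4 * (y * w)) * h6
    rw [h5] at h3
    have h7 := (mem_smul_iff (L := L k) (inv_ne_zero hy0) (z := y * (128 * w))).2 h3
    rw [← mul_assoc, inv_mul_cancel₀ hy0, one_mul] at h7
    exact h7
  · intro z hz
    rw [Submodule.mem_smul_pointwise_iff_exists] at hz
    obtain ⟨w, hw, rfl⟩ := hz
    have h1 : w ∈ Λ := hle (c1 hw)
    rw [hΛI, Submodule.mem_smul_pointwise_iff_exists] at h1
    obtain ⟨v, hv, rfl⟩ := h1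
    rw [smul_smul, inv_mul_cancel₀ hy0, one_smul]
    exact hv

theorem finite_chains6 (hb : B6 K a s) : ∃ S : Set (Fin 6 → Submodule ℤ ℂ), S.Finite ∧
    ∀ L : ℕ → Submodule ℤ ℂ, BCh K (La6 s 3) L →
      ∃ m : ℂ, m ≠ 0 ∧ (fun k : Fin 6 => m • L k) ∈ S := by
  classical
  refine ⟨⋃ C : ClassGroup (𝓞 K), {g : Fin 6 → Submodule ℤ ℂ | ∀ k, g k ∈ {X : Submodule ℤ ℂ |
    (128 : ℂ) • lat (Function.surjInv (cl_surjective (K := K)) C) ≤ X ∧
      X ≤ lat (Function.surjInv (cl_surjective (K := K)) C)}}, ?_, ?_⟩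
  · refine Set.finite_iUnion fun C => Set.Finite.pi' fun _ => ?_
    have hl := isLat_lat6 hb (Function.surjInv (cl_surjective (K := K)) C)
    refine finite_between (hl.smul (by norm_num)) hl ?_
    intro z hz
    rw [Submodule.mem_smul_pointwise_iff_exists] at hz
    obtain ⟨w, hw, rfl⟩ := hz
    have h := nat_mul_mem hw 128
    rw [smul_eq_mul]
    exact_mod_cast h
  · intro L hL
    obtain ⟨C, m, hm, h⟩ := one_chain hb L hL
    refine ⟨m, hm, Set.mem_iUnion.2 ⟨C, fun k => ?_⟩⟩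
    exact h k (by have := k.2; omega)

end Pool.Agent.Work.MP_8efaaa_nt.K6
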