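import Mathlib
import Pool.Agent.Work.CM.Ext2
import Pool.Agent.Work.CM.Kl2
import Pool.Agent.Work.CM.Tw3
import Pool.Agent.Work.MP_8efaaa_nt.R.CfE
import Pool.Agent.Work.MP_8efaaa_nt.K6.AFa

/-!
# K6/AFb (M): the quotients of the numbers `tj` are algebraic and finite in number

Copy of `R/CfD.lean` and `R/CfE.lean` with `La6` instead of `La`. -/

set_option autoImplicit false

namespace Pool.Agent.Work.MP_8efaaa_nt.K6

open NumberField Pool.Agent.Work.CM Pool.Agent.Work.MP_8efaaa_nt.R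
open Pool.Agent.Work.MP_787500_nt.HC
open scoped Pointwise nonZeroDivisors

variable {K : Type*} [Field K] [NumberField K] [Algebra K ℂ] {a : ℕ} {s : K}

omit [NumberField K] in
private theorem cfd_lat {B : Submodule ℤ ℂ} {L : ℕ → Submodule ℤ ℂ} (hL : BCh K B L) {k : ℕ}
    (hk : k ≤ 5) : IsLat (L k) := by
  rcases Nat.lt_or_ge k 5 with h | h
  · exact (hL.two k h).lat'
  · have e : k = 4 + 1 := by omega
    rw [e]
    exact (hL.two 4 (by norm_num)).lat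

omit [NumberField K] in
private theorem cfd_inK {A D : Submodule ℤ ℂ} (hA : InK K A) (hD : InK K D) : InK K (A * D) := by
  intro z hz
  refine Submodule.mul_induction_on (C := fun z => ∃ x : K, algebraMap K ℂ x = z) hz ?_ ?_
  · intro m hm n hn
    obtain ⟨x, hx⟩ := hA m hm
    obtain ⟨y, hy⟩ := hD n hn
    exact ⟨x * y, by rw [map_mul, hx, hy]⟩
  · rintro _ _ ⟨x, rfl⟩ ⟨y, rfl⟩
    exact ⟨x + y, map_add _ _ _⟩

theorem bch_conj6 (hb : B6 K a s) {L : ℕ → Submodule ℤ ℂ} (hL : BCh K (La6 s 3) L)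
    (τ : ℂ ≃ₐ[K] ℂ) : ∃ L' : ℕ → Submodule ℤ ℂ, BCh K (La6 s 3) L' ∧
      ∀ j ≤ 3, ∀ k ≤ 3, τ (tj L j / tj L k) = tj L' j / tj L' k := by
  obtain ⟨hB, hBK, h1, hBB, -, -⟩ := La_ring6 hb
  obtain ⟨μ, D, hμ, hD, hDK, hBD, hall⟩ := conj_eq τ hB hBK h1 hBB
  have hc : ∀ k ≤ 5, CM.conj (τ : ℂ ≃+* ℂ) (L k) = μ • (L k * D) := fun k hk =>
    hall (L k) (cfd_lat hL hk) (hL.inK k hk) (hL.stab k hk)
  have hT : ∀ k < 5, Two (L (k + 1) * D) (L k * D) ∧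
      ev (L (k + 1) * D) (L k * D) = μ ^ 2 * τ (ev (L (k + 1)) (L k)) := by
    intro k hk
    obtain ⟨t1, t2⟩ := Two.conj (τ : ℂ ≃+* ℂ) (hL.two k hk)
    rw [hc _ (by omega), hc _ (by omega)] at t1 t2
    obtain ⟨t3, t4⟩ := Two.smul (inv_ne_zero hμ) t1
    rw [inv_smul_smul₀ hμ, inv_smul_smul₀ hμ] at t3 t4
    refine ⟨t3, ?_⟩
    rw [t4, t2, inv_pow, inv_inv]
    rfl
  refine ⟨fun k => L k * D, ⟨fun k hk => (hT k hk).1, fun k hk => cfd_inK (hL.inK k hk) hDK,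
    fun k hk => ?_⟩, fun j hj k hk => ?_⟩
  · rw [← mul_assoc]
    exact mul_le_mul' (hL.stab k hk) le_rfl
  · have e : ∀ j ≤ 3, tj (fun k => L k * D) j = μ ^ 2 * τ (tj L j) := by
      intro j hj
      unfold tj
      rw [(hT j (by omega)).2, (hT (j + 1) (by omega)).2, map_add, map_mul, map_ofNat]
      ring
    rw [e j hj, e k hk, map_div₀, mul_div_mul_left _ _ (pow_ne_zero 2 hμ)]

/-- extension by zero of a finite family -/
private def xt (f : Fin 6 → Submodule ℤ ℂ) (n : ℕ) : Submodule ℤ ℂ :=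
  if h : n < 6 then f ⟨n, h⟩ else ⊥

omit [NumberField K] in
private theorem tj_smul {B : Submodule ℤ ℂ} {L : ℕ → Submodule ℤ ℂ} (hL : BCh K B L) {m : ℂ}
    (hm : m ≠ 0) {j : ℕ} (hj : j ≤ 3) :
    tj (xt fun k : Fin 6 => m • L k) j = (m ^ 2)⁻¹ * tj L j := by
  have h1 : ∀ k < 5, ev (xt (fun k : Fin 6 => m • L k) (k + 1)) (xt (fun k : Fin 6 => m • L k) k) =
      (m ^ 2)⁻¹ * ev (L (k + 1)) (L k) := by
    intro k hk
    have h2 := ((hL.two k hk).smul hm).2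
    unfold xt
    rw [dif_pos (show k + 1 < 6 by omega), dif_pos (show k < 6 by omega)]
    exact h2
  unfold tj
  rw [h1 j (by omega), h1 (j + 1) (by omega)]
  ring

theorem tj_fin6 (hb : B6 K a s) : ∃ T : Finset ℂ, (∀ z ∈ T, IsAlgebraic K z) ∧
    ∀ L : ℕ → Submodule ℤ ℂ, BCh K (La6 s 3) L → ∀ j ≤ 3, ∀ k ≤ 3, tj L j / tj L k ∈ T := by
  obtain ⟨S, hS, hSL⟩ := finite_chains6 hb
  have hfin : {z : ℂ | ∃ L : ℕ → Submodule ℤ ℂ, BCh K (La6 s 3) L ∧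
      ∃ j ≤ 3, ∃ k ≤ 3, z = tj L j / tj L k}.Finite := by
    refine ((hS.prod ((Set.finite_Iic 3).prod (Set.finite_Iic 3))).image
      fun p : (Fin 6 → Submodule ℤ ℂ) × ℕ × ℕ => tj (xt p.1) p.2.1 / tj (xt p.1) p.2.2).subset ?_
    rintro z ⟨L, hL, j, hj, k, hk, rfl⟩
    obtain ⟨m, hm, hmS⟩ := hSL L hL
    refine ⟨(fun k : Fin 6 => m • L k, j, k), ⟨hmS, hj, hk⟩, ?_⟩
    change tj (xt fun k : Fin 6 => m • L k) j / tj (xt fun k : Fin 6 => m • L k) k = _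
    rw [tj_smul hL hm hj, tj_smul hL hm hk,
      mul_div_mul_left _ _ (inv_ne_zero (pow_ne_zero 2 hm))]
  refine ⟨hfin.toFinset, fun z hz => ?_, fun L hL j hj k hk => ?_⟩
  · obtain ⟨L, hL, j, hj, k, hk, rfl⟩ := hfin.mem_toFinset.1 hz
    refine algebraic_of_finite (hfin.subset ?_)
    rintro w ⟨τ, rfl⟩
    obtain ⟨L', hL', h⟩ := bch_conj6 hb hL τ
    exact ⟨L', hL', j, hj, k, hk, h j hj k hk⟩
  · exact hfin.mem_toFinset.2 ⟨L, hL, j, hj, k, hk, rfl⟩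

end Pool.Agent.Work.MP_8efaaa_nt.K6
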