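import Mathlib
import Pool.Agent.Work.MP_8efaaa_nt.R.CfF
import Pool.Agent.Work.MP_8efaaa_nt.R.CfG
import Pool.Agent.Work.MP_8efaaa_nt.R.CfH
import Pool.Agent.Work.MP_8efaaa_nt.K6.AFb

/-!
# K6/AFc (M): the values are algebraic and finite in number

Copy of `R/CfG.lean` and `R/CfH.lean` with `M6`, `w6`, `La6`. -/

set_option autoImplicit false

namespace Pool.Agent.Work.MP_8efaaa_nt.K6

open NumberField Pool.Agent.Work.CM Pool.Agent.Work.MP_8efaaa_nt.R
open scoped Pointwise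

variable {K : Type*} [Field K] [NumberField K] [Algebra K ℂ] {a : ℕ} {s : K}

/-- The image of `K` as a submodule. -/
private def rK6 (K : Type*) [Field K] [Algebra K ℂ] : Submodule ℤ ℂ :=
  LinearMap.range ((algebraMap K ℂ : K →+* ℂ) : K →+ ℂ).toIntLinearMap

private theorem sq_phi6 (hb : B6 K a s) : (algebraMap K ℂ s) ^ 2 = -(a : ℂ) := by
  rw [← map_pow, hb.sq, map_neg, map_natCast]

/-- `s` as an integer. -/
private theorem exS6 (hb : B6 K a s) : ∃ S : 𝓞 K, algebraMap (𝓞 K) K S = s := by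
  have h : IsIntegral ℤ s := by
    refine ⟨Polynomial.X ^ 2 + Polynomial.C (a : ℤ), ?_, ?_⟩
    · exact Polynomial.monic_X_pow_add_C _ two_ne_zero
    · rw [Polynomial.eval₂_add, Polynomial.eval₂_pow, Polynomial.eval₂_X, Polynomial.eval₂_C,
        hb.sq]
      push_cast
      ring
  exact ⟨⟨s, h⟩, rfl⟩

/-- Multiplication by `4 s` preserves the lattice of the ideal. -/
private theorem iv_stab6 (hb : B6 K a s) (c : Ideal (𝓞 K)) {y : ℂ} (hy : y ∈ iv c) :
    (4 * algebraMap K ℂ s) * y ∈ iv c := by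
  obtain ⟨x, hx, rfl⟩ := hy
  obtain ⟨S, hS⟩ := exS6 hb
  refine ⟨(4 * s) * x, fun z hz => ?_, ?_⟩
  · obtain ⟨t, ht⟩ := hx z hz
    refine ⟨(4 * S) * t, ?_⟩
    rw [map_mul, map_mul, hS, ht, map_ofNat]
    ring
  · rw [map_mul, map_mul, map_ofNat]

/-- `a` is even. -/
private theorem nn6 (hb : B6 K a s) : ∃ n : ℤ, (a : ℂ) = 2 * n := by
  have h := hb.mod
  refine ⟨(a / 2 : ℕ), ?_⟩
  have h1 : a = 2 * (a / 2) := by omega
  have h2 : (a : ℂ) = ((2 * (a / 2) : ℕ) : ℂ) := by rw [← h1]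
  push_cast at h2
  push_cast
  exact h2

/-- Multiplication by `4 s` preserves the chain. -/
private theorem ch_stab6 (hb : B6 K a s) (c : Ideal (𝓞 K)) (k : ℕ) {x : ℂ}
    (hx : x ∈ Ch (M6 s c) (w6 s) k) :
    (4 * algebraMap K ℂ s) * x ∈ Ch (M6 s c) (w6 s) k := by
  obtain ⟨n, hn⟩ := nn6 hb
  have hs := sq_phi6 hb
  set f := algebraMap K ℂ s with hf
  have hle : Ch (M6 s c) (w6 s) k ≤
      (Ch (M6 s c) (w6 s) k).comap (LinearMap.mulLeft ℤ (4 * f)) := by
    have h1 : (1 : ℂ) ∈ Ch (M6 s c) (w6 s) k :=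
      Submodule.mem_sup_left (Submodule.mem_sup_left
        (Submodule.subset_span (Set.mem_insert_of_mem _ rfl)))
    have h8 : (4 * f) ∈ Ch (M6 s c) (w6 s) k := by
      refine Submodule.mem_sup_left (Submodule.mem_sup_left ?_)
      have h9 : (4 * f) = (2 : ℂ) ^ 3 * (f / 2) := by ring
      rw [h9]
      exact Submodule.subset_span (Set.mem_insert _ _)
    have hw : (2 : ℂ) ^ k * w6 s ∈ Ch (M6 s c) (w6 s) k :=
      Submodule.mem_sup_right (Submodule.subset_span rfl)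
    refine sup_le (sup_le (Submodule.span_le.2 ?_) ?_) (Submodule.span_le.2 ?_)
    · rintro z (rfl | rfl)
      · show (4 * f) * ((2 : ℂ) ^ 3 * (f / 2)) ∈ Ch (M6 s c) (w6 s) k
        have h2 : (4 * f) * ((2 : ℂ) ^ 3 * (f / 2)) = (-(16 * a) : ℤ) • (1 : ℂ) := by
          rw [zsmul_eq_mul]
          push_cast
          linear_combination 16 * hs
        rw [h2]
        exact Submodule.smul_mem _ _ h1
      · show (4 * f) * 1 ∈ Ch (M6 s c) (w6 s) k
        rw [mul_one]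
        exact h8
    · intro z hz
      rw [Submodule.mem_smul_pointwise_iff_exists] at hz
      obtain ⟨y, hy, rfl⟩ := hz
      show (4 * f) * ((8 : ℂ) • y) ∈ Ch (M6 s c) (w6 s) k
      have h2 : (4 * f) * ((8 : ℂ) • y) = (8 : ℂ) • ((4 * f) * y) := by
        rw [smul_eq_mul, smul_eq_mul]
        ring
      rw [h2]
      exact Submodule.mem_sup_left (Submodule.mem_sup_right
        (Submodule.smul_mem_pointwise_smul _ _ _ (iv_stab6 hb c hy)))
    · rintro z rfl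
      show (4 * f) * ((2 : ℂ) ^ k * w6 s) ∈ Ch (M6 s c) (w6 s) k
      have h2 : (4 * f) * ((2 : ℂ) ^ k * w6 s) = (-(2 ^ k * n) : ℤ) • (1 : ℂ) := by
        rw [zsmul_eq_mul]
        unfold w6
        rw [← hf]
        push_cast
        linear_combination (2 : ℂ) ^ k / 2 * hs - (2 : ℂ) ^ k / 2 * hn
      rw [h2]
      exact Submodule.smul_mem _ _ h1
  exact hle hx

theorem bch_M6 (hb : B6 K a s) {c : Ideal (𝓞 K)} (hc : OddI c) :
    BCh K (La6 s 3) (fun k => Ch (M6 s c) (w6 s) k) := by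
  have hfr := fr_M6 hb hc
  refine ⟨fun k hk => two_Ch hfr hk, fun k _ => ?_, fun k _ => ?_⟩
  · have hle : Ch (M6 s c) (w6 s) k ≤ rK6 K := by
      refine sup_le (sup_le (Submodule.span_le.2 ?_) ?_) (Submodule.span_le.2 ?_)
      · rintro z (rfl | rfl)
        · refine ⟨2 ^ 3 * (s / 2), ?_⟩
          show algebraMap K ℂ (2 ^ 3 * (s / 2)) = _
          rw [map_mul, map_pow, map_div₀, map_ofNat]
        · exact ⟨1, map_one (algebraMap K ℂ)⟩
      · intro z hz
        rw [Submodule.mem_smul_pointwise_iff_exists] at hz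
        obtain ⟨y, ⟨x, _, rfl⟩, rfl⟩ := hz
        refine ⟨8 * x, ?_⟩
        show algebraMap K ℂ (8 * x) = _
        rw [map_mul, map_ofNat, smul_eq_mul]
      · rintro z rfl
        refine ⟨2 ^ k * (s / 8), ?_⟩
        show algebraMap K ℂ (2 ^ k * (s / 8)) = _
        rw [map_mul, map_pow, map_div₀, map_ofNat, map_ofNat]
        rfl
    intro l hl
    exact hle hl
  · rw [Submodule.mul_le]
    intro m hm x hx
    unfold La6 at hm
    rw [Submodule.mem_span_pair] at hm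
    obtain ⟨u, v, rfl⟩ := hm
    have h1 : (u • ((2 : ℂ) ^ 3 * (algebraMap K ℂ s / 2)) + v • (1 : ℂ)) * x =
        u • ((4 * algebraMap K ℂ s) * x) + v • x := by
      rw [zsmul_eq_mul, zsmul_eq_mul, zsmul_eq_mul, zsmul_eq_mul]
      ring
    rw [h1]
    exact Submodule.add_mem _ (Submodule.smul_mem _ _ (ch_stab6 hb c k hx))
      (Submodule.smul_mem _ _ hx)

/-- The two square roots of a complex number. -/
private theorem cfh_sq6 (z : ℂ) : ∃ S : Finset ℂ, ∀ x : ℂ, x ∈ S ↔ x ^ 2 = z := by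
  classical
  obtain ⟨r, hr⟩ := IsAlgClosed.exists_pow_nat_eq z (n := 2) (by norm_num)
  refine ⟨{r, -r}, fun x => ?_⟩
  rw [Finset.mem_insert, Finset.mem_singleton, ← hr]
  exact sq_eq_sq_iff_eq_or_eq_neg.symm


theorem fin6 (hb : B6 K a s) : ∃ T : Finset ℂ, (∀ z ∈ T, IsAlgebraic K z) ∧
    ∀ c : Ideal (𝓞 K), OddI c → zc s c ∈ T ∧ kc s c ∈ T ∧ vc s c ∈ T := by
  classical
  obtain ⟨T0, h0, hT0⟩ := tj_fin6 hb
  choose sq hsq using cfh_sq6
  have two_alg : IsAlgebraic K (2 : ℂ) := by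
    have h := isAlgebraic_algebraMap (R := K) (A := ℂ) (2 : K)
    rwa [map_ofNat] at h
  have one_alg : IsAlgebraic K (1 : ℂ) := isAlgebraic_one
  have sq_alg : ∀ z : ℂ, IsAlgebraic K z → ∀ x ∈ sq z, IsAlgebraic K x := by
    intro z hz x hx
    rw [hsq] at hx
    exact IsAlgebraic.of_pow (n := 2) (by norm_num) (by rwa [hx])
  let T1 : Finset ℂ := T0.biUnion sq
  have a1 : ∀ x ∈ T1, IsAlgebraic K x := by
    intro x hx
    obtain ⟨z, hz, hxz⟩ := Finset.mem_biUnion.1 hx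
    exact sq_alg z (h0 z hz) x hxz
  let T2 : Finset ℂ := (T1 ×ˢ T1).image fun p => (p.1 - p.2) / 2
  have a2 : ∀ x ∈ T2, IsAlgebraic K x := by
    intro x hx
    obtain ⟨p, hp, rfl⟩ := Finset.mem_image.1 hx
    rw [Finset.mem_product] at hp
    show IsAlgebraic K ((p.1 - p.2) / 2)
    rw [div_eq_mul_inv]
    exact ((a1 _ hp.1).sub (a1 _ hp.2)).mul two_alg.inv
  let T3 : Finset ℂ := T2.biUnion fun x => sq (1 + x ^ 2)
  have a3 : ∀ x ∈ T3, IsAlgebraic K x := by
    intro x hx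
    obtain ⟨z, hz, hxz⟩ := Finset.mem_biUnion.1 hx
    exact sq_alg _ (one_alg.add ((a2 z hz).pow 2)) x hxz
  refine ⟨T2 ∪ T3, fun z hz => ?_, fun c hc => ?_⟩
  · rcases Finset.mem_union.1 hz with h | h
    · exact a2 z h
    · exact a3 z h
  · have h := fr_M6 hb hc
    have hL := bch_M6 hb hc
    have hq : ∀ j ≤ 3, ∀ k ≤ 3, SS (M6 s c) (w6 s) j / SS (M6 s c) (w6 s) k ∈ T1 := by
      intro j hj k hk
      refine Finset.mem_biUnion.2 ⟨_, hT0 _ hL j hj k hk, ?_⟩
      rw [hsq, div_pow, cf_SS_sq h hj, cf_SS_sq h hk]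
    have hd : ∀ x ∈ T1, ∀ y ∈ T1, (x - y) / 2 ∈ T2 := fun x hx y hy =>
      Finset.mem_image.2 ⟨(x, y), Finset.mk_mem_product hx hy, rfl⟩
    have hK : kc s c ∈ T2 := by
      have e : kc s c = (SS (M6 s c) (w6 s) 1 / SS (M6 s c) (w6 s) 3 -
          SS (M6 s c) (w6 s) 2 / SS (M6 s c) (w6 s) 3) / 2 := by
        unfold kc fk
        ring
      rw [e]
      exact hd _ (hq 1 (by norm_num) 3 le_rfl) _ (hq 2 (by norm_num) 3 le_rfl)
    have hV : vc s c ∈ T2 := by
      have e : vc s c = (SS (M6 s c) (w6 s) 0 / SS (M6 s c) (w6 s) 2 -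
          SS (M6 s c) (w6 s) 1 / SS (M6 s c) (w6 s) 2) / 2 := by
        unfold vc fv
        ring
      rw [e]
      exact hd _ (hq 0 (by norm_num) 2 (by norm_num)) _ (hq 1 (by norm_num) 2 (by norm_num))
    refine ⟨Finset.mem_union_right _ ?_, Finset.mem_union_left _ hK, Finset.mem_union_left _ hV⟩
    refine Finset.mem_biUnion.2 ⟨kc s c, hK, ?_⟩
    rw [hsq]
    exact fz_sq h

end Pool.Agent.Work.MP_8efaaa_nt.K6
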