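import Mathlib
import Pool.Agent.Work.MP_8efaaa_nt.N5.CFin
import Pool.Agent.Work.MP_8efaaa_nt.K6.AFc

/-!
# K6/CCx (S-M): the field of the values

Model `N5/CCtx.lean`: `fin_gal_rat` for the finite set of `fin6`, a root of unity of order `8` and the numbers `Real.sqrt d` for the divisors `d` of `a`. -/

set_option autoImplicit false

namespace Pool.Agent.Work.MP_8efaaa_nt.K6

open NumberField Pool.Agent.Work.CM Pool.Agent.Work.MP_8efaaa_nt.R Pool.Agent.Work.MP_8efaaa_nt.N5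

variable {K : Type*} [Field K] [NumberField K] [Algebra K ℂ] {a : ℕ} {s : K}

theorem exists_c6 (hb : B6 K a s) : ∃ (F : IntermediateField K ℂ)
    (_ : FiniteDimensional K F) (_ : IsGalois K F) (_ : IsGalois ℚ F) (ζ : F) (w : ℕ → F)
    (z k v : Ideal (𝓞 K) → F), C6 K F a s ζ w z k v := by
  classical
  obtain ⟨T, hT, hfin⟩ := fin6 hb
  have ha0 : a ≠ 0 := hb.sf.ne_zero
  obtain ⟨ζ, hζ⟩ := IsAlgClosed.exists_pow_nat_eq (-1 : ℂ) (n := 4) (by norm_num)
  have hζa : IsAlgebraic K ζ := by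
    refine ⟨Polynomial.X ^ 4 + 1, ?_, ?_⟩
    · exact (Polynomial.monic_X_pow_add_C (1 : K) (n := 4) (by norm_num)).ne_zero
    · simp [hζ]
  have hd2 : ∀ d : ℕ, (((Real.sqrt (d : ℝ) : ℝ) : ℂ)) ^ 2 = (d : ℂ) := by
    intro d
    rw [← Complex.ofReal_pow, Real.sq_sqrt (Nat.cast_nonneg d)]
    simp
  have hda : ∀ d : ℕ, IsAlgebraic K ((Real.sqrt (d : ℝ) : ℝ) : ℂ) := by
    intro d
    refine ⟨Polynomial.X ^ 2 - Polynomial.C (d : K), ?_, ?_⟩
    · exact (Polynomial.monic_X_pow_sub_C (d : K) (n := 2) (by norm_num)).ne_zero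
    · simp [hd2 d]
  obtain ⟨F, h1, h2, h3, hF⟩ := fin_gal_rat
    (insert ζ (a.divisors.image (fun d : ℕ => ((Real.sqrt (d : ℝ) : ℝ) : ℂ)) ∪ T)) (by
    intro z hz
    rcases Finset.mem_insert.1 hz with rfl | hz
    · exact hζa
    · rcases Finset.mem_union.1 hz with hz | hz
      · obtain ⟨d, _, rfl⟩ := Finset.mem_image.1 hz
        exact hda d
      · exact hT z hz)
  have hF' : ∀ z ∈ T, z ∈ F := fun z hz =>
    hF z (Finset.mem_insert_of_mem (Finset.mem_union_right _ hz))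
  have hζF : ζ ∈ F := hF ζ (Finset.mem_insert_self _ _)
  have hdF : ∀ d : ℕ, d ∣ a → ((Real.sqrt (d : ℝ) : ℝ) : ℂ) ∈ F := fun d hd =>
    hF _ (Finset.mem_insert_of_mem (Finset.mem_union_left _
      (Finset.mem_image_of_mem _ (Nat.mem_divisors.2 ⟨hd, ha0⟩))))
  refine ⟨F, h1, h2, h3, ⟨ζ, hζF⟩,
    fun d => if h : d ∣ a then ⟨((Real.sqrt (d : ℝ) : ℝ) : ℂ), hdF d h⟩ else 0,
    fun c => if h : OddI c then ⟨zc s c, hF' _ (hfin c h).1⟩ else 0,
    fun c => if h : OddI c then ⟨kc s c, hF' _ (hfin c h).2.1⟩ else 0,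
    fun c => if h : OddI c then ⟨vc s c, hF' _ (hfin c h).2.2⟩ else 0, ?_, ?_, ?_, ?_, ?_, ?_, ?_⟩
  · apply Subtype.ext
    simpa using hζ
  · intro c hc
    simp only [dif_pos hc]
    rfl
  · intro c hc
    simp only [dif_pos hc]
    rfl
  · intro c hc
    simp only [dif_pos hc]
    rfl
  · refine ⟨T.preimage (Subtype.val : F → ℂ) Subtype.val_injective.injOn, fun c hc => ?_⟩
    simp only [dif_pos hc, Finset.mem_preimage]
    exact hfin c hc
  · intro d hd
    simp only [dif_pos hd]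
    apply Subtype.ext
    simpa using hd2 d
  · intro d hd
    simp only [dif_pos hd]
    exact Complex.conj_ofReal _

end Pool.Agent.Work.MP_8efaaa_nt.K6
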