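import Mathlib
import Pool.Agent.Work.MP_8efaaa_nt.R.AInt
import Pool.Agent.Work.MP_8efaaa_nt.N5.ALat1

/-!
# K6/AHf (M): translation of `w` by a point of order two

`h` is a point of order two of the lattice `M`, not in the cyclic group of `w`. Then `Fr M (w + h)`, `fz` and `fk` are the same, `fv` changes the sign
(checked numerically). Model: `N5/ALat1.lean` (`same_quarter`, the analogue for a point of order four, `SB` - `SI` of the block R).

PROOF. `Ch M (w + h) k = Ch M w k` for `1 ≤ k ≤ 5` (`2 h ∈ M`), so `SS M (w + h) j = SS M w j` for `j ≥ 1` (`2 ^ j (w + h) - 2 ^ j w ∈ M`), and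
`sg (Ch 5) (Ch 4) (4 (w + h))` is the same: `fz`, `fk` are the same. `fv M (w + h) ^ 2 = fv M w ^ 2` by `fvz_sq`, so only the sign is left: if
`fv M (w + h) = fv M w` then `SS M (w + h) 0 = SS M w 0`, i.e. `sg N L (w + h) = sg N L w` with `N = Ch M w 2`, `L = Ch M w 1` (`N` and `L` are the same for
`w + h`: `Ch M (w + h) 1 = M + ℤ (2 w + 2 h)`). By `cf_sg_sq` (R/CfF) `wp L (w + h) = wp L w`, so `w + h = ± w (mod L)`: `h ∈ L` or `2 w + h ∈ L`, i.e. `h ∈ L =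
M + 2 ℤ w` in both cases; with `2 h ∈ M` this gives `h ∈ M + 16 ℤ w = Ch M w 4`, a contradiction. (For the injectivity of `wp` up to sign see
how `N5/ALat1`, `R/SC` - `R/SI` or `CM` do it.) -/

set_option autoImplicit false

namespace Pool.Agent.Work.MP_8efaaa_nt.K6

open NumberField Pool.Agent.Work.CM Pool.Agent.Work.MP_8efaaa_nt.R
open scoped Pointwise

private theorem ch_same2 {M : Submodule ℤ ℂ} {w g : ℂ} (hg : 2 * g ∈ M) {k : ℕ} (hk : 1 ≤ k) :
    Ch M (w + g) k = Ch M w k := by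
  have hgk : (2 : ℂ) ^ k * g ∈ M := by
    obtain ⟨j, rfl⟩ := Nat.exists_eq_add_of_le hk
    have e : (2 : ℂ) ^ (1 + j) * g = ((2 ^ j : ℕ) : ℂ) * (2 * g) := by
      push_cast
      ring
    rw [e]
    exact natmul_mem hg _
  ext z
  rw [mem_Ch, mem_Ch]
  constructor
  · rintro ⟨m, hm, n, rfl⟩
    refine ⟨m + n * (2 ^ k * g), add_mem hm (intmul_mem hgk n), n, ?_⟩
    ring
  · rintro ⟨m, hm, n, rfl⟩
    refine ⟨m - n * (2 ^ k * g), sub_mem hm (intmul_mem hgk n), n, ?_⟩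
    ring

private theorem notMem_two {M : Submodule ℤ ℂ} {w x : ℂ} (h : Fr M w) (hx : 2 * x ∈ M)
    (hx' : x ∉ Ch M w 4) : x ∉ Ch M w 2 := by
  intro h3
  obtain ⟨m, hm, n, rfl⟩ := mem_Ch.1 h3
  have h1 : ((8 * n : ℤ) : ℂ) * w ∈ M := by
    have e : ((8 * n : ℤ) : ℂ) * w = 2 * (m + n * (2 ^ 2 * w)) - ((2 : ℤ) : ℂ) * m := by
      push_cast
      ring
    rw [e]
    exact sub_mem hx (intmul_mem hm 2)
  have h2 := (int_mem_M h).1 h1
  obtain ⟨c, hc⟩ : (4 : ℤ) ∣ n := by omega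
  refine hx' (mem_Ch.2 ⟨m, hm, c, ?_⟩)
  rw [hc]
  push_cast
  ring

theorem same_half {M : Submodule ℤ ℂ} {w h : ℂ} (hF : Fr M w) (hh : 2 * h ∈ M)
    (hh' : h ∉ Ch M w 4) :
    Fr M (w + h) ∧ fz M (w + h) = fz M w ∧ fk M (w + h) = fk M w ∧
      fv M (w + h) = -fv M w := by
  have c5 := ch_same2 (w := w) hh (k := 5) (by norm_num)
  have c4 := ch_same2 (w := w) hh (k := 4) (by norm_num)
  have c3 := ch_same2 (w := w) hh (k := 3) (by norm_num)
  have c2 := ch_same2 (w := w) hh (k := 2) (by norm_num)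
  have c1 := ch_same2 (w := w) hh (k := 1) (by norm_num)
  have hM5 := chFive hF
  have h' : Fr M (w + h) := by
    refine ⟨hF.lat, ?_, fun h1 => hF.nmem ?_⟩
    · have e : 32 * (w + h) = 32 * w + ((16 : ℤ) : ℂ) * (2 * h) := by
        push_cast
        ring
      rw [e]
      exact add_mem hF.mem (intmul_mem hh 16)
    · have e : 16 * w = 16 * (w + h) - ((8 : ℤ) : ℂ) * (2 * h) := by
        push_cast
        ring
      rw [e]
      exact sub_mem h1 (intmul_mem hh 8)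
  have hl5 : IsLat (Ch M w 5) := by rw [hM5]; exact hF.lat
  have hl4 : IsLat (Ch M w 4) := (twoCh hF (k := 4) (by norm_num)).lat'
  have hl3 : IsLat (Ch M w 3) := (twoCh hF (k := 3) (by norm_num)).lat'
  have s3 : SS M (w + h) 3 = SS M w 3 := by
    have e : (2 : ℂ) ^ 3 * (w + h) = 2 ^ 3 * w + ((4 : ℤ) : ℂ) * (2 * h) := by
      push_cast
      ring
    show sg (Ch M (w + h) 5) (Ch M (w + h) 4) (2 ^ 3 * (w + h)) = sg (Ch M w 5) (Ch M w 4) (2 ^ 3 * w)
    rw [c5, c4, e]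
    exact sg_add hl5 _ (le_Ch 5 (intmul_mem hh 4))
  have s2 : SS M (w + h) 2 = SS M w 2 := by
    have e : (2 : ℂ) ^ 2 * (w + h) = 2 ^ 2 * w + ((2 : ℤ) : ℂ) * (2 * h) := by
      push_cast
      ring
    show sg (Ch M (w + h) 4) (Ch M (w + h) 3) (2 ^ 2 * (w + h)) = sg (Ch M w 4) (Ch M w 3) (2 ^ 2 * w)
    rw [c4, c3, e]
    exact sg_add hl4 _ (le_Ch 4 (intmul_mem hh 2))
  have s1 : SS M (w + h) 1 = SS M w 1 := by
    have e : (2 : ℂ) ^ 1 * (w + h) = 2 ^ 1 * w + 2 * h := by ring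
    show sg (Ch M (w + h) 3) (Ch M (w + h) 2) (2 ^ 1 * (w + h)) = sg (Ch M w 3) (Ch M w 2) (2 ^ 1 * w)
    rw [c3, c2, e]
    exact sg_add hl3 _ (le_Ch 3 hh)
  have s0 : SS M (w + h) 0 = 2 * SS M w 1 - SS M w 0 := by
    have e : (2 : ℂ) ^ 0 * (w + h) = 2 ^ 0 * w + h := by ring
    show sg (Ch M (w + h) 2) (Ch M (w + h) 1) (2 ^ 0 * (w + h)) = _
    rw [c2, c1, e]
    exact SS_diff hF (j := 0) (by norm_num) (x := h) (le_Ch 3 hh) (notMem_two hF hh hh')
  refine ⟨h', ?_, ?_, ?_⟩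
  · unfold fz
    have e : 4 * (w + h) = 4 * w + ((2 : ℤ) : ℂ) * (2 * h) := by
      push_cast
      ring
    rw [s3, c5, c4, e, sg_add hl5 _ (le_Ch 5 (intmul_mem hh 2))]
  · unfold fk
    rw [s1, s2, s3]
  · unfold fv
    rw [s0, s1, s2]
    ring

end Pool.Agent.Work.MP_8efaaa_nt.K6
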