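import Mathlib
import Pool.Agent.Work.MP_8efaaa_nt.K6.ALb
import Pool.Agent.Work.MP_8efaaa_nt.K6.AHf

/-!
# K6/ATr (M-L): the translations by odd principal ideals

Model `R/CTr.lean` (with its private lemmas). `φ = algebraMap K ℂ`, `φ s ^ 2 = -a`, `a = 2 m`, `m = 3 (mod 4)`, `w := w6 s = φ s / 8`. Always `vals_span6` for
`δ`, `M' := em δ • La6 s 3 ⊔ 8 • iv c`, `w' := em δ * w`.

* `tr_one6`: `M' = M := M6 s c` (`order_eq6`, `j = 3`), `w' = x w + 4 y φ s ^ 2 / 8 = x w - y m`; `f_odd` with `d = x`.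

* `tr_half6`: `δ = x + 2 y s`, `w' = x w - y m / 2`. Choose an odd integer `d` with `d x = 1 (mod 4)` (`d = x`), `w'' := d w'`: by `f_odd` for `(M', w')` the values
  `fv`, `fu` at `w''` are those at `w'` (`fz` changes by a sign, `fu` depends on `fz ^ 2`). `half_turn` (AInt) for `(M, w)`, `(M', w'')` and the point `1 / 2`:
  `Ch M' w'' 4 = Ch M w 4` (`Ch_eq6`, `order_eq6` with `j = 2`; `16 w'' = d 16 w'`, `d` odd), `M' ≠ M` (`em δ ∈ M'`, not in `M`, by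
  `odd_mem6`, `lin_indep6`), `2 (1 / 2) ∈ M`, `1 / 2 ∉ Ch M w 2`, `w'' - (w + 1 / 2) = (d x - 1) w - (d y m + 1) / 2 ∈ Ch M w 2 ∋ 4 w, 1`.

* `tr_quarter6`: `δ = x + y s`. Put `w₁ := w + 1 / 2`: by `same_half` the values at `(M, w₁)` are `fz`, `fk`, `-fv` of `(M, w)`, and `Ch M w₁ k = Ch M w k` for
  `k ≥ 1`. Choose an odd `d` with `d x = 1 (mod 32)`, `w'' := d w' = d x w - d y m / 4`, so `w'' - w = - d y m / 4 (mod M)`. `quarter_turn` (AInt) for `(M, w₁)`, `(M', w'')`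
  and `g := - d y m / 4 - 1 / 2`: `4 g = - d y m - 2` is an integer, so in `M`; `2 g ∉ Ch M w₁ 2`
  (`2 g` is a half of an odd integer); `Ch M' w'' 3 = Ch M w 3` (`j = 1`); `8 w₁ - 4 g = φ s + 4 + d y m + 2 ∈ M'`: modulo `8 𝓞 ⊆ M'`
  the lattice `M'` contains `j (x + y s) + 4 k x s` (`j`, `k` integers; `4 y a = 0 (mod 8)`), take `j y + 4 k x = 1 (mod 8)`, i.e.
  `j = y (1 + 4 k) (mod 8)`, and choose `k` such that `j x = 6 + d y m (mod 8)`: possible because `x y = 2 + d y m (mod 4)` (`d = x`, `m = 3 (mod 4)`, `x y` odd).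
  Result: `fv' ^ 2 = - 1 / fv ^ 2`, `fu' (- fv) = - (fu fv')`.
All three statements were checked numerically for `a = 6, 14, 22, 30, 38, 46, 70, 78`. -/

set_option autoImplicit false

namespace Pool.Agent.Work.MP_8efaaa_nt.K6

open NumberField Pool.Agent.Work.CM Pool.Agent.Work.MP_8efaaa_nt.R
open scoped Pointwise

variable {K : Type*} [Field K] [NumberField K] [Algebra K ℂ] {a : ℕ} {s : K}

private theorem at_int (s : K) (k : ℕ) (n : ℤ) : (n : ℂ) ∈ Lk6 s k :=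
  mem_Lk6.2 ⟨0, n, by push_cast; ring⟩

private theorem at_one (s : K) (k : ℕ) : (1 : ℂ) ∈ Lk6 s k := by
  have h := at_int s k 1
  rwa [Int.cast_one] at h

private theorem at_M (s : K) (c : Ideal (𝓞 K)) {z : ℂ} (h : z ∈ Lk6 s 5) : z ∈ M6 s c := by
  rw [M6_eq]
  exact Submodule.mem_sup_left h

private theorem at_m (hb : B6 K a s) : ∃ m : ℤ, m % 4 = 3 ∧ algebraMap K ℂ s ^ 2 = -(2 * (m : ℂ)) := by
  obtain ⟨k, hk⟩ : ∃ k : ℕ, a = 2 * k := ⟨a / 2, by have := hb.mod; omega⟩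
  refine ⟨(k : ℤ), ?_, ?_⟩
  · have := hb.mod
    omega
  · rw [← map_pow, hb.sq, map_neg, map_natCast, hk]
    push_cast
    ring

private theorem at_Ch (s : K) (c : Ideal (𝓞 K)) {k : ℕ} (hk : k ≤ 5) :
    Ch (M6 s c) (w6 s) k = Lk6 s k ⊔ (8 : ℂ) • iv c := by
  have h := Ch_eq6 (1 : ℂ) ((8 : ℂ) • iv c) s hk
  rw [one_smul, one_smul, one_mul] at h
  exact h

private theorem at_half (hb : B6 K a s) {c : Ideal (𝓞 K)} (hc : OddI c) {k : ℕ} (hk : k ≤ 5) :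
    (1 / 2 : ℂ) ∉ Ch (M6 s c) (w6 s) k := by
  rw [at_Ch s c hk]
  intro h
  have h1 : (1 / 2 : ℂ) ∈ Lk6 s k := odd_mem6 hb hc hk h (n := 1) (by
    have h2 : (2 : ℂ) ^ 1 * (1 / 2) = 1 := by norm_num
    rw [h2]
    exact at_one s k)
  obtain ⟨m, n, hmn⟩ := mem_Lk6.1 h1
  have h2 : (((n : ℚ) - 1 / 2 : ℚ) : ℂ) + ((m : ℚ) * 2 ^ k / 8 : ℚ) * algebraMap K ℂ s = 0 := by
    push_cast
    unfold w6 at hmn
    linear_combination -hmn
  obtain ⟨h3, -⟩ := lin_indep6 hb h2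
  have h6 : 2 * (n : ℚ) = 1 := by linarith
  have h7 : 2 * n = 1 := by exact_mod_cast h6
  omega

private theorem at_fu (M : Submodule ℤ ℂ) (w w' : ℂ) {e : ℤ}
    (h : fz M w' = e8 e * fz M w) : fu M w' = fu M w := by
  unfold fu
  rw [h, mul_pow]
  have h1 : ((e8 e : ℤ) : ℂ) ^ 2 = 1 := by
    have h2 : e8 e ^ 2 = 1 := by
      unfold e8
      split_ifs <;> norm_num
    exact_mod_cast h2
  rw [h1, one_mul]

private theorem at_uc (hb : B6 K a s) {c : Ideal (𝓞 K)} (hc : OddI c) {δ : 𝓞 K}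
    (hδ : OddI (Ideal.span {δ})) :
    uc s (Ideal.span {δ} * c) = fu (em δ • La6 s 3 ⊔ (8 : ℂ) • iv c) (em δ * w6 s) := by
  have h := (vals_span6 hb hc hδ).2.1
  have h1 : uc s (Ideal.span {δ} * c) = 2 / zc s (Ideal.span {δ} * c) ^ 2 - 1 := rfl
  rw [h1, h]
  rfl

private theorem at_fr {M : Submodule ℤ ℂ} {w : ℂ} (h : Fr M w) {d : ℤ} (hd : Odd d) :
    Fr M (d * w) := by
  obtain ⟨k, rfl⟩ := hd
  have e32 : ∀ n : ℤ, (n : ℂ) * (32 * w) ∈ M := by
    intro n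
    have h1 := M.smul_mem n h.mem
    rwa [zsmul_eq_mul] at h1
  refine ⟨h.lat, ?_, fun h1 => h.nmem ?_⟩
  · have e : (32 : ℂ) * (((2 * k + 1 : ℤ) : ℂ) * w) = ((2 * k + 1 : ℤ) : ℂ) * (32 * w) := by ring
    rw [e]
    exact e32 _
  · have e : 16 * w = 16 * (((2 * k + 1 : ℤ) : ℂ) * w) - (k : ℂ) * (32 * w) := by
      push_cast
      ring
    rw [e]
    exact M.sub_mem h1 (e32 k)

private theorem at_inv {x : ℤ} (hx : Odd x) : ∃ d r : ℤ, Odd d ∧ d * x = 1 + 32 * r := by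
  have h1 : IsCoprime x 32 := by
    have h2 : IsCoprime x 2 := by
      obtain ⟨k, rfl⟩ := hx
      exact ⟨1, -k, by ring⟩
    have h3 : IsCoprime x (2 ^ 5) := h2.pow_right
    norm_num at h3
    exact h3
  obtain ⟨d, b, hab⟩ := h1
  refine ⟨d, -b, ?_, by linear_combination hab⟩
  rcases Int.even_or_odd d with h | h
  · exfalso
    obtain ⟨t, ht⟩ := h
    have : (t + t) * x + b * 32 = 1 := by rw [← ht]; exact hab
    have h2 : 2 * (t * x + b * 16) = 1 := by linear_combination this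
    omega
  · exact h

theorem tr_one6 (hb : B6 K a s) {c : Ideal (𝓞 K)} (hc : OddI c) {x y : ℤ} (hx : Odd x)
    {δ : 𝓞 K} (hδ : algebraMap (𝓞 K) K δ = x + 4 * y * s) :
    zc s (Ideal.span {δ} * c) = e8 x * zc s c ∧
      kc s (Ideal.span {δ} * c) = kc s c ∧ vc s (Ideal.span {δ} * c) = vc s c := by
  have hδ1 : algebraMap (𝓞 K) K δ = (x : K) + ((4 * y : ℤ) : K) * s := by
    rw [hδ]
    push_cast
    ring
  have hO : OddI (Ideal.span {δ}) := (oddI_span6 hb hδ1).2 hx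
  obtain ⟨-, hZ, hK, hV⟩ := vals_span6 hb hc hO
  have hM : em δ • La6 s 3 ⊔ (8 : ℂ) • iv c = M6 s c :=
    order_eq6 hb c (j := 3) (by norm_num) (p := x) (q := y) (by rw [hδ]; norm_num) hO
  rw [hM] at hZ hK hV
  have hem : em δ = x + 4 * y * algebraMap K ℂ s := by
    show algebraMap K ℂ (algebraMap (𝓞 K) K δ) = _
    rw [hδ, map_add, map_intCast, map_mul, map_mul, map_ofNat, map_intCast]
  obtain ⟨m, -, hsq⟩ := at_m hb
  have hw : em δ * w6 s - (x : ℂ) * w6 s ∈ M6 s c := by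
    have h1 : em δ * w6 s - (x : ℂ) * w6 s = ((-(y * m) : ℤ) : ℂ) := by
      rw [hem]
      unfold w6
      push_cast
      linear_combination (y : ℂ) / 2 * hsq
    rw [h1]
    exact at_M s c (at_int s 5 _)
  obtain ⟨h1, h2, h3⟩ := f_odd (fr_M6 hb hc) hx hw
  exact ⟨hZ.trans h1, hK.trans h2, hV.trans h3⟩

theorem tr_half6 (hb : B6 K a s) {c : Ideal (𝓞 K)} (hc : OddI c) {x y : ℤ} (hx : Odd x)
    (hy : Odd y) {δ : 𝓞 K} (hδ : algebraMap (𝓞 K) K δ = x + 2 * y * s) :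
    vc s (Ideal.span {δ} * c) = -vc s c ∧ uc s (Ideal.span {δ} * c) = -uc s c := by
  have hδ1 : algebraMap (𝓞 K) K δ = (x : K) + ((2 * y : ℤ) : K) * s := by
    rw [hδ]
    push_cast
    ring
  have hO : OddI (Ideal.span {δ}) := (oddI_span6 hb hδ1).2 hx
  obtain ⟨hF, hZ, -, hV⟩ := vals_span6 hb hc hO
  have hU := at_uc hb hc hO
  have hem : em δ = x + 2 * y * algebraMap K ℂ s := by
    show algebraMap K ℂ (algebraMap (𝓞 K) K δ) = _
    rw [hδ, map_add, map_intCast, map_mul, map_mul, map_ofNat, map_intCast]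
  obtain ⟨m, hm, hsq⟩ := at_m hb
  set M' := em δ • La6 s 3 ⊔ (8 : ℂ) • iv c with hM'
  set w' := em δ * w6 s with hw'
  have hCh0 : Ch M' w' 4 = Ch (M6 s c) (w6 s) 4 := by
    rw [at_Ch s c (by norm_num), hM', hw', Ch_eq6 (em δ) ((8 : ℂ) • iv c) s (by norm_num),
      Lk_La6 s 2]
    exact order_eq6 hb c (j := 2) (by norm_num) (p := x) (q := y) (by rw [hδ]; norm_num) hO
  have hself : (x : ℂ) * w' - (x : ℂ) * w' ∈ M' := by
    rw [sub_self]
    exact zero_mem _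
  have hCh : Ch M' ((x : ℂ) * w') 4 = Ch (M6 s c) (w6 s) 4 := by
    rw [← hCh0]
    exact Ch_odd hF hx hself
  have hF' : Fr M' ((x : ℂ) * w') := at_fr hF hx
  obtain ⟨h1, -, h3⟩ := f_odd hF hx hself
  have hfu : fu M' ((x : ℂ) * w') = fu M' w' := at_fu M' w' ((x : ℂ) * w') h1
  have hne : M' ≠ M6 s c := by
    intro heq
    have h4 : em δ ∈ M' := by
      refine Submodule.mem_sup_left ?_
      have h5 : em δ • (1 : ℂ) ∈ em δ • La6 s 3 :=
        Submodule.smul_mem_pointwise_smul _ _ _ (by rw [← Lk_La6 s 3]; exact at_one s _)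
      rwa [smul_eq_mul, mul_one] at h5
    rw [heq, M6_eq] at h4
    have h5 : em δ ∈ Lk6 s 5 := odd_mem6 hb hc (by norm_num) h4 (n := 1) (by
      refine mem_Lk6.2 ⟨y, 2 * x, ?_⟩
      rw [hem]
      unfold w6
      push_cast
      ring)
    obtain ⟨m', n, hmn⟩ := mem_Lk6.1 h5
    have h6 : (((n : ℚ) - x : ℚ) : ℂ) + ((4 * (m' : ℚ) - 2 * y : ℚ) : ℂ) * algebraMap K ℂ s = 0 := by
      push_cast
      rw [hem] at hmn
      unfold w6 at hmn
      linear_combination -hmn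
    obtain ⟨-, h7⟩ := lin_indep6 hb h6
    have h8 : 4 * m' = 2 * y := by
      have h9 : 4 * (m' : ℚ) = 2 * y := by linarith
      exact_mod_cast h9
    obtain ⟨t, ht⟩ := hy
    omega
  have hw : (x : ℂ) * w' - (w6 s + 1 / 2) ∈ Ch (M6 s c) (w6 s) 2 := by
    rw [at_Ch s c (by norm_num)]
    obtain ⟨t, ht⟩ : ∃ t : ℤ, x ^ 2 - 1 = 4 * t := by
      obtain ⟨k, rfl⟩ := hx
      exact ⟨k ^ 2 + k, by ring⟩
    obtain ⟨u, hu⟩ : ∃ u : ℤ, x * y * m + 1 = 2 * u := by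
      have hmo : Odd m := by rw [Int.odd_iff]; omega
      obtain ⟨k, hk⟩ := (hx.mul hy).mul hmo
      exact ⟨k + 1, by rw [hk]; ring⟩
    have htC : (x : ℂ) ^ 2 - 1 = 4 * t := by exact_mod_cast ht
    have huC : (x : ℂ) * y * m + 1 = 2 * u := by exact_mod_cast hu
    refine Submodule.mem_sup_left (mem_Lk6.2 ⟨t, -u, ?_⟩)
    rw [hw', hem]
    unfold w6
    push_cast
    linear_combination (x : ℂ) * y / 4 * hsq + algebraMap K ℂ s / 8 * htC - (1 : ℂ) / 2 * huC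
  obtain ⟨h4, h5⟩ := half_turn (fr_M6 hb hc) hF' hCh hne (x := 1 / 2)
    (by
      have h6 : (2 : ℂ) * (1 / 2) = 1 := by norm_num
      rw [h6]
      exact at_M s c (at_one s 5)) (at_half hb hc (by norm_num)) hw
  refine ⟨?_, ?_⟩
  · rw [hV, ← h3]
    exact h4
  · rw [hU, ← hfu]
    exact h5

theorem tr_quarter6 (hb : B6 K a s) {c : Ideal (𝓞 K)} (hc : OddI c) {x y : ℤ} (hx : Odd x)
    (hy : Odd y) {δ : 𝓞 K} (hδ : algebraMap (𝓞 K) K δ = x + y * s) :
    vc s (Ideal.span {δ} * c) ^ 2 * vc s c ^ 2 = -1 ∧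
      uc s (Ideal.span {δ} * c) * vc s c = uc s c * vc s (Ideal.span {δ} * c) := by
  have hδ1 : algebraMap (𝓞 K) K δ = (x : K) + (y : K) * s := hδ
  have hO : OddI (Ideal.span {δ}) := (oddI_span6 hb hδ1).2 hx
  obtain ⟨hF, hZ, -, hV⟩ := vals_span6 hb hc hO
  have hU := at_uc hb hc hO
  have hem : em δ = x + y * algebraMap K ℂ s := by
    show algebraMap K ℂ (algebraMap (𝓞 K) K δ) = _
    rw [hδ, map_add, map_intCast, map_mul, map_intCast]
  obtain ⟨m, hm, hsq⟩ := at_m hb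
  obtain ⟨d, r, hd, hdx⟩ := at_inv hx
  have hdxC : (d : ℂ) * x = 1 + 32 * r := by exact_mod_cast hdx
  set M' := em δ • La6 s 3 ⊔ (8 : ℂ) • iv c with hM'
  set w' := em δ * w6 s with hw'
  have hFM := fr_M6 hb hc
  obtain ⟨hF1, hz1, -, hv1⟩ := same_half (h := 1 / 2) hFM (by
      have h6 : (2 : ℂ) * (1 / 2) = 1 := by norm_num
      rw [h6]
      exact at_M s c (at_one s 5)) (at_half hb hc (by norm_num))
  have hint : ∀ n : ℤ, (n : ℂ) ∈ M6 s c := fun n => at_M s c (at_int s 5 n)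
  have hCh1 : ∀ k : ℕ, 1 ≤ k → Ch (M6 s c) (w6 s + 1 / 2) k = Ch (M6 s c) (w6 s) k := by
    intro k hk
    obtain ⟨k, rfl⟩ := Nat.exists_eq_add_of_le hk
    have hmul : ∀ {M : Submodule ℤ ℂ} {z : ℂ} (n : ℤ), z ∈ M → (n : ℂ) * z ∈ M := by
      intro M z n hz
      have h1 := M.smul_mem n hz
      rwa [zsmul_eq_mul] at h1
    apply le_antisymm
    · intro z hz
      obtain ⟨u, hu, n, rfl⟩ := mem_Ch.1 hz
      refine mem_Ch.2 ⟨u + ((n * 2 ^ k : ℤ) : ℂ), add_mem hu (hint _), n, ?_⟩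
      push_cast
      ring
    · intro z hz
      obtain ⟨u, hu, n, rfl⟩ := mem_Ch.1 hz
      refine mem_Ch.2 ⟨u - ((n * 2 ^ k : ℤ) : ℂ), sub_mem hu (hint _), n, ?_⟩
      push_cast
      ring
  have hself : (d : ℂ) * w' - (d : ℂ) * w' ∈ M' := by
    rw [sub_self]
    exact zero_mem _
  have hCh : Ch M' ((d : ℂ) * w') 3 = Ch (M6 s c) (w6 s + 1 / 2) 3 := by
    rw [hCh1 3 (by norm_num), Ch_odd hF hd hself, at_Ch s c (by norm_num), hM', hw',
      Ch_eq6 (em δ) ((8 : ℂ) • iv c) s (by norm_num), Lk_La6 s 1]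
    exact order_eq6 hb c (j := 1) (by norm_num) (p := x) (q := y) (by rw [hδ]; norm_num) hO
  have hF' : Fr M' ((d : ℂ) * w') := at_fr hF hd
  obtain ⟨h1, -, h3⟩ := f_odd hF hd hself
  have hfu : fu M' ((d : ℂ) * w') = fu M' w' := at_fu M' w' ((d : ℂ) * w') h1
  have hmo : Odd m := by rw [Int.odd_iff]; omega
  obtain ⟨g4, h4g⟩ := quarter_turn hF1 hF' hCh (g := -(d * y * m : ℂ) / 4 - 1 / 2)
    (by
      have h6 : (4 : ℂ) * (-(d * y * m : ℂ) / 4 - 1 / 2) = ((-(d * y * m) - 2 : ℤ) : ℂ) := by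
        push_cast
        ring
      rw [h6]
      exact hint _)
    (by
      rw [hCh1 2 (by norm_num)]
      intro h
      apply at_half hb hc (k := 2) (by norm_num)
      obtain ⟨k, hk⟩ := (hd.mul hy).mul hmo
      have hkC : (d : ℂ) * y * m = 2 * k + 1 := by exact_mod_cast hk
      have h6 : (1 / 2 : ℂ) = -(2 * (-(d * y * m : ℂ) / 4 - 1 / 2)) - ((k + 1 : ℤ) : ℂ) := by
        push_cast
        linear_combination -(1 : ℂ) / 2 * hkC
      rw [h6]
      refine sub_mem (neg_mem h) ?_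
      exact Submodule.mem_sup_left (hint _))
    (by
      obtain ⟨e, he⟩ : ∃ e : ℤ, x ^ 2 = 1 + 8 * e := by
        have h8 := Int.sq_mod_four_eq_one_of_odd hx
        obtain ⟨k, rfl⟩ := hx
        obtain ⟨l, hl⟩ := Int.even_mul_succ_self k
        exact ⟨l, by linear_combination 4 * hl⟩
      obtain ⟨f, hf⟩ : ∃ f : ℤ, y ^ 2 = 1 + 8 * f := by
        obtain ⟨k, rfl⟩ := hy
        obtain ⟨l, hl⟩ := Int.even_mul_succ_self k
        exact ⟨l, by linear_combination 4 * hl⟩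
      obtain ⟨t, ht⟩ : ∃ t : ℤ, m + 6 * (x * y) = 1 - 4 * t := by
        obtain ⟨k, hk⟩ := hx.mul hy
        refine ⟨(1 - m - 6 * (x * y)) / 4, ?_⟩
        rw [hk]
        omega
      obtain ⟨S, hS, -, -⟩ := exists_S6 hb
      have heC : (x : ℂ) ^ 2 = 1 + 8 * e := by exact_mod_cast he
      have hfC : (y : ℂ) ^ 2 = 1 + 8 * f := by exact_mod_cast hf
      have htC : (m : ℂ) + 6 * (x * y) = 1 - 4 * t := by exact_mod_cast ht
      have hin1 : em δ * (((x * (d * y * m + 6) : ℤ) : ℂ) +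
          ((t * x : ℤ) : ℂ) * (4 * algebraMap K ℂ s)) ∈ em δ • La6 s 3 := by
        refine Submodule.smul_mem_pointwise_smul _ _ _ ?_
        rw [← Lk_La6 s 3]
        refine mem_Lk6.2 ⟨t * x, x * (d * y * m + 6), ?_⟩
        unfold w6
        push_cast
        ring
      have hin2 : (8 : ℂ) * algebraMap K ℂ (algebraMap (𝓞 K) K
          (((-(e * (d * y * m + 6)) + t * x * y * m : ℤ) : 𝓞 K) +
            ((-(4 * r * y ^ 2 * m + f * m + 4 * t * e) : ℤ) : 𝓞 K) * S)) ∈ (8 : ℂ) • iv c :=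
        Submodule.smul_mem_pointwise_smul _ _ _ (int_mem_iv c _)
      have hkey : 8 * (w6 s + 1 / 2) - 4 * (-(d * y * m : ℂ) / 4 - 1 / 2) =
          em δ * (((x * (d * y * m + 6) : ℤ) : ℂ) +
            ((t * x : ℤ) : ℂ) * (4 * algebraMap K ℂ s)) +
          (8 : ℂ) * algebraMap K ℂ (algebraMap (𝓞 K) K
          (((-(e * (d * y * m + 6)) + t * x * y * m : ℤ) : 𝓞 K) +
            ((-(4 * r * y ^ 2 * m + f * m + 4 * t * e) : ℤ) : 𝓞 K) * S)) := by
        rw [map_add, map_mul, map_intCast, map_intCast, hS, map_add, map_mul, map_intCast,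
          map_intCast, hem]
        unfold w6
        push_cast
        generalize algebraMap K ℂ s = φ at hsq ⊢
        linear_combination -((d : ℂ) * y * m + 6 + 4 * t * φ) * heC - 4 * (t : ℂ) * x * y * hsq -
          φ * (y : ℂ) ^ 2 * m * hdxC - φ * (m : ℂ) * hfC - φ * htC
      rw [hkey]
      exact Submodule.add_mem_sup hin1 hin2)
    (by
      have h6 : (d : ℂ) * w' - (w6 s + 1 / 2 + (-(d * y * m : ℂ) / 4 - 1 / 2)) =
          (r : ℂ) * (2 ^ 5 * w6 s) + ((0 : ℤ) : ℂ) := by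
        rw [hw', hem]
        unfold w6
        push_cast
        linear_combination (d : ℂ) * y / 8 * hsq + algebraMap K ℂ s / 8 * hdxC
      rw [h6]
      exact at_M s c (mem_Lk6.2 ⟨r, 0, rfl⟩))
  have hfu1 : fu (M6 s c) (w6 s + 1 / 2) = fu (M6 s c) (w6 s) := by
    unfold fu
    rw [hz1]
  rw [hv1, hfu1] at h4g
  rw [hv1] at g4
  have hvne : fv (M6 s c) (w6 s) ≠ 0 := by
    intro h0
    have h7 := fvz_sq hFM
    rw [h0] at h7
    apply fk_ne hFM
    linear_combination -(1 : ℂ) / 2 * h7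
  have hvc : vc s c = fv (M6 s c) (w6 s) := rfl
  have huc : uc s c = fu (M6 s c) (w6 s) := rfl
  rw [hV, hU, hvc, huc, ← h3, ← hfu]
  refine ⟨?_, ?_⟩
  · rw [g4, neg_sq]
    field_simp
  · linear_combination -h4g

end Pool.Agent.Work.MP_8efaaa_nt.K6
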