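import Mathlib
import Pool.Agent.Work.MP_8efaaa_nt.K5.MxOdd
import Pool.Agent.Work.MP_8efaaa_nt.K6.ALb

/-!
# K6/AUn (L): the values are units outside of `2`

Owner: helper47 (class 5: `K5/MxA`, `K5/MxStep`, `K5/MxOdd`, `K5/Unit`). The same elementary proof: (i) `csq (N, L)` stays good (`V csq = V S ^ 4`) under
`N ↦ N + ℤ u` of any odd prime degree; (ii) `V csq = V S ^ 4` iff the difference opposite to `L` is the largest of the three, so at
least two of the three superlattices are good; (iii) in class 6 multiplication by `1 + s` (norm `1 + a` odd) permutes the two superlattices `O + ℤ / 2` and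
`O + ℤ (1 + s) / 2` of `O` different from `p⁻¹ = O + ℤ s / 2` (`p = (2, s)`), and similarly for `p⁻¹`; (iv) descent `O ← p⁻¹`: all three differences are
equal. -/

set_option autoImplicit false

namespace Pool.Agent.Work.MP_8efaaa_nt.K6

open NumberField Pool.Agent.Work.CM Pool.Agent.Work.MP_8efaaa_nt.R Pool.Agent.Work.MP_8efaaa_nt.K5
open scoped Pointwise

universe u

variable {K : Type u} [Field K] [NumberField K] [Algebra K ℂ] {a : ℕ} {s : K}
  {Γ : Type*} [LinearOrderedCommGroupWithZero Γ] {V : Valuation ℂ Γ}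

theorem sig_sq6 (hb : B6 K a s) : algebraMap K ℂ s ^ 2 = -(a : ℂ) := by
  rw [← map_pow, hb.sq, map_neg, map_natCast]

theorem Ch_M6 (s : K) (c : Ideal (𝓞 K)) {k : ℕ} (hk : k ≤ 5) :
    Ch (M6 s c) (w6 s) k = Lk6 s k ⊔ (8 : ℂ) • iv c := by
  have h := Ch_eq6 (1 : ℂ) ((8 : ℂ) • iv c) s hk
  rw [one_smul, one_smul, one_mul] at h
  exact h

/-- coordinates -/
theorem coord6 (hb : B6 K a s) {p q : ℚ} {k : ℕ} :
    (p : ℂ) + q * algebraMap K ℂ s ∈ Lk6 s k ↔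
      ∃ m n : ℤ, q = m * 2 ^ k / 8 ∧ p = n := by
  rw [mem_Lk6]
  refine exists_congr fun m => exists_congr fun n => ?_
  constructor
  · intro h
    have h1 : ((p - n : ℚ) : ℂ) + ((q - m * 2 ^ k / 8 : ℚ) : ℂ) *
        algebraMap K ℂ s = 0 := by
      unfold w6 at h
      push_cast
      linear_combination h
    obtain ⟨h2, h3⟩ := lin_indep6 hb h1
    constructor <;> linarith
  · rintro ⟨rfl, rfl⟩
    unfold w6
    push_cast
    ring

theorem two_Lk6 (hb : B6 K a s) {k : ℕ} (hk : k < 5) : Two (Lk6 s (k + 1)) (Lk6 s k) := by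
  have h1 : OddI (⊤ : Ideal (𝓞 K)) := by simp [OddI]
  have h2 := two_Ch (fr_M6 hb h1) hk
  have h3 : ∀ {j : ℕ}, j ≤ 5 → Ch (M6 s ⊤) (w6 s) j = Lk6 s j := by
    intro j hj
    rw [Ch_M6 s ⊤ hj]
    refine sup_eq_left.2 ?_
    intro z hz
    rw [Submodule.mem_smul_pointwise_iff_exists] at hz
    obtain ⟨y, hy, rfl⟩ := hz
    obtain ⟨x, hx, rfl⟩ := mem_iv.1 hy
    obtain ⟨t, ht⟩ := hx 1 (Submodule.mem_top)
    rw [map_one, mul_one] at ht
    rw [← ht]
    exact eight_mem_Lk6 hb hj t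
  rwa [h3 (by omega), h3 (by omega)] at h2

private theorem a_even (hb : B6 K a s) : ∃ b : ℤ, (a : ℤ) = 8 * b + 6 := by
  have := hb.mod
  exact ⟨(a / 8 : ℕ), by push_cast; omega⟩

private theorem mu_ne (hb : B6 K a s) : 1 + algebraMap K ℂ s ≠ 0 := by
  intro h
  have h1 := sig_sq6 hb
  have h2 : algebraMap K ℂ s = -1 := by linear_combination h
  rw [h2] at h1
  have h3 := hb.mod
  have h4 : ((a + 1 : ℕ) : ℂ) = 0 := by
    push_cast
    linear_combination h1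
  have h5 : a + 1 = 0 := by exact_mod_cast h4
  omega

private theorem inv_mul (hb : B6 K a s) (x : ℂ) :
    ((1 + a : ℕ) : ℂ) * ((1 + algebraMap K ℂ s)⁻¹ * x) = (1 - algebraMap K ℂ s) * x := by
  have h := mu_ne hb
  have h1 := sig_sq6 hb
  have h2 : ((1 + a : ℕ) : ℂ) * (1 + algebraMap K ℂ s)⁻¹ = 1 - algebraMap K ℂ s := by
    field_simp
    push_cast
    linear_combination h1
  rw [← mul_assoc, h2]

/-- multiplication by `σ` -/
private theorem sig_mul (hb : B6 K a s) {k : ℕ} (hk : k = 2 ∨ k = 3) {x : ℂ}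
    (hx : x ∈ Lk6 s k) : algebraMap K ℂ s * x ∈ Lk6 s k := by
  obtain ⟨b, hab⟩ := a_even hb
  have h1 := sig_sq6 hb
  have hac : (a : ℂ) = 8 * b + 6 := by exact_mod_cast congrArg (Int.cast : ℤ → ℂ) hab
  obtain ⟨m, n, rfl⟩ := mem_Lk6.1 hx
  rcases hk with rfl | rfl
  · refine mem_Lk6.2 ⟨2 * n, -(m * (4 * b + 3)), ?_⟩
    unfold w6
    push_cast
    rw [hac] at h1
    linear_combination ((m : ℂ) / 2) * h1
  · refine mem_Lk6.2 ⟨n, -(m * (8 * b + 6)), ?_⟩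
    unfold w6
    push_cast
    rw [hac] at h1
    linear_combination (m : ℂ) * h1

/-- a pair of superlattices which is exchanged by `1 + σ` -/
private theorem both (hb : B6 K a s) (h2 : V 2 = 1) {k : ℕ} (hk : k = 2 ∨ k = 3)
    {A B D : Submodule ℤ ℂ} (hT : Tri (Lk6 s k) A B D) {b d : ℂ} (hbB : b ∈ B)
    (hbD : d ∈ D) (hd : d ∉ Lk6 s k) (e1 : (1 + algebraMap K ℂ s) * b = d)
    (h3 : (1 + algebraMap K ℂ s) * d ∈ B) (h4 : (1 + algebraMap K ℂ s) * d ∉ Lk6 s k) :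
    Mx V (Lk6 s k) B ∧ Mx V (Lk6 s k) D := by
  have hao : Odd (1 + a) := by
    have := hb.mod
    exact Nat.odd_iff.2 (by omega)
  have hm1 : ∀ x ∈ Lk6 s k, (1 + algebraMap K ℂ s) * x ∈ Lk6 s k := fun x hx => by
    rw [add_mul, one_mul]
    exact add_mem hx (sig_mul hb hk hx)
  have hm2 : ∀ x ∈ Lk6 s k, ((1 + a : ℕ) : ℂ) * ((1 + algebraMap K ℂ s)⁻¹ * x) ∈ Lk6 s k :=
    fun x hx => by
    rw [inv_mul hb, sub_mul, one_mul]
    exact sub_mem hx (sig_mul hb hk hx)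
  have hBD : Mx V (Lk6 s k) B → Mx V (Lk6 s k) D := by
    intro hM
    obtain ⟨t1, m1⟩ := mx_mul h2 hT.b hM (mu_ne hb) hao hm1 hm2
    have e : (1 + algebraMap K ℂ s) • B ⊔ Lk6 s k = D := by
      refine t1.eq_of_mem hT.d (z := d) ?_ hbD hd
      rw [← e1]
      exact Submodule.mem_sup_left ((mem_smul_iff (mu_ne hb)).2 hbB)
    rwa [e] at m1
  have hDB : Mx V (Lk6 s k) D → Mx V (Lk6 s k) B := by
    intro hM
    obtain ⟨t1, m1⟩ := mx_mul h2 hT.d hM (mu_ne hb) hao hm1 hm2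
    have e : (1 + algebraMap K ℂ s) • D ⊔ Lk6 s k = B := by
      refine t1.eq_of_mem hT.b (z := (1 + algebraMap K ℂ s) * d) ?_ h3 h4
      exact Submodule.mem_sup_left ((mem_smul_iff (mu_ne hb)).2 hbD)
    rwa [e] at m1
  rcases mx_or (V := V) h2 hT.rot with h5 | h5
  · exact ⟨h5, hBD h5⟩
  · exact ⟨hDB h5, h5⟩

private theorem sup_self_mem (A : Submodule ℤ ℂ) (z : ℂ) : z ∈ A ⊔ Submodule.span ℤ {z} :=
  Submodule.mem_sup_right (Submodule.mem_span_singleton_self z)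

/-- three superlattices with given generators are different -/
private theorem tri_of {L A B D : Submodule ℤ ℂ} (hA : Two L A) (hB : Two L B) (hD : Two L D)
    {x y z : ℂ} (hx : x ∈ A) (hy : y ∈ B) (hz : z ∈ D) (hx' : x ∉ L) (hy' : y ∉ L) (hz' : z ∉ L)
    (hxy : x - y ∉ L) (hyz : y - z ∉ L) (hzx : z - x ∉ L) : Tri L A B D := by
  refine ⟨hA, hB, hD, ?_, ?_, ?_⟩
  · rintro rfl
    exact hxy (hA.sub_mem hx hx' hy hy')
  · rintro rfl
    exact hyz (hB.sub_mem hy hy' hz hz')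
  · rintro rfl
    exact hzx (hD.sub_mem hz hz' hx hx')

theorem gd_O6 (hb : B6 K a s) (h2 : V 2 = 1) : Gd3 V (Lk6 s 3) := by
  obtain ⟨b, hab⟩ := a_even hb
  have hsq := sig_sq6 hb
  have hac : (a : ℂ) = 8 * b + 6 := by exact_mod_cast congrArg (Int.cast : ℤ → ℂ) hab
  rw [hac] at hsq
  set σ := algebraMap K ℂ s with hσ
  have tO : Two (Lk6 s 3) (Lk6 s 2) := two_Lk6 hb (by norm_num)
  have tP : Two (Lk6 s 2) (Lk6 s 1) := two_Lk6 hb (by norm_num)
  -- membership in coordinates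
  have nm3 : ∀ p q : ℚ, ¬ (∃ m n : ℤ, q = m * 2 ^ 3 / 8 ∧ p = n) →
      ((p : ℂ) + q * σ) ∉ Lk6 s 3 := fun p q h h1 => h ((coord6 hb).1 h1)
  have nm2 : ∀ p q : ℚ, ¬ (∃ m n : ℤ, q = m * 2 ^ 2 / 8 ∧ p = n) →
      ((p : ℂ) + q * σ) ∉ Lk6 s 2 := fun p q h h1 => h ((coord6 hb).1 h1)
  -- points for `O`
  have o1 : (1 / 2 : ℂ) ∉ Lk6 s 3 := by
    have h := nm3 (1 / 2) 0 (by
      rintro ⟨m, n, h1, h2⟩
      have h3 : ((2 * n : ℤ) : ℚ) = (1 : ℤ) := by push_cast; linarith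
      have h4 : 2 * n = 1 := by exact_mod_cast h3
      omega)
    push_cast at h
    rwa [zero_mul, add_zero] at h
  have o2 : σ / 2 ∉ Lk6 s 3 := by
    have h := nm3 0 (1 / 2) (by
      rintro ⟨m, n, h1, h2⟩
      have h3 : ((2 * m : ℤ) : ℚ) = (1 : ℤ) := by push_cast; linarith
      have h4 : 2 * m = 1 := by exact_mod_cast h3
      omega)
    push_cast at h
    rw [zero_add] at h
    rwa [show σ / 2 = 1 / 2 * σ by ring]
  have o3 : (1 + σ) / 2 ∉ Lk6 s 3 := by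
    have h := nm3 (1 / 2) (1 / 2) (by
      rintro ⟨m, n, h1, h2⟩
      have h3 : ((2 * n : ℤ) : ℚ) = (1 : ℤ) := by push_cast; linarith
      have h4 : 2 * n = 1 := by exact_mod_cast h3
      omega)
    push_cast at h
    rwa [show (1 + σ) / 2 = 1 / 2 + 1 / 2 * σ by ring]
  have o4 : σ / 2 - 1 / 2 ∉ Lk6 s 3 := by
    have h := nm3 (-(1 / 2)) (1 / 2) (by
      rintro ⟨m, n, h1, h2⟩
      have h3 : ((2 * n : ℤ) : ℚ) = (-1 : ℤ) := by push_cast; linarith
      have h4 : 2 * n = -1 := by exact_mod_cast h3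
      omega)
    push_cast at h
    rwa [show σ / 2 - 1 / 2 = -(1 / 2) + 1 / 2 * σ by ring]
  have o5 : (1 / 2 : ℂ) - (1 + σ) / 2 ∉ Lk6 s 3 := by
    have h := nm3 0 (-(1 / 2)) (by
      rintro ⟨m, n, h1, h2⟩
      have h3 : ((2 * m : ℤ) : ℚ) = (-1 : ℤ) := by push_cast; linarith
      have h4 : 2 * m = -1 := by exact_mod_cast h3
      omega)
    push_cast at h
    rw [zero_add] at h
    rwa [show (1 / 2 : ℂ) - (1 + σ) / 2 = -(1 / 2) * σ by ring]
  have o6 : (1 + σ) / 2 - σ / 2 ∉ Lk6 s 3 := by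
    rwa [show (1 + σ) / 2 - σ / 2 = 1 / 2 by ring]
  have hmem3 : ∀ m n : ℤ, (m : ℂ) + n * σ ∈ Lk6 s 3 := fun m n =>
    mem_Lk6.2 ⟨n, m, by
      unfold w6
      rw [← hσ]
      ring⟩
  have hO1 : (1 / 2 : ℂ) ∈ half (Lk6 s 3) := by
    rw [mem_half]
    have h := hmem3 1 0
    push_cast at h
    rw [zero_mul, add_zero] at h
    rwa [show (2 : ℂ) * (1 / 2) = 1 by norm_num]
  have hO2 : (1 + σ) / 2 ∈ half (Lk6 s 3) := by
    rw [mem_half]
    have h := hmem3 1 1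
    push_cast at h
    rw [one_mul] at h
    rwa [show (2 : ℂ) * ((1 + σ) / 2) = 1 + σ by ring]
  have tB := Two.mk' tO.lat hO1 o1
  have tD := Two.mk' tO.lat hO2 o3
  have hP3 : σ / 2 ∈ Lk6 s 2 := mem_Lk6.2 ⟨1, 0, by
    unfold w6
    push_cast
    rw [← hσ]
    ring⟩
  have hT : Tri (Lk6 s 3) (Lk6 s 2) (Lk6 s 3 ⊔ Submodule.span ℤ {(1 / 2 : ℂ)})
      (Lk6 s 3 ⊔ Submodule.span ℤ {(1 + σ) / 2}) :=
    tri_of tO tB tD hP3 (sup_self_mem _ _) (sup_self_mem _ _) o2 o1 o3 o4 o5 o6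
  -- the good pair for `O`
  have gO := both (V := V) hb h2 (Or.inr rfl) hT (b := 1 / 2) (d := (1 + σ) / 2)
    (sup_self_mem _ _) (sup_self_mem _ _) o3 (by rw [← hσ]; ring) (by
      rw [← hσ]
      have e : (1 + σ) * ((1 + σ) / 2) = (((-(4 * b + 3) : ℤ) : ℂ) + ((1 : ℤ) : ℂ) * σ) + 1 / 2 := by
        push_cast
        linear_combination (1 / 2 : ℂ) * hsq
      rw [e]
      exact add_mem (Submodule.mem_sup_left (hmem3 _ _)) (sup_self_mem _ _)) (by
      rw [← hσ]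
      have h := nm3 (-(8 * b + 5) / 2) 1 (by
        rintro ⟨m, n, h1, h2⟩
        have h3 : ((2 * n : ℤ) : ℚ) = (-(8 * b + 5) : ℤ) := by push_cast; linarith
        have h4 : 2 * n = -(8 * b + 5) := by exact_mod_cast h3
        omega)
      push_cast at h
      rwa [show (1 + σ) * ((1 + σ) / 2) = -(8 * b + 5) / 2 + 1 * σ by
        linear_combination (1 / 2 : ℂ) * hsq])
  -- points for `P`
  have hB1 : σ / 4 ∈ Lk6 s 1 := mem_Lk6.2 ⟨1, 0, by
    unfold w6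
    push_cast
    rw [← hσ]
    ring⟩
  have p1 : (1 / 2 : ℂ) ∉ Lk6 s 2 := by
    have h := nm2 (1 / 2) 0 (by
      rintro ⟨m, n, h1, h2⟩
      have h3 : ((2 * n : ℤ) : ℚ) = (1 : ℤ) := by push_cast; linarith
      have h4 : 2 * n = 1 := by exact_mod_cast h3
      omega)
    push_cast at h
    rwa [zero_mul, add_zero] at h
  have p2 : σ / 4 ∉ Lk6 s 2 := by
    have h := nm2 0 (1 / 4) (by
      rintro ⟨m, n, h1, h2⟩
      have h3 : ((2 * m : ℤ) : ℚ) = (1 : ℤ) := by push_cast; linarith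
      have h4 : 2 * m = 1 := by exact_mod_cast h3
      omega)
    push_cast at h
    rw [zero_add] at h
    rwa [show σ / 4 = 1 / 4 * σ by ring]
  have p3 : (1 + σ) * (σ / 4) ∉ Lk6 s 2 := by
    have h := nm2 (-(8 * b + 6) / 4) (1 / 4) (by
      rintro ⟨m, n, h1, h2⟩
      have h3 : ((2 * m : ℤ) : ℚ) = (1 : ℤ) := by push_cast; linarith
      have h4 : 2 * m = 1 := by exact_mod_cast h3
      omega)
    push_cast at h
    rwa [show (1 + σ) * (σ / 4) = -(8 * b + 6) / 4 + 1 / 4 * σ by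
      linear_combination (1 / 4 : ℂ) * hsq]
  have p4 : (1 / 2 : ℂ) - σ / 4 ∉ Lk6 s 2 := by
    have h := nm2 (1 / 2) (-(1 / 4)) (by
      rintro ⟨m, n, h1, h2⟩
      have h3 : ((2 * m : ℤ) : ℚ) = (-1 : ℤ) := by push_cast; linarith
      have h4 : 2 * m = -1 := by exact_mod_cast h3
      omega)
    push_cast at h
    rwa [show (1 / 2 : ℂ) - σ / 4 = 1 / 2 + -(1 / 4) * σ by ring]
  have p5 : σ / 4 - (1 + σ) * (σ / 4) ∉ Lk6 s 2 := by
    have h := nm2 ((8 * b + 6) / 4) 0 (by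
      rintro ⟨m, n, h1, h2⟩
      have h3 : ((4 * n : ℤ) : ℚ) = (8 * b + 6 : ℤ) := by push_cast; linarith
      have h4 : 4 * n = 8 * b + 6 := by exact_mod_cast h3
      omega)
    push_cast at h
    rw [zero_mul, add_zero] at h
    rwa [show σ / 4 - (1 + σ) * (σ / 4) = (8 * b + 6) / 4 by
      linear_combination (-1 / 4 : ℂ) * hsq]
  have p6 : (1 + σ) * (σ / 4) - 1 / 2 ∉ Lk6 s 2 := by
    have h := nm2 (-(8 * b + 6) / 4 - 1 / 2) (1 / 4) (by
      rintro ⟨m, n, h1, h2⟩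
      have h3 : ((2 * m : ℤ) : ℚ) = (1 : ℤ) := by push_cast; linarith
      have h4 : 2 * m = 1 := by exact_mod_cast h3
      omega)
    push_cast at h
    rwa [show (1 + σ) * (σ / 4) - 1 / 2 = -(8 * b + 6) / 4 - 1 / 2 + 1 / 4 * σ by
      linear_combination (1 / 4 : ℂ) * hsq]
  have hD1 : (1 + σ) * (σ / 4) ∈ half (Lk6 s 2) := by
    rw [mem_half]
    have h := sig_mul hb (Or.inl rfl) hP3
    rw [← hσ] at h
    rw [show 2 * ((1 + σ) * (σ / 4)) = σ / 2 + σ * (σ / 2) by ring]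
    exact add_mem hP3 h
  have tD' := Two.mk' tP.lat hD1 p3
  have hT' : Tri (Lk6 s 2) (half (Lk6 s 3)) (Lk6 s 1)
      (Lk6 s 2 ⊔ Submodule.span ℤ {(1 + σ) * (σ / 4)}) :=
    tri_of tO.half_two tP tD' hO1 hB1 (sup_self_mem _ _) p1 p2 p3 p4 p5 p6
  have gP := both (V := V) hb h2 (Or.inl rfl) hT' (b := σ / 4) (d := (1 + σ) * (σ / 4)) hB1
    (sup_self_mem _ _) p3 (by rw [← hσ]) (by
      rw [← hσ]
      refine mem_Lk6.2 ⟨-(8 * b + 5), -(4 * b + 3), ?_⟩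
      unfold w6
      push_cast
      rw [← hσ]
      linear_combination ((2 + σ) / 4) * hsq) (by
      rw [← hσ]
      have h := nm2 (-(4 * b + 3)) (-(8 * b + 5) / 4) (by
        rintro ⟨m, n, h1, h2⟩
        have h3 : ((2 * m : ℤ) : ℚ) = (-(8 * b + 5) : ℤ) := by push_cast; linarith
        have h4 : 2 * m = -(8 * b + 5) := by exact_mod_cast h3
        omega)
      push_cast at h
      rwa [show (1 + σ) * ((1 + σ) * (σ / 4)) = -(4 * b + 3) + -(8 * b + 5) / 4 * σ by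
        linear_combination ((2 + σ) / 4) * hsq])
  have mOP : Mx V (Lk6 s 3) (Lk6 s 2) := mx_down h2 tO hT' gP.1 gP.2
  exact gd_of_tri hT mOP gO.1 gO.2

theorem gd_Lk46 (hb : B6 K a s) (h2 : V 2 = 1) : Gd3 V (Lk6 s 4) :=
  gd_down h2 (two_Lk6 hb (by norm_num)) (gd_O6 hb h2)

theorem gd_Ch46 (hb : B6 K a s) (h2 : V 2 = 1) {c : Ideal (𝓞 K)} (hc : OddI c) :
    Gd3 V (Ch (M6 s c) (w6 s) 4) := by
  rw [Ch_M6 s c (by norm_num)]
  exact gd_odd h2 hc (two_Lk6 hb (by norm_num : 4 < 5)).lat' (gd_Lk46 hb h2) le_sup_left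
    fun x hx => norm_mul_mem6 hb (by norm_num) hx

theorem two_M6 (hb : B6 K a s) {c : Ideal (𝓞 K)} (hc : OddI c) :
    Two (M6 s c) (Ch (M6 s c) (w6 s) 4) := by
  have h := two_Ch (fr_M6 hb hc) (k := 4) (by norm_num)
  rwa [Ch_five (fr_M6 hb hc)] at h

theorem mx_M6 (hb : B6 K a s) (h2 : V 2 = 1) {c : Ideal (𝓞 K)} (hc : OddI c) :
    Mx V (M6 s c) (Ch (M6 s c) (w6 s) 4) := by
  have ht := two_M6 hb hc
  obtain ⟨B, D, hT⟩ := exists_tri ht.half_two
  have hG := gd_Ch46 hb h2 hc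
  exact mx_down h2 ht hT (hG _ hT.b) (hG _ hT.d)

theorem bgd_M6 (hb : B6 K a s) (h2 : V 2 = 1) {c : Ideal (𝓞 K)} (hc : OddI c) :
    BGd V (M6 s c) (Ch (M6 s c) (w6 s) 4) (8 * w6 s) := by
  have hf := fr_M6 hb hc
  refine (bgd_iff (two_M6 hb hc) h2 ?_ ?_).2 (mx_M6 hb h2 hc)
  · have e : 2 * (8 * w6 s) = (2 : ℂ) ^ 4 * w6 s := by ring
    rw [e]
    exact pow_mem_Ch 4
  · have e : 2 * (8 * w6 s) = 16 * w6 s := by ring
    rw [e]
    exact hf.nmem

private theorem one_of_sq {x : Γ} (h : x ^ 2 = 1) : x = 1 := by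
  rcases lt_trichotomy x 1 with h1 | h1 | h1
  · exact absurd h (pow_lt_one₀ zero_le h1 two_ne_zero).ne
  · exact h1
  · exact absurd h (one_lt_pow₀ h1 two_ne_zero).ne'

theorem unit6 (hb : B6 K a s) {Γ : Type*} [LinearOrderedCommGroupWithZero Γ]
    (V : Valuation ℂ Γ) (hV : V 2 = 1) {c : Ideal (𝓞 K)} (hc : OddI c) :
    V (zc s c) = 1 ∧ V (2 - zc s c ^ 2) = 1 ∧ V (kc s c) = 1 ∧ V (vc s c) = 1 := by
  have h := fr_M6 hb hc
  have hg := bgd_M6 (V := V) hb hV hc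
  unfold zc kc vc
  set M := M6 s c
  set w := w6 s
  have hS : V (SS M w 3) ≠ 0 := (V.ne_zero_iff).2 (SS_ne h le_rfl)
  -- the first two
  have e1 : V (fz M w) ^ 2 * V (2 - fz M w ^ 2) = 1 := by
    have h3 := congrArg V (csq_eq h)
    rw [hg.hc, ← SS_three h, map_mul, map_pow, map_mul, map_pow] at h3
    have h4 : V (SS M w 3) ^ 4 * 1 = V (SS M w 3) ^ 4 * (V (fz M w) ^ 2 * V (2 - fz M w ^ 2)) := by
      rw [mul_one]
      exact h3
    exact (mul_left_cancel₀ (pow_ne_zero 4 hS) h4).symm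
  have hz1 : V (fz M w) ≤ 1 := by
    by_contra hcon
    have h3 : 1 < V (fz M w) := not_le.1 hcon
    have h4 : 1 < V (fz M w) ^ 2 := one_lt_pow₀ h3 two_ne_zero
    have h5 : V (2 - fz M w ^ 2) = V (fz M w) ^ 2 := by
      rw [V.map_sub_eq_of_lt_right, map_pow]
      rw [map_pow, hV]
      exact h4
    rw [h5] at e1
    exact absurd e1 (one_lt_mul'' h4 h4).ne'
  have hz2 : V (2 - fz M w ^ 2) ≤ 1 := by
    refine V.map_sub_le hV.le ?_
    rw [map_pow]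
    exact pow_le_one' hz1 2
  have hz3 : V (fz M w) ^ 2 = 1 := by
    refine le_antisymm (pow_le_one' hz1 2) ?_
    rw [← e1]
    exact mul_le_of_le_one_right' hz2
  have hz4 : V (fz M w) = 1 := one_of_sq hz3
  have hz5 : V (2 - fz M w ^ 2) = 1 := by rwa [hz3, one_mul] at e1
  -- the third
  obtain ⟨D, hT⟩ := chain_tri h (k := 3) (by norm_num)
  have q1 := SS_sq h (k := 3) (by norm_num) hT
  have q2 := DD_sq h (k := 3) (by norm_num) hT
  have q3 := SS_step h (j := 2) (by norm_num) hT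
  have hG := gd_eq hV (gd_Ch46 (V := V) hb hV hc) hT
  have e3 : V (SS M w 2 - SS M w 3) ^ 2 = V (SS M w 3) ^ 2 := by
    rw [← map_pow, ← map_pow, ← q3, q2, q1, ← hG]
    exact (V.map_sub_swap _ _).symm ▸ rfl
  have e4 : V (fz M w ^ 2 - 1) ^ 2 = 1 := by
    have h3 : (fz M w ^ 2 - 1) * SS M w 3 = SS M w 2 - SS M w 3 := by
      have := fz_sq' h
      linear_combination this
    have h4 := congrArg (fun x => V x ^ 2) h3
    simp only [map_mul, mul_pow] at h4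
    rw [e3] at h4
    have h5 : V (fz M w ^ 2 - 1) ^ 2 * V (SS M w 3) ^ 2 = 1 * V (SS M w 3) ^ 2 := by
      rw [one_mul]
      exact h4
    exact mul_right_cancel₀ (pow_ne_zero 2 hS) h5
  have e5 : V (fk M w) = 1 := by
    have h3 : fz M w ^ 2 - 1 = fk M w ^ 2 := by linear_combination fz_sq h
    have h4 := one_of_sq e4
    rw [h3, map_pow] at h4
    exact one_of_sq h4
  refine ⟨hz4, hz5, e5, ?_⟩
  have h3 := congrArg V (fvz_sq h)
  rw [map_pow, map_mul, map_mul, hV, e5, hz4, mul_one, mul_one] at h3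
  exact one_of_sq h3

end Pool.Agent.Work.MP_8efaaa_nt.K6
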