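import Mathlib
import Pool.Agent.Work.MP_8efaaa_nt.R.BInt
import Pool.Agent.Work.MP_8efaaa_nt.R.CKrC
import Pool.Agent.Work.MP_8efaaa_nt.R.DVal
import Pool.Agent.Work.MP_8efaaa_nt.K5.KrR
import Pool.Agent.Work.MP_8efaaa_nt.K6.AUn
import Pool.Agent.Work.MP_8efaaa_nt.K6.ARm

/-!
# K6/AKm (M-L): the Kronecker congruence at the ramified primes

Owner: helper47 (class 5: `K5/KrR`). `l ∣ a` an odd prime, `q = r6 S l`, `q ^ 2 = (l)`. `V` is a valuation with `V l < 1` (then `V 2 = 1`, `V x ≤ 1` for all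
algebraic integers is NOT needed in `unit6`). -/

set_option autoImplicit false

namespace Pool.Agent.Work.MP_8efaaa_nt.K6

open NumberField Pool.Agent.Work.CM Pool.Agent.Work.MP_8efaaa_nt.R Pool.Agent.Work.MP_8efaaa_nt.K5
open scoped Pointwise

universe u

variable {K : Type u} [Field K] [NumberField K] [Algebra K ℂ] {a : ℕ} {s : K} {S : 𝓞 K}

private theorem mem_smul8 {L : Submodule ℤ ℂ} {m z : ℂ} : z ∈ m • L ↔ ∃ y ∈ L, m * y = z := by
  rw [Submodule.mem_smul_pointwise_iff_exists]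
  rfl

private theorem mem_iv' {c : Ideal (𝓞 K)} (hc : c ≠ ⊥) {x : K} :
    algebraMap K ℂ x ∈ iv c ↔ x ∈ (c : FractionalIdeal (nonZeroDivisors (𝓞 K)) K)⁻¹ := by
  have hc' : (c : FractionalIdeal (nonZeroDivisors (𝓞 K)) K) ≠ 0 :=
    FractionalIdeal.coeIdeal_ne_zero.mpr hc
  rw [FractionalIdeal.mem_inv_iff hc', mem_iv]
  constructor
  · rintro ⟨x', h, hx⟩ y hy
    have hx' : x' = x := (algebraMap K ℂ).injective hx
    subst hx'
    obtain ⟨y', hy', rfl⟩ := (FractionalIdeal.mem_coeIdeal _).mp hy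
    obtain ⟨t, ht⟩ := h y' hy'
    exact (FractionalIdeal.mem_one_iff _).mpr ⟨t, ht⟩
  · intro h
    refine ⟨x, fun y hy => ?_, rfl⟩
    exact (FractionalIdeal.mem_one_iff _).mp
      (h (algebraMap _ K y) (FractionalIdeal.mem_coeIdeal_of_mem _ hy))

private theorem iv_image {c : Ideal (𝓞 K)} {z : ℂ} (hz : z ∈ iv c) :
    ∃ x : K, algebraMap K ℂ x = z := by
  obtain ⟨x, _, hx⟩ := mem_iv.mp hz
  exact ⟨x, hx⟩

/-- in the residue field with `l` elements every element is an integer -/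
private theorem exists_int {l : ℕ} (hl : l.Prime) {q : Ideal (𝓞 K)} (hq : q.IsPrime)
    (hql : Ideal.absNorm q = l) (t : 𝓞 K) : ∃ n : ℤ, t - n ∈ q := by
  haveI : Fact l.Prime := ⟨hl⟩
  have hcard : Nat.card (𝓞 K ⧸ q) = l := by
    rw [← hql, Ideal.absNorm_apply, Submodule.cardQuot_apply]
  have h1 : (1 : 𝓞 K ⧸ q) ≠ 0 := by
    haveI := Ideal.Quotient.nontrivial_iff.mpr hq.ne_top
    exact one_ne_zero
  have := mem_zmultiples_of_prime_card (p := l) hcard (g' := Ideal.Quotient.mk q t) h1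
  obtain ⟨n, hn⟩ := AddSubgroup.mem_zmultiples_iff.mp this
  refine ⟨n, ?_⟩
  rw [← Ideal.Quotient.eq_zero_iff_mem, map_sub, sub_eq_zero, ← hn]
  simp

private theorem exists_gen {q c : Ideal (𝓞 K)} (hq : q.IsPrime) (hq0 : q ≠ ⊥) (hc0 : c ≠ ⊥) :
    ∃ x : K, x ∈ ((q * c : Ideal (𝓞 K)) : FractionalIdeal (nonZeroDivisors (𝓞 K)) K)⁻¹ ∧
      x ∉ (c : FractionalIdeal (nonZeroDivisors (𝓞 K)) K)⁻¹ ∧
      ∀ z ∈ ((q * c : Ideal (𝓞 K)) : FractionalIdeal (nonZeroDivisors (𝓞 K)) K)⁻¹,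
        ∃ t : 𝓞 K, z - algebraMap (𝓞 K) K t * x ∈
          (c : FractionalIdeal (nonZeroDivisors (𝓞 K)) K)⁻¹ := by
  have hqm : q.IsMaximal := hq.isMaximal hq0
  rw [FractionalIdeal.coeIdeal_mul]
  set C : FractionalIdeal (nonZeroDivisors (𝓞 K)) K :=
    (c : FractionalIdeal (nonZeroDivisors (𝓞 K)) K) with hC
  set Q : FractionalIdeal (nonZeroDivisors (𝓞 K)) K :=
    (q : FractionalIdeal (nonZeroDivisors (𝓞 K)) K) with hQ
  have hC0 : C ≠ 0 := FractionalIdeal.coeIdeal_ne_zero.mpr hc0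
  have hQ0 : Q ≠ 0 := FractionalIdeal.coeIdeal_ne_zero.mpr hq0
  have hQC0 : Q * C ≠ 0 := mul_ne_zero hQ0 hC0
  have hCQC : C⁻¹ * (Q * C) = Q := by
    rw [mul_comm Q C, ← mul_assoc, inv_mul_cancel₀ hC0, one_mul]
  obtain ⟨x, hx, hxc⟩ : ∃ x ∈ (Q * C)⁻¹, x ∉ C⁻¹ := by
    by_contra hcon
    push Not at hcon
    have hle : (Q * C)⁻¹ ≤ C⁻¹ := fun x hx => hcon x hx
    have h1 : (1 : FractionalIdeal (nonZeroDivisors (𝓞 K)) K) ≤ Q := by
      calc (1 : FractionalIdeal (nonZeroDivisors (𝓞 K)) K) = (Q * C)⁻¹ * (Q * C) :=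
            (inv_mul_cancel₀ hQC0).symm
        _ ≤ C⁻¹ * (Q * C) := mul_le_mul_left hle _
        _ = Q := hCQC
    rw [← FractionalIdeal.coeIdeal_top, hQ] at h1
    exact hq.ne_top (top_le_iff.mp ((FractionalIdeal.coeIdeal_le_coeIdeal K).mp h1))
  refine ⟨x, hx, hxc, ?_⟩
  set J : FractionalIdeal (nonZeroDivisors (𝓞 K)) K :=
    C⁻¹ + FractionalIdeal.spanSingleton (nonZeroDivisors (𝓞 K)) x with hJ
  have hCle : C⁻¹ ≤ (Q * C)⁻¹ := by
    have h1 : Q * C ≤ C := by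
      calc Q * C ≤ 1 * C := mul_le_mul_left FractionalIdeal.coeIdeal_le_one _
        _ = C := one_mul _
    exact FractionalIdeal.inv_anti_mono hQC0 hC0 h1
  have hJle : J ≤ (Q * C)⁻¹ := by
    rw [hJ, ← FractionalIdeal.sup_eq_add, sup_le_iff]
    exact ⟨hCle, FractionalIdeal.spanSingleton_le_iff_mem.mpr hx⟩
  have hJQC : J * (Q * C) ≤ 1 := by
    calc J * (Q * C) ≤ (Q * C)⁻¹ * (Q * C) := mul_le_mul_left hJle _
      _ = 1 := inv_mul_cancel₀ hQC0
  obtain ⟨I, hI⟩ := FractionalIdeal.le_one_iff_exists_coeIdeal.mp hJQC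
  have hqI : q ≤ I := by
    rw [← FractionalIdeal.coeIdeal_le_coeIdeal K, hI, ← hQ]
    calc Q = C⁻¹ * (Q * C) := hCQC.symm
      _ ≤ J * (Q * C) := mul_le_mul_left (by rw [hJ]; exact le_self_add) _
  have hIq : I ≠ q := by
    intro h
    apply hxc
    rw [h, ← hQ] at hI
    have : J = C⁻¹ := by
      calc J = J * (Q * C) * (Q * C)⁻¹ := by rw [mul_assoc, mul_inv_cancel₀ hQC0, mul_one]
        _ = C⁻¹ * (Q * C) * (Q * C)⁻¹ := by rw [← hI, hCQC]
        _ = C⁻¹ := by rw [mul_assoc, mul_inv_cancel₀ hQC0, mul_one]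
    rw [← this]
    have h2 : FractionalIdeal.spanSingleton (nonZeroDivisors (𝓞 K)) x ≤ J := by
      rw [hJ]; exact le_add_self
    exact h2 (FractionalIdeal.mem_spanSingleton_self _ x)
  have hItop : I = ⊤ := by
    by_contra h
    exact hIq (hqm.eq_of_le h hqI).symm
  have hJeq : J = (Q * C)⁻¹ := by
    rw [hItop, FractionalIdeal.coeIdeal_top] at hI
    calc J = J * (Q * C) * (Q * C)⁻¹ := by rw [mul_assoc, mul_inv_cancel₀ hQC0, mul_one]
      _ = (Q * C)⁻¹ := by rw [← hI, one_mul]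
  intro z hz
  rw [← hJeq, hJ] at hz
  obtain ⟨y, hy, w, hw, hyw⟩ := (FractionalIdeal.mem_add _ _ _).mp hz
  obtain ⟨t, ht⟩ := (FractionalIdeal.mem_spanSingleton _).mp hw
  refine ⟨t, ?_⟩
  have : z - algebraMap (𝓞 K) K t * x = y := by
    rw [← hyw, ← ht, Algebra.smul_def]
    ring
  rw [this]
  exact hy

private theorem step_iv6 (hb : B6 K a s) {l : ℕ} (hl : l.Prime) (hl2 : l ≠ 2)
    {q : Ideal (𝓞 K)}
    (hq : q.IsPrime) (hql : Ideal.absNorm q = l) {c : Ideal (𝓞 K)} (hc : OddI c) :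
    ∃ u, u ∉ M6 s c ∧ (l : ℂ) * u ∈ M6 s c ∧ M6 s (q * c) = M6 s c ⊔ Submodule.span ℤ {u} := by
  have hc0 : c ≠ ⊥ := by
    rintro rfl
    simp [OddI] at hc
  have hq0 : q ≠ ⊥ := by
    rintro rfl
    simp only [Ideal.absNorm_bot] at hql
    exact hl.ne_zero hql.symm
  have hqc0 : q * c ≠ ⊥ := mul_ne_zero hq0 hc0
  obtain ⟨x, hx, hxc, hall⟩ := exists_gen hq hq0 hc0
  have hxI : algebraMap K ℂ x ∈ iv (q * c) := (mem_iv' hqc0).mpr hx
  have hxN : algebraMap K ℂ x ∉ iv c := fun h => hxc ((mem_iv' hc0).mp h)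
  -- multiplication by elements of q
  have hqx : ∀ t ∈ q, em t * algebraMap K ℂ x ∈ iv c := by
    intro t ht
    obtain ⟨x', hx', hxx⟩ := mem_iv.mp hxI
    have : x' = x := (algebraMap K ℂ).injective hxx
    subst this
    refine mem_iv.mpr ⟨algebraMap (𝓞 K) K t * x', fun y hy => ?_, by rw [map_mul]⟩
    obtain ⟨r, hr⟩ := hx' (t * y) (Ideal.mul_mem_mul ht hy)
    exact ⟨r, by rw [hr, map_mul]; ring⟩
  have hlx : (l : ℂ) * algebraMap K ℂ x ∈ iv c := by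
    have h := hqx (l : 𝓞 K) (by rw [← hql]; exact Ideal.absNorm_mem q)
    simpa [R.em] using h
  -- the superlattice
  have hsup : iv (q * c) = iv c ⊔ Submodule.span ℤ {algebraMap K ℂ x} := by
    apply le_antisymm
    · intro z hz
      obtain ⟨z', rfl⟩ := iv_image hz
      obtain ⟨t, ht⟩ := hall z' ((mem_iv' hqc0).mp hz)
      obtain ⟨n, hn⟩ := exists_int hl hq hql t
      have h1 : algebraMap K ℂ (z' - algebraMap (𝓞 K) K t * x) ∈ iv c := (mem_iv' hc0).mpr ht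
      have h2 := hqx _ hn
      rw [Submodule.mem_sup]
      refine ⟨_, add_mem h1 h2, (n : ℂ) * algebraMap K ℂ x,
        Submodule.mem_span_singleton.mpr ⟨n, by simp⟩, ?_⟩
      simp only [R.em, map_sub, map_mul, map_intCast]
      ring
    · rw [sup_le_iff]
      refine ⟨iv_le_mul q c, ?_⟩
      rw [Submodule.span_singleton_le_iff_mem]
      exact hxI
  refine ⟨8 * algebraMap K ℂ x, ?_, ?_, ?_⟩
  · intro hmem
    obtain ⟨S, hS, -, -⟩ := exists_S6 hb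
    rw [M6, Submodule.mem_sup] at hmem
    obtain ⟨y, hy, i8, hi8, hyi⟩ := hmem
    obtain ⟨i, hi, rfl⟩ := mem_smul8.mp hi8
    have hyint : ∃ t : 𝓞 K, em t = y := by
      obtain ⟨m, n, rfl⟩ := Submodule.mem_span_pair.mp hy
      refine ⟨4 * (m : 𝓞 K) * S + n, ?_⟩
      simp only [R.em, map_add, map_mul, map_intCast, map_ofNat, hS, zsmul_eq_mul]
      ring
    obtain ⟨t, rfl⟩ := hyint
    have ht : em t ∈ iv c := int_mem_iv c t
    -- l * y and 8 * y are in 8 • iv c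
    have h8y : 8 * em t ∈ (8 : ℂ) • iv c := mem_smul8.mpr ⟨_, ht, rfl⟩
    have hly : (l : ℂ) * em t ∈ (8 : ℂ) • iv c := by
      refine mem_smul8.mpr ⟨(l : ℂ) * algebraMap K ℂ x - (l : ℂ) * i, ?_, ?_⟩
      · refine sub_mem hlx ?_
        have := (iv c).smul_mem (l : ℤ) hi
        simpa [zsmul_eq_mul] using this
      · linear_combination (-(l : ℂ)) * hyi
    have hcop : IsCoprime (l : ℤ) 8 := by
      have h1 : Nat.Coprime l 8 := by
        have h2 : Nat.Coprime l 2 := (Nat.coprime_primes hl Nat.prime_two).mpr hl2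
        have h3 := Nat.Coprime.pow_right 3 h2
        simpa using h3
      exact_mod_cast Nat.isCoprime_iff_coprime.mpr h1
    obtain ⟨u, v, huv⟩ := hcop
    have hy8 : em t ∈ (8 : ℂ) • iv c := by
      have h1 := add_mem (((8 : ℂ) • iv c).smul_mem u hly) (((8 : ℂ) • iv c).smul_mem v h8y)
      have h2 : u • ((l : ℂ) * em t) + v • (8 * em t) = em t := by
        rw [zsmul_eq_mul, zsmul_eq_mul]
        have : (u : ℂ) * l + v * 8 = 1 := by exact_mod_cast huv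
        linear_combination (em t) * this
      rwa [h2] at h1
    have hx8 : 8 * algebraMap K ℂ x ∈ (8 : ℂ) • iv c := by
      rw [← hyi]
      exact add_mem hy8 (mem_smul8.mpr ⟨i, hi, rfl⟩)
    obtain ⟨j, hj, hj8⟩ := mem_smul8.mp hx8
    have : j = algebraMap K ℂ x := mul_left_cancel₀ (by norm_num : (8 : ℂ) ≠ 0) hj8
    exact hxN (this ▸ hj)
  · refine Submodule.mem_sup_right (mem_smul8.mpr ⟨_, hlx, ?_⟩)
    ring
  · rw [M6, M6, hsup, Submodule.smul_sup', sup_assoc]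
    congr 2
    rw [Submodule.smul_span]
    simp

private theorem M_span6 (hb : B6 K a s) (c : Ideal (𝓞 K)) {δ : 𝓞 K} {p q : ℤ}
    (hpq : algebraMap (𝓞 K) K δ = p + 4 * q * s) (hδ : OddI (Ideal.span {δ})) :
    M6 s (Ideal.span {δ} * c) = (em δ)⁻¹ • M6 s c ∧
      Ch (M6 s (Ideal.span {δ} * c)) (w6 s) 4 = (em δ)⁻¹ • Ch (M6 s c) (w6 s) 4 := by
  have hδ0 : δ ≠ 0 := by
    rintro rfl
    unfold OddI at hδ
    rw [Ideal.span_singleton_eq_bot.2 rfl, Ideal.absNorm_bot] at hδ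
    exact absurd hδ (by decide)
  have hd : em δ ≠ 0 := em_ne' hδ0
  constructor
  · rw [M6_span s hδ0, order_eq6 hb c (j := 3) (by norm_num) (p := p) (q := q)
      (by rw [hpq]; norm_num) hδ, ← M6]
  · rw [Ch_M6 s _ (by norm_num), Ch_M6 s _ (by norm_num), iv_span hδ0,
      show (4 : ℕ) = 2 + 2 by norm_num, Lk_La6,
      ← order_eq6 hb c (j := 2) (by norm_num) (p := p) (q := 2 * q)
      (by rw [hpq]; push_cast; ring) hδ, Submodule.smul_sup', inv_smul_smul₀ hd, smul_comm]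

/-- the value of `csq` becomes smaller under a ramified prime ideal -/
theorem csq_lt_ram6 (hb : B6 K a s) {Γ : Type*} [LinearOrderedCommGroupWithZero Γ]
    {V : Valuation ℂ Γ} (h2 : V 2 = 1) {l : ℕ} (hl : l.Prime) (hl2 : l ≠ 2)
    (hla : l ∣ a) {q : Ideal (𝓞 K)} (hq : q.IsPrime) (hql : Ideal.absNorm q = l)
    (hVl : V (l : ℂ) < 1) (hVq : ∀ x ∈ q, V (em x) < 1) {c : Ideal (𝓞 K)} (hc : OddI c) :
    V (csq (M6 s (q * c)) (Ch (M6 s (q * c)) (w6 s) 4)) <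
      V (csq (M6 s c) (Ch (M6 s c) (w6 s) 4)) := by
  obtain ⟨S, hS, hSS0, hS'⟩ := exists_S6 hb
  have hlo : Odd l := hl.odd_of_ne_two hl2
  obtain ⟨a', ha'⟩ := hla
  have hqo : OddI q := by
    unfold OddI
    rw [hql]
    exact hlo
  have hqc : OddI (q * c) := (oddI_mul q c).2 ⟨hqo, hc⟩
  have hSS : S * S = -(a : 𝓞 K) := by rw [← hSS0, pow_two]
  have hlq : (l : 𝓞 K) ∈ q := by
    rw [← hql]
    exact Ideal.absNorm_mem q
  have hSq : S ∈ q := by
    have h1 : S * S ∈ q := by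
      rw [hSS, ha']
      push_cast
      exact q.neg_mem (q.mul_mem_right _ hlq)
    rcases hq.mem_or_mem h1 with h | h <;> exact h
  set lam : 𝓞 K := (l : 𝓞 K) + 4 * S with hlam
  have hlamq : lam ∈ q := q.add_mem hlq (q.mul_mem_left _ hSq)
  have hlK : algebraMap (𝓞 K) K lam = ((l : ℤ) : K) + 4 * ((1 : ℤ) : K) * s := by
    rw [hlam]
    simp only [map_add, map_mul, map_natCast, map_ofNat, hS]
    push_cast
    ring
  have hlK' : algebraMap (𝓞 K) K lam = ((l : ℤ) : K) + ((4 : ℤ) : K) * s := by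
    rw [hlK]
    push_cast
    ring
  have hodd : OddI (Ideal.span {lam}) := by
    rw [oddI_span6 hb hlK']
    exact_mod_cast hlo
  have hnorm := norm_lin6 hb hlK'
  obtain ⟨b, hb'⟩ : q ∣ Ideal.span {lam} := Ideal.dvd_span_singleton.2 hlamq
  have hbo : OddI b := by
    have h1 := hodd
    rw [hb', oddI_mul] at h1
    exact h1.2
  have hnb : (Ideal.absNorm b : ℤ) = l + 16 * a' := by
    rw [hb', map_mul, hql, ha'] at hnorm
    have hl0 : (l : ℤ) ≠ 0 := by exact_mod_cast hl.ne_zero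
    apply mul_left_cancel₀ hl0
    push_cast at hnorm
    linear_combination hnorm
  have hVb : V ((Ideal.absNorm b : ℕ) : ℂ) = 1 := by
    have hlZ : Prime (l : ℤ) := Nat.prime_iff_prime_int.1 hl
    have h1 : V (((Ideal.absNorm b : ℕ) : ℤ) : ℂ) = 1 := by
      refine val_int V hl hVl ?_
      rw [hnb]
      intro hd
      have h3 : (l : ℤ) ∣ 16 * a' := (dvd_add_right (dvd_refl _)).1 hd
      rcases hlZ.dvd_or_dvd h3 with h4 | h4
      · have h5 : l ∣ 2 ^ 4 := by exact_mod_cast h4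
        exact hl2 ((Nat.prime_dvd_prime_iff_eq hl Nat.prime_two).1 (hl.dvd_of_dvd_pow h5))
      · have h5 : l ∣ a' := by exact_mod_cast h4
        have h6 : l * l ∣ a := by
          rw [ha']
          exact Nat.mul_dvd_mul_left l h5
        exact hl.not_isUnit (hb.sf l h6)
    exact_mod_cast h1
  -- the ideal `b q c = (λ) c`
  have hbqc : b * (q * c) = Ideal.span {lam} * c := by rw [hb', ← mul_assoc, mul_comm b q]
  have hle : M6 s (q * c) ≤ M6 s (b * (q * c)) := by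
    unfold M6
    refine sup_le_sup_left ?_ _
    intro z hz
    rw [Submodule.mem_smul_pointwise_iff_exists] at hz ⊢
    obtain ⟨y, hy, rfl⟩ := hz
    exact ⟨y, iv_le_mul b _ hy, rfl⟩
  have hmul : ∀ x ∈ M6 s (b * (q * c)), ((Ideal.absNorm b : ℕ) : ℂ) * x ∈ M6 s (q * c) := by
    intro x hx
    obtain ⟨y, hy, z, hz, rfl⟩ := Submodule.mem_sup.1 hx
    rw [Submodule.mem_smul_pointwise_iff_exists] at hz
    obtain ⟨w, hw, rfl⟩ := hz
    rw [mul_add]
    refine add_mem (Submodule.mem_sup_left ?_) (Submodule.mem_sup_right ?_)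
    · have := (La6 s 3).smul_mem ((Ideal.absNorm b : ℕ) : ℤ) hy
      rw [zsmul_eq_mul] at this
      exact_mod_cast this
    · rw [Submodule.mem_smul_pointwise_iff_exists]
      refine ⟨((Ideal.absNorm b : ℕ) : ℂ) * w, ?_, ?_⟩
      · obtain ⟨x0, hx0, hx1⟩ := mem_iv.1 hw
        refine mem_iv.2 ⟨((Ideal.absNorm b : ℕ) : K) * x0, fun y0 hy0 => ?_, by
          rw [map_mul, map_natCast, hx1]⟩
        obtain ⟨t, ht⟩ := hx0 (((Ideal.absNorm b : ℕ) : 𝓞 K) * y0)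
          (Ideal.mul_mem_mul (Ideal.absNorm_mem b) hy0)
        refine ⟨t, ?_⟩
        rw [ht, map_mul, map_natCast]
        ring
      · simp only [smul_eq_mul]
        ring
  have hchain := csq_odd h2 hbo hVb (two_M6 hb hqc) (mx_M6 hb h2 hqc) hle hmul
  have hsup : Ch (M6 s (q * c)) (w6 s) 4 ⊔ M6 s (b * (q * c)) =
      Ch (M6 s (b * (q * c))) (w6 s) 4 := by
    unfold Ch
    rw [sup_right_comm, sup_eq_right.2 hle]
  rw [hsup, hbqc, (M_span6 hb c hlK hodd).1] at hchain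
  have hC := (M_span6 hb c hlK hodd).2
  rw [(M_span6 hb c hlK hodd).1] at hC
  have hl0 : em lam ≠ 0 := by
    refine em_ne' ?_
    intro h0
    rw [h0] at hodd
    unfold OddI at hodd
    rw [Ideal.span_singleton_eq_bot.2 rfl, Ideal.absNorm_bot] at hodd
    exact absurd hodd (by decide)
  rw [hC, bcsq_smul (two_M6 hb hc) (inv_ne_zero hl0), inv_pow, inv_inv, map_mul, map_pow] at hchain
  refine lt_of_le_of_lt hchain ?_
  have h5 : V (csq (M6 s c) (Ch (M6 s c) (w6 s) 4)) ≠ 0 :=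
    (V.ne_zero_iff).2 (bcsq_ne (two_M6 hb hc))
  have h6 : V (em lam) ^ 4 < 1 := pow_lt_one₀ zero_le (hVq lam hlamq) (by norm_num)
  calc V (em lam) ^ 4 * V (csq (M6 s c) (Ch (M6 s c) (w6 s) 4)) <
      1 * V (csq (M6 s c) (Ch (M6 s c) (w6 s) 4)) :=
        mul_lt_mul_of_pos_right h6 (zero_lt_iff.2 h5)
    _ = _ := one_mul _

/-- the congruence at a ramified prime ideal -/
theorem kron_ram6' (hb : B6 K a s) {Γ : Type*}
    [LinearOrderedCommGroupWithZero Γ] (V : Valuation ℂ Γ) {l : ℕ} (hl : l.Prime) (hl2 : l ≠ 2)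
    (hla : l ∣ a) {q : Ideal (𝓞 K)} (hq : q.IsPrime) (hql : Ideal.absNorm q = l)
    (hV1 : ∀ x : 𝓞 K, V (algebraMap K ℂ (algebraMap (𝓞 K) K x)) ≤ 1)
    (hV2 : ∀ x : 𝓞 K, V (algebraMap K ℂ (algebraMap (𝓞 K) K x)) < 1 ↔ x ∈ q)
    {c : Ideal (𝓞 K)} (hc : OddI c) :
    V (zc s (q * c) - zc s c ^ l) < 1 ∧ V (kc s (q * c) - kc s c ^ l) < 1 ∧
      V (vc s (q * c) - vc s c ^ l) < 1 := by
  obtain ⟨h2, hVl⟩ := V_two hl hl2 hq hql hV1 hV2
  have hlo : Odd l := hl.odd_of_ne_two hl2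
  have hqo : OddI q := by
    unfold OddI
    rw [hql]
    exact hlo
  have hqc : OddI (q * c) := (oddI_mul q c).2 ⟨hqo, hc⟩
  have hlt := csq_lt_ram6 hb h2 hl hl2 hla hq hql hVl (fun x hx => (hV2 x).2 hx) hc
  obtain ⟨u, hu1, hu2, hu3⟩ := step_iv6 hb hl hl2 hq hql hc
  have k1 := kron_one V hl h2 hVl (fr_M6 hb hc) (fr_M6 hb hqc) hu1 hu2 hu3
    ⟨(unit6 hb V h2 hc).1, (unit6 hb V h2 hc).2.1⟩ hlt
  exact ⟨k1.1.2, k1.2.1.2, k1.2.2.2⟩

theorem kron_ram6 (hb : B6 K a s) (hS : algebraMap (𝓞 K) K S = s) {Γ : Type*}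
    [LinearOrderedCommGroupWithZero Γ] (V : Valuation ℂ Γ) {l : ℕ} (hl : l.Prime) (hl2 : l ≠ 2)
    (hla : l ∣ a)
    (hV1 : ∀ x : 𝓞 K, V (algebraMap K ℂ (algebraMap (𝓞 K) K x)) ≤ 1)
    (hV2 : ∀ x : 𝓞 K, V (algebraMap K ℂ (algebraMap (𝓞 K) K x)) < 1 ↔ x ∈ r6 S l)
    {c : Ideal (𝓞 K)} (hc : OddI c) :
    V (zc s (r6 S l * c) - zc s c ^ l) < 1 ∧ V (kc s (r6 S l * c) - kc s c ^ l) < 1 ∧
      V (vc s (r6 S l * c) - vc s c ^ l) < 1 :=
  kron_ram6' hb V hl hl2 hla (r6_prime hb hS hl hla) (norm_r6 hb hS hla) hV1 hV2 hc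

end Pool.Agent.Work.MP_8efaaa_nt.K6
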