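import Mathlib
import Pool.Agent.Work.MP_8efaaa_nt.R.DMove
import Pool.Agent.Work.MP_8efaaa_nt.K6.ARm

/-!
# K6/CMv (L): moving an odd ideal to an ideal prime to `N`

Models `R/DMoveA.lean` (`nonroot` is general; `move_prime`) and `R/DMove.lean` (`mov_mul`, `mov_all`, `mov_norm`); `norm_lin6`, `oddI_span6`, `coords6`.
The case `absNorm d = p` of `move_prime` also works for the ramified primes `p ∣ a` (there `t = 0`, `A = a / p` is prime to `p`). Take `N` to be a multiple of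
`2 a` in the proof (`Mov6 a s (2 a N)` implies `Mov6 a s N`).

New are the last two conditions. `absNorm L.prod = absNorm b (mod 8)`: as in `mov_norm` (`m ^ 2 n' = (x ^ 2 + 64 a y ^ 2) n`, `m`, `x` odd). The symbols, in the
case `δ = x + 8 s` (`y = 1`) of a prime `b`, `d ∣ a`, `d` prime to `n := absNorm b`, `n' := absNorm L.prod` prime to `a`:
`m ^ 2 n' = (x ^ 2 + 64 a) n`. First `gcd(x, d) = 1`: if a prime `l ∣ x`, `l ∣ d` then `l ≠ 2` and `l` divides the right side exactly once (`a` squarefree,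
`l ∤ 64 (a / l)`, `l ∤ n`), but the left side an even number of times. So `x ^ 2 + 64 a`, and hence `m`, is prime to `d`, and `J(d | x ^ 2 + 64 a) = 1`: for odd `d`
by reciprocity (`jacobiSym.quadratic_reciprocity_one_mod_four`, `x ^ 2 + 64 a = 1 (mod 8)`) it is `J(x ^ 2 + 64 a | d) = J(x ^ 2 | d) = 1`, for `d = 2 d'`
also `J(2 | x ^ 2 + 64 a) = 1`. So `J(d | n') = J(d | m ^ 2 n') = J(d | n)`. For products: both sides are multiplicative (`jacobiSym.mul_right`; `d` prime to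
the product is prime to the factors). -/

set_option autoImplicit false

namespace Pool.Agent.Work.MP_8efaaa_nt.K6

open NumberField Pool.Agent.Work.MP_8efaaa_nt.R Pool.Agent.Work.MP_8efaaa_nt.N5

variable {K : Type*} [Field K] [NumberField K] {a : ℕ} {s : K}

/-- the data of `Mov6` for a prime ideal -/
private def MovP {K : Type*} [Field K] [NumberField K] (s : K) (N : ℕ) (d : Ideal (𝓞 K)) : Prop :=
  ∃ (L : List (Ideal (𝓞 K))) (m : ℕ) (x : ℤ) (δ : 𝓞 K), Odd m ∧ Odd x ∧ (m : ℤ) % 8 = x % 8 ∧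
      algebraMap (𝓞 K) K δ = x + 8 * s ∧
      (∀ q ∈ L, q.IsPrime ∧ (Ideal.absNorm q).Prime ∧ ¬ Ideal.absNorm q ∣ N) ∧
      Ideal.span {(m : 𝓞 K)} * L.prod = Ideal.span {δ} * d

/-- a rational prime is not a divisor of `x + 8 s` in `𝓞 K` for odd `x` -/
private theorem not_dvd_lin6 (hb : B6 K a s) {δ : 𝓞 K} {x : ℤ}
    (hδ : algebraMap (𝓞 K) K δ = x + 8 * s) (hx : Odd x) {p : ℕ} (hp : p.Prime) :
    ¬ (p : 𝓞 K) ∣ δ := by
  rintro ⟨γ, rfl⟩
  obtain ⟨m, n, hmn⟩ := coords6 hb γ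
  rw [map_mul, hmn, map_natCast] at hδ
  have h1 : (((x - p * m : ℤ) : ℚ) : K) + (((8 - p * n : ℤ) : ℚ) : K) * s = 0 := by
    push_cast
    linear_combination -hδ
  obtain ⟨h2, h3⟩ := Pool.Agent.Work.MP_787500_nt.Quad.not_rat hb.sq (Nat.pos_of_ne_zero hb.sf.ne_zero) _ _ h1
  have h4 : x - p * m = 0 := by exact_mod_cast h2
  have h5 : 8 - p * n = 0 := by exact_mod_cast h3
  have h6 : (p : ℤ) ∣ (2 : ℤ) ^ 3 := ⟨n, by linarith⟩
  have h7 : p ∣ 2 ^ 3 := by exact_mod_cast h6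
  have h8 : p = 2 := (Nat.prime_dvd_prime_iff_eq hp Nat.prime_two).1 (hp.dvd_of_dvd_pow h7)
  rw [h8] at h4
  obtain ⟨k, hk⟩ := hx
  push_cast at h4
  omega

private theorem exists_prime_mem6 {R : Type*} [CommRing R] {P : Ideal R} (hP : P.IsPrime) (n : ℕ)
    (hn0 : n ≠ 0) (hn : (n : R) ∈ P) : ∃ p : ℕ, p.Prime ∧ (p : R) ∈ P := by
  induction n using Nat.strong_induction_on with
  | _ n ih =>
    have h1 : n ≠ 1 := by
      rintro rfl
      rw [Nat.cast_one] at hn
      exact hP.ne_top ((Ideal.eq_top_iff_one _).2 hn)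
    have hp := Nat.minFac_prime h1
    obtain ⟨m, hm⟩ := Nat.minFac_dvd n
    have h2 : (n.minFac : R) * (m : R) ∈ P := by
      rw [← Nat.cast_mul, ← hm]
      exact hn
    rcases hP.mem_or_mem h2 with h | h
    · exact ⟨_, hp, h⟩
    · have hm0 : m ≠ 0 := by
        rintro rfl
        rw [mul_zero] at hm
        exact hn0 hm
      refine ih m ?_ hm0 h
      rw [hm]
      exact lt_mul_of_one_lt_left (Nat.pos_of_ne_zero hm0) hp.one_lt

private theorem prime_cases6 (hb : B6 K a s) {d : Ideal (𝓞 K)} (hd : d.IsPrime) (hd0 : d ≠ ⊥) :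
    ∃ p : ℕ, p.Prime ∧ (p : 𝓞 K) ∈ d ∧ (Ideal.absNorm d = p ∨ d = Ideal.span {(p : 𝓞 K)}) := by
  have h0 : Ideal.absNorm d ≠ 0 := by
    rw [Ne, Ideal.absNorm_eq_zero_iff]
    exact hd0
  obtain ⟨p, hp, hpd⟩ := exists_prime_mem6 hd _ h0 (Ideal.absNorm_mem d)
  refine ⟨p, hp, hpd, ?_⟩
  have hle : Ideal.span {(p : 𝓞 K)} ≤ d := by
    rw [Ideal.span_singleton_le_iff_mem]
    exact hpd
  have hN : Ideal.absNorm (Ideal.span {(p : 𝓞 K)}) = p ^ 2 := by
    have h1 : algebraMap (𝓞 K) K (p : 𝓞 K) = ((p : ℤ) : K) + ((0 : ℤ) : K) * s := by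
      rw [map_natCast]
      push_cast
      ring
    have h2 := norm_lin6 hb h1
    have h3 : (Ideal.absNorm (Ideal.span {(p : 𝓞 K)}) : ℤ) = ((p ^ 2 : ℕ) : ℤ) := by
      rw [h2]
      push_cast
      ring
    exact_mod_cast h3
  have hdvd : Ideal.absNorm d ∣ p ^ 2 := by
    rw [← hN]
    exact Ideal.absNorm_dvd_absNorm_of_le hle
  obtain ⟨i, hi, hdi⟩ := (Nat.dvd_prime_pow hp).1 hdvd
  interval_cases i
  · exfalso
    rw [pow_zero, Ideal.absNorm_eq_one_iff] at hdi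
    exact hd.ne_top hdi
  · left
    rw [hdi, pow_one]
  · right
    obtain ⟨e, he⟩ := Ideal.dvd_iff_le.2 hle
    have h1 := congrArg Ideal.absNorm he
    rw [hN, map_mul, hdi] at h1
    have h2 : Ideal.absNorm e = 1 := by
      have h3 : p ^ 2 * Ideal.absNorm e = p ^ 2 * 1 := by rw [mul_one]; exact h1.symm
      exact Nat.eq_of_mul_eq_mul_left (pow_pos hp.pos 2) h3
    rw [Ideal.absNorm_eq_one_iff] at h2
    rw [he, h2, Ideal.mul_top]

private theorem factor_list6 (hb : B6 K a s) {e : Ideal (𝓞 K)} (he : e ≠ ⊥) {N : ℕ}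
    (hcop : Nat.Coprime (Ideal.absNorm e) N)
    (hno : ∀ l : ℕ, l.Prime → (Ideal.span {(l : 𝓞 K)}).IsPrime →
      ¬ Ideal.span {(l : 𝓞 K)} ∣ e ) :
    ∃ L : List (Ideal (𝓞 K)), (∀ q ∈ L, q.IsPrime ∧ (Ideal.absNorm q).Prime ∧
      ¬ Ideal.absNorm q ∣ N) ∧ L.prod = e := by
  refine ⟨(UniqueFactorizationMonoid.normalizedFactors e).toList, ?_, ?_⟩
  · intro q hq
    rw [Multiset.mem_toList] at hq
    have hqp : Prime q := UniqueFactorizationMonoid.prime_of_normalized_factor q hq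
    have hqd : q ∣ e := UniqueFactorizationMonoid.dvd_of_mem_normalizedFactors hq
    have hqP : q.IsPrime := Ideal.isPrime_of_prime hqp
    have hq0 : q ≠ ⊥ := hqp.ne_zero
    obtain ⟨l, hl, -, h1 | h1⟩ := prime_cases6 hb hqP hq0
    · refine ⟨hqP, by rw [h1]; exact hl, fun hdiv => ?_⟩
      have h2 : Ideal.absNorm q ∣ Ideal.absNorm e := Ideal.absNorm_dvd_absNorm_of_le
        (Ideal.le_of_dvd hqd)
      have h3 : Ideal.absNorm q ∣ 1 := by
        rw [← hcop]
        exact Nat.dvd_gcd h2 hdiv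
      rw [h1, Nat.dvd_one] at h3
      exact hl.one_lt.ne' h3
    · exact absurd (h1 ▸ hqd) (hno l hl (h1 ▸ hqP))
  · rw [Multiset.prod_toList]
    have := UniqueFactorizationMonoid.prod_normalizedFactors (a := e) he
    exact associated_iff_eq.1 this

private theorem int_mem_iff6 {d : Ideal (𝓞 K)} (hd : d.IsPrime) {p : ℕ} (hp : p.Prime)
    (hpd : (p : 𝓞 K) ∈ d) {n : ℤ} (hn : (n : 𝓞 K) ∈ d) : (p : ℤ) ∣ n := by
  by_contra hc
  have hpp : Prime (p : ℤ) := Nat.prime_iff_prime_int.1 hp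
  have hcop : IsCoprime (p : ℤ) n := (Prime.coprime_iff_not_dvd hpp).2 hc
  obtain ⟨α, β, h⟩ := hcop
  apply hd.ne_top
  rw [Ideal.eq_top_iff_one]
  have h1 : (1 : 𝓞 K) = (α : 𝓞 K) * (p : 𝓞 K) + (β : 𝓞 K) * (n : 𝓞 K) := by
    exact_mod_cast (congrArg (fun z : ℤ => (z : 𝓞 K)) h).symm
  rw [h1]
  exact d.add_mem (d.mul_mem_left _ hpd) (d.mul_mem_left _ hn)

private theorem exists_t6 {d : Ideal (𝓞 K)} {p : ℕ} (hp : p.Prime) (hd : d.IsPrime)
    (hN : Ideal.absNorm d = p) (S : 𝓞 K) : ∃ t : ℤ, S - (t : 𝓞 K) ∈ d := by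
  have : Fact p.Prime := ⟨hp⟩
  have hcard : Nat.card (𝓞 K ⧸ d) = p := by
    rw [← hN]
    rfl
  have h1 : (1 : 𝓞 K ⧸ d) ≠ 0 := by
    intro h
    have : (1 : 𝓞 K) ∈ d := by
      rw [← Ideal.Quotient.eq_zero_iff_mem, map_one]
      exact h
    exact hd.ne_top ((Ideal.eq_top_iff_one _).2 this)
  have h2 : (Ideal.Quotient.mk d S) ∈ AddSubgroup.zmultiples (1 : 𝓞 K ⧸ d) :=
    mem_zmultiples_of_prime_card hcard h1
  obtain ⟨t, ht⟩ := AddSubgroup.mem_zmultiples_iff.1 h2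
  refine ⟨t, ?_⟩
  rw [← Ideal.Quotient.eq_zero_iff_mem, map_sub, map_intCast, ← ht]
  simp

private theorem not_span_dvd_lin6 (hb : B6 K a s) {δ : 𝓞 K} {x : ℤ}
    (hδ : algebraMap (𝓞 K) K δ = x + 8 * s) (hx : Odd x) {l : ℕ} (hl : l.Prime) :
    ¬ Ideal.span {(l : 𝓞 K)} ∣ Ideal.span {δ} := by
  intro h
  rw [Ideal.dvd_span_singleton, Ideal.mem_span_singleton] at h
  exact not_dvd_lin6 hb hδ hx hl h

private theorem move_prime6 (hb : B6 K a s) {d : Ideal (𝓞 K)} (hp : d.IsPrime) (hd : OddI d) {N : ℕ}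
    (hN : N ≠ 0) : MovP s N d := by
  have hd0 : d ≠ ⊥ := by
    rintro rfl
    unfold OddI at hd
    rw [Ideal.absNorm_bot] at hd
    exact absurd hd (by decide)
  obtain ⟨S, hS, hS2, -⟩ := exists_S6 hb
  obtain ⟨p, hpp, hpd, hcase⟩ := prime_cases6 hb hp hd0
  have hnp : (Ideal.absNorm (Ideal.span {(p : 𝓞 K)}) : ℤ) = (p : ℤ) ^ 2 := by
    have h1 : algebraMap (𝓞 K) K (p : 𝓞 K) = ((p : ℤ) : K) + ((0 : ℤ) : K) * s := by
      rw [map_natCast]
      push_cast
      ring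
    rw [norm_lin6 hb h1]
    ring
  have hpodd : Odd p := by
    unfold OddI at hd
    rcases hcase with h | h
    · rwa [h] at hd
    · rw [h] at hd
      have h1 : Ideal.absNorm (Ideal.span {(p : 𝓞 K)}) = p ^ 2 := by exact_mod_cast hnp
      rw [h1] at hd
      exact Nat.Odd.of_mul_left (by rwa [pow_two] at hd)
  have hpoddZ : Odd (p : ℤ) := by exact_mod_cast hpodd
  rcases hcase with hNd | hdp
  · -- degree one
    obtain ⟨t, ht⟩ := exists_t6 hpp hp hNd S
    have hta : (((t ^ 2 + a : ℤ)) : 𝓞 K) ∈ d := by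
      have h1 : (((t ^ 2 + a : ℤ)) : 𝓞 K) = -(S + t) * (S - t) := by
        push_cast
        linear_combination hS2
      rw [h1]
      exact d.mul_mem_left _ ht
    obtain ⟨A', hA'⟩ := int_mem_iff6 hp hpp hpd hta
    obtain ⟨u, hu8, hucop⟩ := nonroot (A := p) (B := 16 * t) (C := 64 * A') (r := 1) hN
      (by
        rintro l hl hl2 ⟨h1, h2, h3⟩
        have hlp : Prime (l : ℤ) := Nat.prime_iff_prime_int.1 hl
        have hn2 : ∀ k : ℕ, ¬ (l : ℤ) ∣ 2 ^ k := by
          intro k hk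
          have h4 : l ∣ 2 := hl.dvd_of_dvd_pow (n := k) (by exact_mod_cast hk)
          exact hl2 ((Nat.prime_dvd_prime_iff_eq hl Nat.prime_two).1 h4)
        have hlp' : l = p := (Nat.prime_dvd_prime_iff_eq hl hpp).1 (by exact_mod_cast h1)
        subst hlp'
        have ht' : (l : ℤ) ∣ t := by
          rcases hlp.dvd_or_dvd h2 with h4 | h4
          · exact absurd (by simpa using h4) (hn2 4)
          · exact h4
        have hA'' : (l : ℤ) ∣ A' := by
          rcases hlp.dvd_or_dvd h3 with h4 | h4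
          · exact absurd (by simpa using h4) (hn2 6)
          · exact h4
        obtain ⟨t', rfl⟩ := ht'
        obtain ⟨A2, rfl⟩ := hA''
        have h5 : ((l * l : ℕ) : ℤ) ∣ (a : ℤ) := ⟨A2 - t' ^ 2, by push_cast; linear_combination hA'⟩
        have h6 : l * l ∣ a := by exact_mod_cast h5
        exact hl.one_lt.ne' (Nat.isUnit_iff.1 (hb.sf l h6)))
      (by
        intro u hu
        obtain ⟨k, hk⟩ := hpoddZ
        have h1 : u % 2 = 1 := by omega
        obtain ⟨j, hj⟩ : ∃ j, u = 2 * j + 1 := ⟨u / 2, by omega⟩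
        rw [hk, hj]
        refine ⟨k * (2 * j + 1) ^ 2 + 2 * j ^ 2 + 2 * j + 8 * t * (2 * j + 1) + 32 * A', ?_⟩
        ring)
    obtain ⟨j, hj⟩ : ∃ j, u = 8 * j + 1 := ⟨u / 8, by omega⟩
    set x : ℤ := 8 * t + p * u with hxdef
    have hx : Odd x := by
      obtain ⟨k, hk⟩ := hpoddZ
      refine ⟨4 * t + 4 * (2 * k + 1) * j + k, ?_⟩
      rw [hxdef, hk, hj]; ring
    have hm8 : (p : ℤ) % 8 = x % 8 := by
      rw [hxdef, hj]
      rw [show (8 * t + (p : ℤ) * (8 * j + 1)) = p + 8 * (t + p * j) by ring]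
      omega
    have hδ : algebraMap (𝓞 K) K ((x : 𝓞 K) + 8 * S) = x + 8 * s := by
      rw [map_add, map_mul, hS, map_intCast, map_ofNat]
    have hle : Ideal.span {((x : 𝓞 K) + 8 * S)} * d ≤ Ideal.span {(p : 𝓞 K)} := by
      rw [Ideal.span_singleton_mul_le_iff]
      intro y hy
      obtain ⟨y1, y2, hy12⟩ := coords6 hb y
      have hyS : y = (y1 : 𝓞 K) + y2 * S := by
        apply NumberField.RingOfIntegers.coe_injective
        rw [hy12, map_add, map_mul, hS, map_intCast, map_intCast]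
      have hyt : (((y1 + y2 * t : ℤ)) : 𝓞 K) ∈ d := by
        have h1 : (((y1 + y2 * t : ℤ)) : 𝓞 K) = y - y2 * (S - t) := by
          rw [hyS]; push_cast; ring
        rw [h1]
        exact d.sub_mem hy (d.mul_mem_left _ ht)
      obtain ⟨w, hw⟩ := int_mem_iff6 hp hpp hpd hyt
      rw [Ideal.mem_span_singleton]
      refine ⟨((x : 𝓞 K) + 8 * S) * w + y2 * (u * S - 8 * A' - u * t), ?_⟩
      have hwK : (y1 : 𝓞 K) + y2 * t = (p : 𝓞 K) * w := by exact_mod_cast congrArg (fun z : ℤ => (z : 𝓞 K)) hw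
      have hAK : (t : 𝓞 K) ^ 2 + (a : 𝓞 K) = (p : 𝓞 K) * A' := by
        exact_mod_cast congrArg (fun z : ℤ => (z : 𝓞 K)) hA'
      have hxK : (x : 𝓞 K) = 8 * t + p * u := by rw [hxdef]; push_cast; ring
      rw [hyS, hxK]
      linear_combination (8 * (t : 𝓞 K) + p * u + 8 * S) * hwK + 8 * (y2 : 𝓞 K) * hS2 - 8 * (y2 : 𝓞 K) * hAK
    obtain ⟨e, he⟩ := Ideal.dvd_iff_le.2 hle
    have hNδ : (Ideal.absNorm (Ideal.span {((x : 𝓞 K) + 8 * S)}) : ℤ) = x ^ 2 + a * 8 ^ 2 :=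
      norm_lin6 hb (by rw [hδ]; push_cast; ring)
    have hNe : (Ideal.absNorm e : ℤ) = p * u ^ 2 + 16 * t * u + 64 * A' := by
      have h1 := congrArg Ideal.absNorm he
      rw [map_mul, map_mul, hNd] at h1
      have h2 : ((Ideal.absNorm (Ideal.span {((x : 𝓞 K) + 8 * S)}) : ℤ)) * p =
          (Ideal.absNorm (Ideal.span {(p : 𝓞 K)}) : ℤ) * (Ideal.absNorm e : ℤ) := by
        exact_mod_cast h1
      rw [hNδ, hnp] at h2
      have hp0 : (p : ℤ) ≠ 0 := by exact_mod_cast hpp.ne_zero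
      have h3 : (p : ℤ) ^ 2 * (Ideal.absNorm e : ℤ) =
          (p : ℤ) ^ 2 * (p * u ^ 2 + 16 * t * u + 64 * A') := by
        rw [← h2, hxdef]
        linear_combination 64 * (p : ℤ) * hA'
      exact mul_left_cancel₀ (pow_ne_zero 2 hp0) h3
    have he0 : e ≠ ⊥ := by
      rintro rfl
      rw [Ideal.mul_bot] at he
      rcases Ideal.mul_eq_bot.1 he with h1 | h1
      · rw [h1, Ideal.absNorm_bot] at hNδ
        have h2 : (0 : ℤ) < x ^ 2 + a * 8 ^ 2 := by
          have : x ≠ 0 := by rintro h0; rw [h0] at hx; exact absurd hx (by decide)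
          positivity
        rw [← hNδ] at h2
        exact absurd h2 (by simp)
      · exact hd0 h1
    have hcop : Nat.Coprime (Ideal.absNorm e) N := by
      rw [← Nat.isCoprime_iff_coprime, hNe]
      exact hucop
    obtain ⟨L, hL, hLe⟩ := factor_list6 hb he0 hcop (by
      intro l hl hlP hdiv
      have hl0 : Ideal.span {(l : 𝓞 K)} ≠ ⊥ := by
        rw [Ne, Ideal.span_singleton_eq_bot]
        exact_mod_cast hl.ne_zero
      have h1 : Ideal.span {(l : 𝓞 K)} ∣ Ideal.span {((x : 𝓞 K) + 8 * S)} * d := by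
        rw [he]
        exact Dvd.dvd.mul_left hdiv _
      rcases (Ideal.prime_of_isPrime hl0 hlP).dvd_or_dvd h1 with h2 | h2
      · exact not_span_dvd_lin6 hb hδ hx hl h2
      · have h3 : Ideal.absNorm (Ideal.span {(l : 𝓞 K)}) ∣ Ideal.absNorm d :=
          Ideal.absNorm_dvd_absNorm_of_le (Ideal.le_of_dvd h2)
        have h4 : algebraMap (𝓞 K) K (l : 𝓞 K) = ((l : ℤ) : K) + ((0 : ℤ) : K) * s := by
          rw [map_natCast]
          push_cast
          ring
        have h5 := norm_lin6 hb h4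
        have h6 : Ideal.absNorm (Ideal.span {(l : 𝓞 K)}) = l ^ 2 := by
          have : (Ideal.absNorm (Ideal.span {(l : 𝓞 K)}) : ℤ) = ((l ^ 2 : ℕ) : ℤ) := by
            rw [h5]; push_cast; ring
          exact_mod_cast this
        rw [h6, hNd] at h3
        rcases (Nat.dvd_prime hpp).1 h3 with h7 | h7
        · have h8 : l = 1 := by
            have h9 := Nat.le_self_pow (n := 2) (by norm_num) l
            have h10 := hl.one_lt
            omega
          exact hl.one_lt.ne' h8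
        · rw [← h7] at hpp
          exact Nat.Prime.not_prime_pow (le_refl 2) hpp)
    refine ⟨L, p, x, (x : 𝓞 K) + 8 * S, hpodd, hx, hm8, hδ, hL, ?_⟩
    rw [hLe, he]
  · -- inert
    obtain ⟨x, hx8, hxcop⟩ := nonroot (A := 1) (B := 0) (C := 64 * (a : ℤ)) (r := p) hN
      (by
        rintro l hl hl2 ⟨h1, -, -⟩
        have h2 : l ∣ 1 := by exact_mod_cast h1
        exact hl.one_lt.ne' (Nat.dvd_one.1 h2))
      (by
        intro u hu
        obtain ⟨k, hk⟩ := hpoddZ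
        obtain ⟨j, hj⟩ : ∃ j, u = 2 * j + 1 := ⟨u / 2, by omega⟩
        rw [hj]
        refine ⟨2 * j ^ 2 + 2 * j + 32 * a, ?_⟩
        ring)
    have hx : Odd x := by
      obtain ⟨k, hk⟩ := hpoddZ
      exact ⟨x / 2, by omega⟩
    have hδ : algebraMap (𝓞 K) K ((x : 𝓞 K) + 8 * S) = x + 8 * s := by
      rw [map_add, map_mul, hS, map_intCast, map_ofNat]
    have hNδ : (Ideal.absNorm (Ideal.span {((x : 𝓞 K) + 8 * S)}) : ℤ) = x ^ 2 + a * 8 ^ 2 :=
      norm_lin6 hb (by rw [hδ]; push_cast; ring)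
    have he0 : Ideal.span {((x : 𝓞 K) + 8 * S)} ≠ ⊥ := by
      intro h1
      rw [h1, Ideal.absNorm_bot] at hNδ
      have h2 : (0 : ℤ) < x ^ 2 + a * 8 ^ 2 := by
        have : x ≠ 0 := by rintro h0; rw [h0] at hx; exact absurd hx (by decide)
        positivity
      rw [← hNδ] at h2
      exact absurd h2 (by simp)
    have hcop : Nat.Coprime (Ideal.absNorm (Ideal.span {((x : 𝓞 K) + 8 * S)})) N := by
      rw [← Nat.isCoprime_iff_coprime, hNδ]
      convert hxcop using 1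
      ring
    obtain ⟨L, hL, hLe⟩ := factor_list6 hb he0 hcop (fun l hl _ => not_span_dvd_lin6 hb hδ hx hl)
    refine ⟨L, p, x, (x : 𝓞 K) + 8 * S, hpodd, hx, hx8.symm, hδ, hL, ?_⟩
    rw [hLe, hdp, mul_comm]

private theorem sq_mod8 {x : ℤ} (hx : Odd x) : x ^ 2 % 8 = 1 := by
  obtain ⟨k, rfl⟩ := hx
  have h : (2 * k + 1) ^ 2 = 4 * (k * (k + 1)) + 1 := by ring
  rw [h]
  obtain ⟨j, hj⟩ := Int.even_mul_succ_self k
  omega

private theorem jac_odd {d X : ℕ} {x y : ℤ} (hd : Odd d) (hX : (X : ℤ) = x ^ 2 + d * y)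
    (hX8 : X % 8 = 1) (hxd : IsCoprime x (d : ℤ)) : jacobiSym (d : ℤ) X = 1 := by
  have h1 : jacobiSym (X : ℤ) d = jacobiSym (d : ℤ) X :=
    jacobiSym.quadratic_reciprocity_one_mod_four (by omega) hd
  rw [← h1, hX, jacobiSym.mod_left, Int.add_mul_emod_self_left, ← jacobiSym.mod_left]
  exact jacobiSym.sq_one' (Int.isCoprime_iff_gcd_eq_one.1 hxd)

private theorem jac_one {a d X : ℕ} {x : ℤ} (hsf : Squarefree a) (hda : d ∣ a) (hx : Odd x)
    (hX : (X : ℤ) = x ^ 2 + 64 * a) (hxd : IsCoprime x (d : ℤ)) : jacobiSym (d : ℤ) X = 1 := by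
  have hX8 : X % 8 = 1 := by
    have h := sq_mod8 hx
    omega
  obtain ⟨e, he⟩ := hda
  rcases Nat.even_or_odd d with h2 | h2
  · obtain ⟨d', hd'⟩ := even_iff_two_dvd.1 h2
    have hodd : Odd d' := by
      by_contra hc
      rw [Nat.not_odd_iff_even] at hc
      obtain ⟨f, hf⟩ := even_iff_two_dvd.1 hc
      have h4 : 2 * 2 ∣ a := ⟨f * e, by rw [he, hd', hf]; ring⟩
      have := hsf 2 h4
      rw [Nat.isUnit_iff] at this
      omega
    have hc' : IsCoprime x (d' : ℤ) := by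
      rw [hd'] at hxd
      push_cast at hxd
      exact hxd.of_mul_right_right
    rw [hd']
    push_cast
    rw [jacobiSym.mul_left, jac_odd hodd (x := x) (y := 128 * e) (by
      rw [hX, he, hd']; push_cast; ring) hX8 hc', mul_one]
    have hXo : Odd X := by
      rw [Nat.odd_iff]
      omega
    rw [jacobiSym.at_two hXo, ZMod.χ₈_nat_eq_if_mod_eight]
    rw [if_neg (by omega), if_pos (Or.inl hX8)]
  · exact jac_odd h2 (x := x) (y := 64 * e) (by rw [hX, he]; push_cast; ring) hX8 hxd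

private theorem jac_eq {a d m n n' : ℕ} {x : ℤ} (hsf : Squarefree a) (hda : d ∣ a) (hx : Odd x)
    (heq : (m : ℤ) ^ 2 * n' = (x ^ 2 + 64 * a) * n) (hn'a : Nat.Coprime n' a)
    (hdn : Nat.Coprime d n) (hn0 : n ≠ 0) : jacobiSym (d : ℤ) n' = jacobiSym (d : ℤ) n := by
  have hxpos : 0 < x ^ 2 := by
    have : x ≠ 0 := by
      rintro rfl
      exact absurd hx (by decide)
    positivity
  obtain ⟨X, hX⟩ : ∃ X : ℕ, (X : ℤ) = x ^ 2 + 64 * a := ⟨(x ^ 2 + 64 * a).toNat, by omega⟩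
  have hX0 : X ≠ 0 := by
    rintro rfl
    push_cast at hX
    omega
  have heqN : m ^ 2 * n' = X * n := by
    rw [← hX] at heq
    exact_mod_cast heq
  have hm0 : m ≠ 0 := by
    rintro rfl
    have : X * n = 0 := by rw [← heqN]; simp
    rcases Nat.mul_eq_zero.1 this with h | h
    · exact hX0 h
    · exact hn0 h
  have hn'0 : n' ≠ 0 := by
    rintro rfl
    have : X * n = 0 := by rw [← heqN]; simp
    rcases Nat.mul_eq_zero.1 this with h | h
    · exact hX0 h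
    · exact hn0 h
  -- primes of `d` do not divide `x`
  have key : ∀ l : ℕ, l.Prime → l ∣ d → ¬ (l : ℤ) ∣ x := by
    intro l hl hld hlx
    have hla : l ∣ a := hld.trans hda
    have hln : ¬ l ∣ n := fun h => hl.one_lt.ne' (Nat.dvd_one.1 (hdn ▸ Nat.dvd_gcd hld h))
    have hln' : ¬ l ∣ n' := fun h => hl.one_lt.ne' (Nat.dvd_one.1 (hn'a ▸ Nat.dvd_gcd h hla))
    have hl2 : l ≠ 2 := by
      rintro rfl
      obtain ⟨k, hk⟩ := hx
      obtain ⟨j, hj⟩ := hlx
      push_cast at hj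
      omega
    have hlX : l ∣ X := by
      have h1 : (l : ℤ) ∣ X := by
        rw [hX]
        exact dvd_add (dvd_pow hlx two_ne_zero) (Dvd.dvd.mul_left (Int.natCast_dvd_natCast.2 hla) _)
      exact_mod_cast h1
    have hlm : l ∣ m := by
      have h1 : l ∣ m ^ 2 * n' := by
        rw [heqN]
        exact Dvd.dvd.mul_right hlX _
      exact hl.dvd_of_dvd_pow ((hl.dvd_mul.1 h1).resolve_right hln')
    have h2 : l ^ 2 ∣ X * n := by
      rw [← heqN]
      exact Dvd.dvd.mul_right (pow_dvd_pow_of_dvd hlm 2) _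
    have h3 : l ^ 2 ∣ X :=
      (Nat.Coprime.pow_left 2 ((Nat.Prime.coprime_iff_not_dvd hl).2 hln)).dvd_of_dvd_mul_right h2
    have h4 : ((l ^ 2 : ℕ) : ℤ) ∣ 64 * (a : ℤ) := by
      have h5 : ((l ^ 2 : ℕ) : ℤ) ∣ x ^ 2 := by
        push_cast
        exact pow_dvd_pow_of_dvd hlx 2
      have h6 : ((l ^ 2 : ℕ) : ℤ) ∣ x ^ 2 + 64 * a := by
        rw [← hX]
        exact_mod_cast h3
      exact (dvd_add_right h5).1 h6
    have h7 : l ^ 2 ∣ 64 * a := by exact_mod_cast h4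
    have h8 : l ^ 2 ∣ a := by
      refine Nat.Coprime.dvd_of_dvd_mul_left ?_ h7
      have h9 : Nat.Coprime l 2 := (Nat.coprime_primes hl Nat.prime_two).2 hl2
      have h10 := Nat.Coprime.pow 2 6 h9
      have h11 : (2 : ℕ) ^ 6 = 64 := by norm_num
      rw [h11] at h10
      exact h10
    rw [pow_two] at h8
    exact hl.one_lt.ne' (Nat.isUnit_iff.1 (hsf l h8))
  have hxd : IsCoprime x (d : ℤ) := by
    rw [Int.isCoprime_iff_gcd_eq_one]
    by_contra hne
    obtain ⟨l, hl, hld⟩ := Nat.exists_prime_and_dvd hne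
    exact key l hl (Int.natCast_dvd_natCast.1
      ((Int.natCast_dvd_natCast.2 hld).trans (Int.gcd_dvd_right ..)))
      ((Int.natCast_dvd_natCast.2 hld).trans (Int.gcd_dvd_left ..))
  have hJX := jac_one hsf hda hx hX hxd
  -- `m` is prime to `d`
  have hmd : Nat.Coprime d m := by
    rw [Nat.coprime_iff_gcd_eq_one]
    by_contra hne
    obtain ⟨l, hl, hld⟩ := Nat.exists_prime_and_dvd hne
    have hl1 : l ∣ d := hld.trans (Nat.gcd_dvd_left _ _)
    have hl2 : l ∣ m := hld.trans (Nat.gcd_dvd_right _ _)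
    have hln : ¬ l ∣ n := fun h => hl.one_lt.ne' (Nat.dvd_one.1 (hdn ▸ Nat.dvd_gcd hl1 h))
    have h1 : l ∣ X * n := by
      rw [← heqN]
      exact Dvd.dvd.mul_right (dvd_pow hl2 two_ne_zero) _
    have h2 : l ∣ X := (hl.dvd_mul.1 h1).resolve_right hln
    apply key l hl hl1
    have h3 : (l : ℤ) ∣ x ^ 2 := by
      have h4 : (l : ℤ) ∣ x ^ 2 + 64 * a := by
        rw [← hX]
        exact_mod_cast h2
      have h5 : (l : ℤ) ∣ 64 * (a : ℤ) :=
        Dvd.dvd.mul_left (Int.natCast_dvd_natCast.2 (hl1.trans hda)) _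
      exact (dvd_add_left h5).1 h4
    exact (Nat.prime_iff_prime_int.1 hl).dvd_of_dvd_pow h3
  have hJm : jacobiSym (d : ℤ) m ^ 2 = 1 := by
    rw [← jacobiSym.pow_left]
    exact jacobiSym.sq_one' (by simpa [Int.gcd_natCast_natCast] using hmd)
  have h9 : jacobiSym (d : ℤ) (m ^ 2 * n') = jacobiSym (d : ℤ) n' := by
    rw [jacobiSym.mul_right' _ (pow_ne_zero 2 hm0) hn'0, jacobiSym.pow_right, hJm, one_mul]
  have h10 : jacobiSym (d : ℤ) (X * n) = jacobiSym (d : ℤ) n := by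
    rw [jacobiSym.mul_right' _ hX0 hn0, hJX, one_mul]
  rw [← h9, heqN, h10]

private theorem list_coprime {L : List (Ideal (𝓞 K))} {N : ℕ}
    (hL : ∀ q ∈ L, q.IsPrime ∧ (Ideal.absNorm q).Prime ∧ ¬ Ideal.absNorm q ∣ a * N) :
    Nat.Coprime (Ideal.absNorm L.prod) a ∧ Ideal.absNorm L.prod ≠ 0 := by
  induction L with
  | nil => simp
  | cons q L ih =>
    have h1 := ih fun r hr => hL r (List.mem_cons_of_mem _ hr)
    obtain ⟨-, h2, h3⟩ := hL q List.mem_cons_self
    rw [List.prod_cons, map_mul]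
    refine ⟨Nat.Coprime.mul_left ?_ h1.1, mul_ne_zero h2.ne_zero h1.2⟩
    exact (Nat.Prime.coprime_iff_not_dvd h2).2 fun h => h3 (Dvd.dvd.mul_right h _)

private theorem mov6_of_movP (hb : B6 K a s) {b : Ideal (𝓞 K)} (hbo : OddI b) {N : ℕ}
    (h : MovP s (a * N) b) : Mov6 a s N b := by
  obtain ⟨L, m, x, δ, hm, hx, hmx, hδ, hL, hprod⟩ := h
  have hc := list_coprime (a := a) hL
  have h1 := congrArg Ideal.absNorm hprod
  rw [map_mul, map_mul] at h1
  have h2 := norm_lin6 hb (δ := (m : 𝓞 K)) (x := m) (y := 0) (by simp)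
  have h3 := norm_lin6 hb (δ := δ) (x := x) (y := 8) (by rw [hδ]; push_cast; ring)
  have heq : (m : ℤ) ^ 2 * (Ideal.absNorm L.prod : ℕ) =
      (x ^ 2 + 64 * a) * (Ideal.absNorm b : ℕ) := by
    have h4 : (Ideal.absNorm (Ideal.span {(m : 𝓞 K)}) : ℤ) * (Ideal.absNorm L.prod : ℕ) =
        (Ideal.absNorm (Ideal.span {δ}) : ℤ) * (Ideal.absNorm b : ℕ) := by exact_mod_cast h1
    rw [h2, h3] at h4
    linear_combination h4
  have hb0 : Ideal.absNorm b ≠ 0 := by
    intro h0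
    unfold OddI at hbo
    rw [h0] at hbo
    exact absurd hbo (by decide)
  have hmZ : Odd (m : ℤ) := by exact_mod_cast hm
  refine ⟨L, m, x, 1, δ, hmZ, hx, hmx, ?_, ?_, ?_, ?_, ?_⟩
  · rw [hδ]
    push_cast
    ring
  · intro q hq
    obtain ⟨h5, h6, h7⟩ := hL q hq
    exact ⟨h5, h6, fun h => h7 (Dvd.dvd.mul_left h _)⟩
  · push_cast
    exact hprod
  · have h5 := sq_mod8 hmZ
    have h6 : (x ^ 2 + 64 * (a : ℤ)) % 8 = 1 := by
      have h := sq_mod8 hx
      omega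
    have h7 := congrArg (· % 8) heq
    simp only [Int.mul_emod, h5, h6, one_mul, Int.emod_emod_of_dvd _ (dvd_refl (8 : ℤ))] at h7
    omega
  · intro d hda hdn
    exact jac_eq hb.sf hda hx heq hc.1 hdn hb0

private theorem mov_mul6 (hb : B6 K a s) {N : ℕ} {d e : Ideal (𝓞 K)} (hdo : OddI d)
    (heo : OddI e) (hd : Mov6 a s N d) (he : Mov6 a s N e) : Mov6 a s N (d * e) := by
  obtain ⟨L1, m1, x1, y1, δ1, hm1, hx1, hmx1, hδ1, hL1, h1, hn1, hj1⟩ := hd
  obtain ⟨L2, m2, x2, y2, δ2, hm2, hx2, hmx2, hδ2, hL2, h2, hn2, hj2⟩ := he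
  have hne : ∀ L : List (Ideal (𝓞 K)), (∀ q ∈ L, q.IsPrime ∧ (Ideal.absNorm q).Prime ∧
      ¬ Ideal.absNorm q ∣ N) → Ideal.absNorm L.prod ≠ 0 := by
    intro L hL
    induction L with
    | nil => simp
    | cons q L ih =>
      rw [List.prod_cons, map_mul]
      exact mul_ne_zero (hL q List.mem_cons_self).2.1.ne_zero
        (ih fun r hr => hL r (List.mem_cons_of_mem _ hr))
  have ho : ∀ b : Ideal (𝓞 K), OddI b → Ideal.absNorm b ≠ 0 := by
    intro b hbo h0
    unfold OddI at hbo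
    rw [h0] at hbo
    exact absurd hbo (by decide)
  refine ⟨L1 ++ L2, m1 * m2, x1 * x2 - 64 * a * y1 * y2, x1 * y2 + x2 * y1, δ1 * δ2, hm1.mul hm2,
    ?_, ?_, ?_, ?_, ?_, ?_, ?_⟩
  · refine (hx1.mul hx2).sub_even ⟨32 * a * y1 * y2, by ring⟩
  · have h3 : (x1 * x2 - 64 * a * y1 * y2) % 8 = (x1 * x2) % 8 := by
      have : x1 * x2 - 64 * a * y1 * y2 = x1 * x2 + 8 * (-8 * a * y1 * y2) := by ring
      rw [this, Int.add_mul_emod_self_left]
    rw [h3, Int.mul_emod, hmx1, hmx2, ← Int.mul_emod]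
  · rw [map_mul, hδ1, hδ2]
    push_cast
    linear_combination 64 * (y1 : K) * y2 * hb.sq
  · intro q hq
    rcases List.mem_append.1 hq with h | h
    · exact hL1 q h
    · exact hL2 q h
  · rw [List.prod_append]
    push_cast
    rw [← Ideal.span_singleton_mul_span_singleton, ← Ideal.span_singleton_mul_span_singleton,
      mul_mul_mul_comm, h1, h2, mul_mul_mul_comm]
  · rw [List.prod_append, map_mul, map_mul, Nat.mul_mod, hn1, hn2, ← Nat.mul_mod]
  · intro f hfa hf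
    rw [map_mul] at hf
    rw [List.prod_append, map_mul, map_mul, jacobiSym.mul_right' _ (hne L1 hL1) (hne L2 hL2),
      jacobiSym.mul_right' _ (ho d hdo) (ho e heo),
      hj1 f hfa (Nat.Coprime.coprime_mul_right_right hf),
      hj2 f hfa (Nat.Coprime.coprime_mul_left_right hf)]

theorem mov6 (hb : B6 K a s) {b : Ideal (𝓞 K)} (hbo : OddI b) {N : ℕ} (hN : N ≠ 0) :
    Mov6 a s N b := by
  have hb0 : b ≠ 0 := by
    rintro rfl
    unfold OddI at hbo
    rw [Ideal.zero_eq_bot, Ideal.absNorm_bot] at hbo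
    exact absurd hbo (by decide)
  have haN : a * N ≠ 0 := mul_ne_zero hb.sf.ne_zero hN
  induction b using UniqueFactorizationMonoid.induction_on_prime with
  | h₁ => exact absurd rfl hb0
  | h₂ u hu =>
    rw [Ideal.isUnit_iff] at hu
    subst hu
    refine ⟨[], 1, 1, 0, 1, odd_one, odd_one, rfl, by simp, fun q hq => by simp at hq, ?_, ?_, ?_⟩
    · rw [List.prod_nil, Int.cast_one, Ideal.span_singleton_one, Ideal.top_mul, Ideal.top_mul,
        Ideal.one_eq_top]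
    · rw [List.prod_nil, Ideal.one_eq_top]
    · intro d _ _
      rw [List.prod_nil, Ideal.one_eq_top]
  | h₃ e p he hp ih =>
    have h1 : OddI p ∧ OddI e := by
      unfold OddI at *
      rw [map_mul] at hbo
      exact Nat.odd_mul.1 hbo
    exact mov_mul6 hb h1.1 h1.2
      (mov6_of_movP hb h1.1 (move_prime6 hb (Ideal.isPrime_of_prime hp) h1.1 haN)) (ih h1.2 he)

end Pool.Agent.Work.MP_8efaaa_nt.K6
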