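import Mathlib
import Pool.Agent.Work.MP_8efaaa_nt.N5.CAll
import Pool.Agent.Work.MP_8efaaa_nt.K6.ATr
import Pool.Agent.Work.MP_8efaaa_nt.K6.CFr
import Pool.Agent.Work.MP_8efaaa_nt.K6.CMv

/-!
# K6/CAl (M): all odd ideals act

Copy of `N5/CAll.lean` with `mov6`, `frob_ma6`, `tr_one6` (for `m` and `δ = x + 8 y s`: `e8 m = e8 x`). The square roots: for the list one gets `J(d | absNorm L.prod)` for
all `d ∣ a` (the norms of the primes of the list are prime to `a`, `a ∣ N`), and `Mov6` compares it with `J(d | absNorm b)` for `d` prime to `absNorm b`. -/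

set_option autoImplicit false

namespace Pool.Agent.Work.MP_8efaaa_nt.K6

open NumberField Pool.Agent.Work.CM Pool.Agent.Work.MP_8efaaa_nt.R Pool.Agent.Work.MP_8efaaa_nt.N5

universe u

variable {K : Type u} {F : Type*} [Field K] [NumberField K] [Algebra K ℂ] [Field F] [NumberField F]
  [Algebra K F] [Algebra F ℂ] [IsScalarTower K F ℂ] [IsGalois K F] {a : ℕ} {s : K} {ζ : F}
  {w : ℕ → F} {z k v : Ideal (𝓞 K) → F}

omit [Algebra K ℂ] in
private theorem cal_odd_mul {c d : Ideal (𝓞 K)} (hc : OddI c) (hd : OddI d) : OddI (c * d) := by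
  unfold OddI at *
  rw [map_mul]
  exact hc.mul hd

omit [NumberField F] [Algebra F ℂ] in
private theorem cal_pow {ζ : F} (h : ζ ^ 4 = -1) {m n : ℕ} (hmn : m % 8 = n % 8) :
    ζ ^ m = ζ ^ n := by
  have h8 : ζ ^ 8 = 1 := by
    have : ζ ^ 8 = (ζ ^ 4) ^ 2 := by ring
    rw [this, h]
    norm_num
  rw [← Nat.div_add_mod m 8, ← Nat.div_add_mod n 8, pow_add, pow_add, pow_mul, pow_mul, h8, one_pow,
    one_pow, hmn]

omit [Algebra K ℂ] [Algebra F ℂ] [IsScalarTower K F ℂ] in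
/-- one prime ideal of degree one -/
private theorem cal_prime {N : ℕ} (haN : a ∣ N)
    (hfr : ∀ (l : ℕ) (Q : Ideal (𝓞 F)) (σ : F ≃ₐ[K] F), l.Prime → ¬ l ∣ N → Q.IsPrime →
      Ideal.absNorm (Q.comap (algebraMap (𝓞 K) (𝓞 F))) = l → Frb σ Q l →
      MA6 a ζ w z k v σ (Q.comap (algebraMap (𝓞 K) (𝓞 F))))
    {q : Ideal (𝓞 K)} (hq : q.IsPrime) (hl : (Ideal.absNorm q).Prime)
    (hN : ¬ Ideal.absNorm q ∣ N) :
    ∃ σ : F ≃ₐ[K] F, σ ζ = ζ ^ Ideal.absNorm q ∧ DAct z k v σ q ∧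
      ∀ d, d ∣ a → σ (w d) = (jacobiSym d (Ideal.absNorm q) : ℤ) * w d := by
  have hq0 : q ≠ ⊥ := by
    rintro rfl
    rw [Ideal.absNorm_bot] at hl
    exact Nat.not_prime_zero hl
  haveI : q.IsMaximal := hq.isMaximal hq0
  have hinj : Function.Injective (algebraMap (𝓞 K) (𝓞 F)) := FaithfulSMul.algebraMap_injective _ _
  obtain ⟨Q, hQ, hQq⟩ := Ideal.exists_ideal_over_maximal_of_isIntegral (S := 𝓞 F) q (by
    rw [(RingHom.injective_iff_ker_eq_bot _).1 hinj]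
    exact bot_le)
  have hQ0 : Q ≠ ⊥ := by
    rintro rfl
    apply hq0
    rw [← hQq]
    exact Ideal.comap_bot_of_injective _ hinj
  obtain ⟨σ, hσ⟩ := exists_frb Q hQ.isPrime hQ0 (k := K)
  rw [hQq] at hσ
  have h1 := hfr (Ideal.absNorm q) Q σ hl hN hQ.isPrime (by rw [hQq]) hσ
  rw [hQq] at h1
  refine ⟨σ, h1.z8, h1.act, fun d hd => h1.sq d hd ?_⟩
  exact Nat.Coprime.symm ((Nat.Prime.coprime_iff_not_dvd hl).2
    fun h2 => hN (h2.trans (hd.trans haN)))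

omit [Algebra K ℂ] [Algebra F ℂ] [IsScalarTower K F ℂ] in
private theorem cal_list {N : ℕ} (h2 : 2 ∣ N) (haN : a ∣ N)
    (hfr : ∀ (l : ℕ) (Q : Ideal (𝓞 F)) (σ : F ≃ₐ[K] F), l.Prime → ¬ l ∣ N → Q.IsPrime →
      Ideal.absNorm (Q.comap (algebraMap (𝓞 K) (𝓞 F))) = l → Frb σ Q l →
      MA6 a ζ w z k v σ (Q.comap (algebraMap (𝓞 K) (𝓞 F))))
    (L : List (Ideal (𝓞 K)))
    (hL : ∀ q ∈ L, q.IsPrime ∧ (Ideal.absNorm q).Prime ∧ ¬ Ideal.absNorm q ∣ N) :
    Ideal.absNorm L.prod ≠ 0 ∧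
    ∃ σ : F ≃ₐ[K] F, σ ζ = ζ ^ Ideal.absNorm L.prod ∧ DAct z k v σ L.prod ∧
      ∀ d, d ∣ a → σ (w d) = (jacobiSym d (Ideal.absNorm L.prod) : ℤ) * w d := by
  induction L with
  | nil =>
    refine ⟨by simp, AlgEquiv.refl, ?_, ?_, ?_⟩
    · rw [List.prod_nil, map_one, pow_one]
      rfl
    · intro c hc
      rw [List.prod_nil, one_mul]
      exact ⟨rfl, rfl, rfl⟩
    · intro d hd
      rw [List.prod_nil, map_one, jacobiSym.one_right, Int.cast_one, one_mul]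
      rfl
  | cons q L ih =>
    obtain ⟨hne, σ', h1, h2', h2m⟩ := ih fun r hr => hL r (List.mem_cons_of_mem _ hr)
    obtain ⟨hq, hql, hqN⟩ := hL q List.mem_cons_self
    obtain ⟨σ, h3, h4, h4m⟩ := cal_prime haN hfr hq hql hqN
    have hodd : OddI q := by
      unfold OddI
      refine hql.odd_of_ne_two fun h5 => hqN ?_
      rw [h5]
      exact h2
    refine ⟨?_, σ.trans σ', ?_, ?_, ?_⟩
    · rw [List.prod_cons, map_mul]
      exact mul_ne_zero hql.ne_zero hne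
    · rw [AlgEquiv.trans_apply, h3, map_pow, h1, ← pow_mul, List.prod_cons, map_mul, mul_comm]
    · intro c hc
      obtain ⟨a1, a2, a3⟩ := h4 c hc
      obtain ⟨b1, b2, b3⟩ := h2' (q * c) (cal_odd_mul hodd hc)
      have e : L.prod * (q * c) = (q :: L).prod * c := by
        rw [List.prod_cons]
        ring
      refine ⟨?_, ?_, ?_⟩
      · rw [AlgEquiv.trans_apply, a1, b1, e]
      · rw [AlgEquiv.trans_apply, a2, b2, e]
      · rw [AlgEquiv.trans_apply, a3, b3, e]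
    · intro d hd
      rw [AlgEquiv.trans_apply, h4m d hd, map_mul, map_intCast, h2m d hd, List.prod_cons, map_mul,
        jacobiSym.mul_right' _ hql.ne_zero hne]
      push_cast
      ring

theorem all_act6 (hb : B6 K a s) (h : C6 K F a s ζ w z k v) {b : Ideal (𝓞 K)} (hbo : OddI b) :
    ∃ σ : F ≃ₐ[K] F, MA6 a ζ w z k v σ b := by
  obtain ⟨N, hN, h2N, haN, hfr⟩ := frob_ma6 hb h
  obtain ⟨L, m, x, y, δ, hm, hx, hmx, hδ, hL, hprod, hnorm, hjac⟩ := mov6 hb hbo hN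
  obtain ⟨-, σ, hσ, hσL, hσw⟩ := cal_list h2N haN hfr L hL
  have hLodd : OddI L.prod := by
    unfold OddI at *
    rw [Nat.odd_iff] at *
    omega
  have hinj := (algebraMap F ℂ).injective
  have hδm : algebraMap (𝓞 K) K (m : 𝓞 K) = (m : ℤ) + 4 * (0 : ℤ) * s := by
    rw [map_intCast]
    push_cast
    ring
  have hδx : algebraMap (𝓞 K) K δ = x + 4 * (2 * y : ℤ) * s := by
    rw [hδ]
    push_cast
    ring
  refine ⟨σ, ?_, ?_, ?_⟩
  · intro c hc
    have hLc := cal_odd_mul hLodd hc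
    have hdc := cal_odd_mul hbo hc
    obtain ⟨p1, p2, p3⟩ := tr_one6 hb hLc hm (y := 0) (δ := (m : 𝓞 K)) hδm
    obtain ⟨q1, q2, q3⟩ := tr_one6 hb hdc hx (y := 2 * y) (δ := δ) hδx
    have e1 : Ideal.span {(m : 𝓞 K)} * (L.prod * c) = Ideal.span {δ} * (b * c) := by
      rw [← mul_assoc, hprod, mul_assoc]
    have e2 : e8 x = e8 m := by
      unfold e8
      rw [hmx]
    have e4 : (e8 m : ℂ) ≠ 0 := by
      unfold e8
      split_ifs <;> norm_num
    rw [e1] at p1 p2 p3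
    rw [e2] at q1
    have r1 : zc s (L.prod * c) = zc s (b * c) := by
      have := p1.symm.trans q1
      exact mul_left_cancel₀ e4 this
    have r2 : kc s (L.prod * c) = kc s (b * c) := p2.symm.trans q2
    have r3 : vc s (L.prod * c) = vc s (b * c) := p3.symm.trans q3
    obtain ⟨b1, b2, b3⟩ := hσL c hc
    refine ⟨?_, ?_, ?_⟩
    · rw [b1]
      apply hinj
      rw [h.hz _ hLc, h.hz _ hdc, r1]
    · rw [b2]
      apply hinj
      rw [h.hk _ hLc, h.hk _ hdc, r2]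
    · rw [b3]
      apply hinj
      rw [h.hv _ hLc, h.hv _ hdc, r3]
  · rw [hσ]
    exact cal_pow h.z8 hnorm
  · intro d hd hdb
    rw [hσw d hd, hjac d hd hdb]

end Pool.Agent.Work.MP_8efaaa_nt.K6
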